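import Mathlib
import Pool.Agent.Lib.helper94.ANT.Mertens

set_option autoImplicit false

/-! # Step A: almost all `n` have many levels with a large prime factor. Definitions -/

open Finset
open scoped Classical

namespace AA

/-- the numbers `210 w + 1` -/
def gg (w : ℕ) : ℕ := 210 * w + 1

/-- the primes in `(7, z]` -/
noncomputable def PR (z : ℕ) : Finset ℕ := (Icc 8 z).filter Nat.Prime

/-- `∑_{7 < p ≤ z} log p` -/
noncomputable def th (z : ℕ) : ℝ := ∑ p ∈ PR z, Real.log p

/-- `∑_{7 < p ≤ z} (log p) / p` -/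
noncomputable def mu (z : ℕ) : ℝ := ∑ p ∈ PR z, Real.log p / p

/-- `∑ log p` over the primes `7 < p ≤ z` dividing `m` -/
noncomputable def sl (z m : ℕ) : ℝ := ∑ p ∈ (PR z).filter (fun p => p ∣ m), Real.log p

/-- the sum of `sl z` over the `R` levels `V + 1, ..., V + R` -/
noncomputable def SS (z R V : ℕ) : ℝ := ∑ j ∈ Icc 1 R, sl z (gg (V + j))

/-- the number of levels divisible by `p` -/
noncomputable def ap (R p V : ℕ) : ℝ := (((Icc 1 R).filter (fun j => p ∣ gg (V + j))).card : ℝ)

/-- the contribution of the higher prime powers: `log (m / rad m)` -/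
noncomputable def pw (m : ℕ) : ℝ :=
  ∑ p ∈ m.primeFactors, ((m.factorization p : ℝ) - 1) * Real.log p

/-- the number of levels without a prime factor larger than `Y` -/
noncomputable def nolarge (Y R V : ℕ) : ℕ :=
  ((Icc 1 R).filter (fun j => ∀ p : ℕ, p.Prime → p ∣ gg (V + j) → p ≤ Y)).card

/-- the first exceptional set: large deviation of `SS` -/
noncomputable def BV (z R X : ℕ) (δ : ℝ) : Finset ℕ :=
  (range X).filter (fun V => R * mu z + δ * R * Real.log z < SS z R V)

/-- the second exceptional set: many primes in `(z, Y]` -/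
noncomputable def BM (z Y R X : ℕ) (c : ℝ) : Finset ℕ :=
  (range X).filter (fun V => c < ∑ j ∈ Icc 1 R, (sl Y (gg (V + j)) - sl z (gg (V + j))))

/-- the third exceptional set: higher prime powers -/
noncomputable def BP (R X : ℕ) (c : ℝ) : Finset ℕ :=
  (range X).filter (fun V => c < ∑ j ∈ Icc 1 R, pw (gg (V + j)))

/-- the level number `l`: `n - lev n l = 1 + 210 ((n - 1) / 210 - l)` -/
def lev (n l : ℕ) : ℕ := (n - 1) % 210 + 210 * l

/-- more than `3 (R / 11 + 1)` of the levels `l < R` have a prime factor `p` with `p ^ 2 > 210 R N` -/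
def P2Q (R N n : ℕ) : Prop :=
  ∃ I : Finset ℕ, I ⊆ range R ∧ 3 * (R + 11) < 11 * I.card ∧
    ∀ l ∈ I, ∃ p : ℕ, p.Prime ∧ 210 * R * N < p ^ 2 ∧ p ∣ n - lev n l

end AA
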