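import Pool.Agent.AA.A0

set_option autoImplicit false

open Finset
open scoped Classical

namespace AA

/-- [AA-A1] a divisor of `210 w + 1` is coprime to `210`. -/
theorem coprime_gg {q w : ℕ} (h : q ∣ gg w) : Nat.Coprime q 210 := by
  unfold gg at h
  have h1 : Nat.Coprime (210 * w + 1) 210 := by
    rw [Nat.coprime_iff_gcd_eq_one]
    have := Nat.gcd_mul_right_add_left 210 1 w
    have h2 : Nat.gcd 210 (210 * w + 1) = 1 := by
      rw [Nat.gcd_comm]
      simp [Nat.gcd_comm, Nat.add_comm (210 * w) 1]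
    rw [Nat.gcd_comm]; exact h2
  exact Nat.Coprime.coprime_dvd_left h h1

/-- a set contained in one class modulo `m` -/
theorem a1_card_class {S : Finset ℕ} {m X : ℕ} (h1 : ∀ u ∈ S, u < X)
    (h2 : ∀ u ∈ S, ∀ v ∈ S, u ≡ v [MOD m]) : (S.card : ℝ) ≤ (X : ℝ) / m + 1 := by
  have h3 : S.card ≤ X / m + 1 := by
    have h4 : S.card ≤ (range (X / m + 1)).card := by
      apply Finset.card_le_card_of_injOn (fun u => u / m)
      · intro u hu
        have hu' := h1 u hu
        simp only [Finset.coe_range, Set.mem_Iio]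
        have := Nat.div_le_div_right (c := m) hu'.le
        omega
      · intro u hu v hv huv
        have h5 := h2 u hu v hv
        have h6 : u % m = v % m := h5
        have h7 : u / m = v / m := huv
        rw [← Nat.div_add_mod u m, ← Nat.div_add_mod v m, h6, h7]
    simpa using h4
  have h5 : ((S.card : ℕ) : ℝ) ≤ ((X / m + 1 : ℕ) : ℝ) := by exact_mod_cast h3
  have h6 : ((X / m : ℕ) : ℝ) ≤ (X : ℝ) / m := Nat.cast_div_le
  push_cast at h5
  linarith

theorem a1_modEq {q V V' j : ℕ} (h : q ∣ gg (V + j)) (h' : q ∣ gg (V' + j)) : V ≡ V' [MOD q] := by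
  have hc := coprime_gg h
  unfold gg at h h'
  have h1 : 210 * (V + j) + 1 ≡ 210 * (V' + j) + 1 [MOD q] :=
    ((Nat.modEq_zero_iff_dvd.mpr h)).trans (Nat.modEq_zero_iff_dvd.mpr h').symm
  have h2 : 210 * (V + j) ≡ 210 * (V' + j) [MOD q] := Nat.ModEq.add_right_cancel' 1 h1
  have h3 : V + j ≡ V' + j [MOD q] := Nat.ModEq.cancel_left_of_coprime hc h2
  exact Nat.ModEq.add_right_cancel' j h3

/-- [AA-A1] PROOF. If `V, V'` are in the set, `q ∣ 210 (V - V')` in `ℤ`, and `q` is coprime to `210`, so `q ∣ V - V'`. A subset of `range X` contained in one class modulo `q` has at most `X / q + 1` elements (map `V ↦ V / q`, injective on the class; `V / q ≤ X / q`; or use `WD.card_class`-like argument). If the set is empty clear. -/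
theorem count_le {q : ℕ} (hq : 0 < q) (X j : ℕ) :
    (((range X).filter (fun V => q ∣ gg (V + j))).card : ℝ) ≤ (X : ℝ) / q + 1 := by
  apply a1_card_class
  · intro u hu
    exact Finset.mem_range.mp (Finset.mem_filter.mp hu).1
  · intro u hu v hv
    exact a1_modEq (Finset.mem_filter.mp hu).2 (Finset.mem_filter.mp hv).2

/-- [AA-A1] PROOF. As `count_le`: `V - V'` is divisible by `p` and by `q`, hence by `p q` (coprime). -/
theorem count_two {p q : ℕ} (hp : p.Prime) (hq : q.Prime) (hpq : p ≠ q) (X j j' : ℕ) :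
    (((range X).filter (fun V => p ∣ gg (V + j) ∧ q ∣ gg (V + j'))).card : ℝ) ≤
      (X : ℝ) / (p * q) + 1 := by
  have h := a1_card_class (S := (range X).filter (fun V => p ∣ gg (V + j) ∧ q ∣ gg (V + j')))
    (m := p * q) (X := X) ?_ ?_
  · push_cast at h
    exact h
  · intro u hu
    exact Finset.mem_range.mp (Finset.mem_filter.mp hu).1
  · intro u hu v hv
    have h1 := (Finset.mem_filter.mp hu).2
    have h2 := (Finset.mem_filter.mp hv).2
    exact (Nat.modEq_and_modEq_iff_modEq_mul ((Nat.coprime_primes hp hq).mpr hpq)).mp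
      ⟨a1_modEq h1.1 h2.1, a1_modEq h1.2 h2.2⟩

theorem a1_coprime {p : ℕ} (hp : p.Prime) (h7 : 7 < p) : Nat.Coprime p 210 := by
  rw [Nat.Prime.coprime_iff_not_dvd hp]
  intro h
  have h1 : (210 : ℕ) = 2 * 3 * 5 * 7 := by norm_num
  rw [h1] at h
  rcases (Nat.Prime.dvd_mul hp).mp h with h | h
  · rcases (Nat.Prime.dvd_mul hp).mp h with h | h
    · rcases (Nat.Prime.dvd_mul hp).mp h with h | h
      · have := Nat.le_of_dvd (by norm_num) h
        omega
      · have := Nat.le_of_dvd (by norm_num) h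
        omega
    · have := Nat.le_of_dvd (by norm_num) h
      omega
  · have := Nat.le_of_dvd (by norm_num) h
    omega

/-- [AA-A1] PROOF. `p > 7` is coprime to `210`; there is `V₀ < p` with `p ∣ gg (V₀ + j)` (`Nat.exists_mul_emod_eq_one_of_coprime` or bijectivity of multiplication by `210` in `ZMod p`); then `V₀ + k p`, `k < X / p`, are `X / p ≥ (X : ℝ) / p - 1` different elements of the set (`V₀ + k p < p (k + 1) ≤ X`). -/
theorem count_ge {p : ℕ} (hp : p.Prime) (h7 : 7 < p) (X j : ℕ) :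
    (X : ℝ) / p - 1 ≤ (((range X).filter (fun V => p ∣ gg (V + j))).card : ℝ) := by
  have : Fact p.Prime := ⟨hp⟩
  have hp0 : 0 < p := hp.pos
  have h210 : ((210 : ℕ) : ZMod p) ≠ 0 := by
    intro h
    rw [ZMod.natCast_eq_zero_iff] at h
    have h1 := a1_coprime hp h7
    have h2 : p ∣ 1 := by
      have := Nat.dvd_gcd (dvd_refl p) h
      rwa [h1] at this
    have := Nat.le_of_dvd one_pos h2
    omega
  obtain ⟨V₀, hV0, hV⟩ : ∃ V₀ : ℕ, V₀ < p ∧ p ∣ gg (V₀ + j) := by
    refine ⟨(-((210 : ℕ) : ZMod p)⁻¹ - (j : ZMod p)).val, ZMod.val_lt _, ?_⟩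
    rw [← ZMod.natCast_eq_zero_iff]
    unfold gg
    push_cast
    rw [ZMod.natCast_zmod_val]
    push_cast at h210 ⊢
    have h3 : (210 : ZMod p) * (-(210 : ZMod p)⁻¹ - (j : ZMod p) + (j : ZMod p)) + 1 =
        -((210 : ZMod p) * (210 : ZMod p)⁻¹) + 1 := by ring
    rw [h3, mul_inv_cancel₀ h210]
    ring
  have h1 : X / p ≤ ((range X).filter (fun V => p ∣ gg (V + j))).card := by
    have h2 : (range (X / p)).card ≤ ((range X).filter (fun V => p ∣ gg (V + j))).card := by
      apply Finset.card_le_card_of_injOn (fun k => V₀ + k * p)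
      · intro k hk
        have hk' : k < X / p := by simpa using hk
        have h4 : (k + 1) * p ≤ X := by
          calc (k + 1) * p ≤ (X / p) * p := Nat.mul_le_mul_right p hk'
            _ ≤ X := Nat.div_mul_le_self X p
        simp only [Finset.coe_filter, Finset.mem_range, Set.mem_ofPred_eq]
        refine ⟨by nlinarith, ?_⟩
        have h5 : gg (V₀ + k * p + j) = gg (V₀ + j) + p * (210 * k) := by
          unfold gg; ring
        rw [h5]
        exact dvd_add hV (dvd_mul_right p _)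
      · intro k _ k' _ hkk
        have h6 : V₀ + k * p = V₀ + k' * p := hkk
        have h7' : k * p = k' * p := by omega
        exact Nat.eq_of_mul_eq_mul_right hp0 h7'
    simpa using h2
  have h2 : (X : ℝ) / p < ((X / p : ℕ) : ℝ) + 1 := by
    rw [div_lt_iff₀ (by exact_mod_cast hp0)]
    have h3 : X < (X / p + 1) * p := by
      have := Nat.lt_mul_div_succ X hp0
      linarith [Nat.mul_comm p (X / p + 1)]
    exact_mod_cast h3
  have h3 : ((X / p : ℕ) : ℝ) ≤ (((range X).filter (fun V => p ∣ gg (V + j))).card : ℝ) := by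
    exact_mod_cast h1
  linarith

/-- [AA-A1] PROOF. The `j ∈ [1, R]` with `p ∣ gg (V + j)` are in one class modulo `p`. -/
theorem ap_le {p : ℕ} (hp : p.Prime) (R V : ℕ) : ap R p V ≤ (R : ℝ) / p + 1 := by
  unfold ap
  have h1 : ((Icc 1 R).filter (fun j => p ∣ gg (V + j))).card ≤
      ((range R).filter (fun j => p ∣ gg (j + (V + 1)))).card := by
    apply Finset.card_le_card_of_injOn (fun j => j - 1)
    · intro j hj
      have hj' := Finset.mem_filter.mp (Finset.mem_coe.mp hj)
      have hj1 := Finset.mem_Icc.mp hj'.1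
      simp only [Finset.coe_filter, Finset.mem_range, Set.mem_ofPred_eq]
      refine ⟨by omega, ?_⟩
      have : j - 1 + (V + 1) = V + j := by omega
      rw [this]
      exact hj'.2
    · intro j hj k hk hjk
      have hj1 := Finset.mem_Icc.mp (Finset.mem_filter.mp (Finset.mem_coe.mp hj)).1
      have hk1 := Finset.mem_Icc.mp (Finset.mem_filter.mp (Finset.mem_coe.mp hk)).1
      have h6 : j - 1 = k - 1 := hjk
      omega
  have h2 := count_le (q := p) hp.pos R (V + 1)
  have h3 : (((Icc 1 R).filter (fun j => p ∣ gg (V + j))).card : ℝ) ≤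
      (((range R).filter (fun j => p ∣ gg (j + (V + 1)))).card : ℝ) := by exact_mod_cast h1
  linarith

theorem a1_sum_ap (R X p : ℕ) :
    ∑ V ∈ range X, ap R p V =
      ∑ j ∈ Icc 1 R, (((range X).filter (fun V => p ∣ gg (V + j))).card : ℝ) := by
  unfold ap
  simp only [Finset.card_filter, Nat.cast_sum]
  rw [Finset.sum_comm]

/-- [AA-A1] swap the sums over `V` and `j` (`Finset.card_eq_sum_ones`, `Finset.sum_comm`), then `count_le`. -/
theorem sum_ap_le {p : ℕ} (hp : p.Prime) (R X : ℕ) :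
    ∑ V ∈ range X, ap R p V ≤ R * ((X : ℝ) / p + 1) := by
  rw [a1_sum_ap]
  calc ∑ j ∈ Icc 1 R, (((range X).filter (fun V => p ∣ gg (V + j))).card : ℝ)
      ≤ ∑ _j ∈ Icc 1 R, ((X : ℝ) / p + 1) := Finset.sum_le_sum (fun j _ => count_le hp.pos X j)
    _ = R * ((X : ℝ) / p + 1) := by simp; ring

/-- [AA-A1] -/
theorem sum_ap_ge {p : ℕ} (hp : p.Prime) (h7 : 7 < p) (R X : ℕ) :
    R * ((X : ℝ) / p - 1) ≤ ∑ V ∈ range X, ap R p V := by
  rw [a1_sum_ap]
  calc (R : ℝ) * ((X : ℝ) / p - 1) = ∑ _j ∈ Icc 1 R, ((X : ℝ) / p - 1) := by simp; ring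
    _ ≤ ∑ j ∈ Icc 1 R, (((range X).filter (fun V => p ∣ gg (V + j))).card : ℝ) :=
      Finset.sum_le_sum (fun j _ => count_ge hp h7 X j)

/-- [AA-A1] `ap R p V * ap R q V` is the number of pairs `(j, j')`; `count_two`. -/
theorem sum_ap_mul_le {p q : ℕ} (hp : p.Prime) (hq : q.Prime) (hpq : p ≠ q) (R X : ℕ) :
    ∑ V ∈ range X, ap R p V * ap R q V ≤ (R : ℝ) ^ 2 * ((X : ℝ) / (p * q) + 1) := by
  have h1 : ∀ V, ap R p V * ap R q V =
      ∑ j ∈ Icc 1 R, ∑ j' ∈ Icc 1 R, (if p ∣ gg (V + j) ∧ q ∣ gg (V + j') then (1 : ℝ) else 0) := by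
    intro V
    unfold ap
    simp only [Finset.card_filter, Nat.cast_sum]
    rw [Finset.sum_mul_sum]
    refine Finset.sum_congr rfl (fun j _ => Finset.sum_congr rfl (fun j' _ => ?_))
    by_cases ha : p ∣ gg (V + j) <;> by_cases hb : q ∣ gg (V + j') <;> simp [ha, hb]
  have h2 : ∑ V ∈ range X, ap R p V * ap R q V =
      ∑ j ∈ Icc 1 R, ∑ j' ∈ Icc 1 R,
        (((range X).filter (fun V => p ∣ gg (V + j) ∧ q ∣ gg (V + j'))).card : ℝ) := by
    simp only [h1]
    rw [Finset.sum_comm]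
    refine Finset.sum_congr rfl (fun j _ => ?_)
    rw [Finset.sum_comm]
    refine Finset.sum_congr rfl (fun j' _ => ?_)
    simp only [Finset.card_filter, Nat.cast_sum]
    refine Finset.sum_congr rfl (fun V _ => ?_)
    by_cases ha : p ∣ gg (V + j) ∧ q ∣ gg (V + j')
    · simp only [if_pos ha]; simp
    · simp only [if_neg ha]; simp
  rw [h2]
  calc ∑ j ∈ Icc 1 R, ∑ j' ∈ Icc 1 R,
        (((range X).filter (fun V => p ∣ gg (V + j) ∧ q ∣ gg (V + j'))).card : ℝ)
      ≤ ∑ _j ∈ Icc 1 R, ∑ _j' ∈ Icc 1 R, ((X : ℝ) / (p * q) + 1) :=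
        Finset.sum_le_sum (fun j _ => Finset.sum_le_sum (fun j' _ => count_two hp hq hpq X j j'))
    _ = (R : ℝ) ^ 2 * ((X : ℝ) / (p * q) + 1) := by
      simp only [Finset.sum_const, Nat.card_Icc, nsmul_eq_mul]
      simp
      ring

end AA
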