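import Pool.Agent.AA.A1

set_option autoImplicit false

open Finset
open scoped Classical

namespace AA

theorem a2_expand (R p q X : ℕ) :
    ∑ V ∈ range X, (ap R p V - R / p) * (ap R q V - R / q) =
      ∑ V ∈ range X, ap R p V * ap R q V - (R : ℝ) / q * ∑ V ∈ range X, ap R p V -
        (R : ℝ) / p * ∑ V ∈ range X, ap R q V + X * ((R : ℝ) / p * (R / q)) := by
  have h : ∀ V, (ap R p V - R / p) * (ap R q V - R / q) =
      ap R p V * ap R q V - (R : ℝ) / q * ap R p V - (R : ℝ) / p * ap R q V +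
        (R : ℝ) / p * (R / q) := by
    intro V
    ring
  simp_rw [h]
  rw [Finset.sum_add_distrib, Finset.sum_sub_distrib, Finset.sum_sub_distrib, ← Finset.mul_sum,
    ← Finset.mul_sum, Finset.sum_const, Finset.card_range, nsmul_eq_mul]

theorem a2_mem {z p : ℕ} (h : p ∈ PR z) : p.Prime ∧ 7 < p := by
  unfold PR at h
  rw [Finset.mem_filter, Finset.mem_Icc] at h
  exact ⟨h.2, by omega⟩

/-- [AA-A2] swap of the sums over `j` and `p`. -/
theorem SS_eq (z R V : ℕ) : SS z R V = ∑ p ∈ PR z, Real.log p * ap R p V := by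
  unfold SS sl ap
  simp_rw [Finset.sum_filter]
  rw [Finset.sum_comm]
  apply Finset.sum_congr rfl
  intro p _
  rw [← Finset.sum_filter, Finset.sum_const, nsmul_eq_mul, mul_comm]

/-- [AA-A2] off-diagonal terms. PROOF. Expand the product: `∑ a b - (R/q) ∑ a - (R/p) ∑ b + X R²/(p q) ≤ R² (X/(pq) + 1) - (R/q) R (X/p - 1) - (R/p) R (X/q - 1) + X R²/(pq) = R² (1 + 1/p + 1/q) ≤ 3 R²` (`sum_ap_mul_le`, `sum_ap_ge` for `p` and `q`). -/
theorem cov_ne {p q : ℕ} (hp : p.Prime) (hq : q.Prime) (hp7 : 7 < p) (hq7 : 7 < q) (hpq : p ≠ q)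
    (R X : ℕ) :
    ∑ V ∈ range X, (ap R p V - R / p) * (ap R q V - R / q) ≤ 3 * (R : ℝ) ^ 2 := by
  have h1 := sum_ap_mul_le hp hq hpq R X
  have h2 := sum_ap_ge hp hp7 R X
  have h3 := sum_ap_ge hq hq7 R X
  have e := a2_expand R p q X
  rw [e]
  have hp0 : (0 : ℝ) < p := by exact_mod_cast hp.pos
  have hq0 : (0 : ℝ) < q := by exact_mod_cast hq.pos
  have hp1 : (1 : ℝ) / p ≤ 1 := by
    rw [div_le_one hp0]
    exact_mod_cast hp.one_lt.le
  have hq1 : (1 : ℝ) / q ≤ 1 := by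
    rw [div_le_one hq0]
    exact_mod_cast hq.one_lt.le
  have hR0 : (0 : ℝ) ≤ (R : ℝ) := Nat.cast_nonneg _
  have h4 : (R : ℝ) / q * (R * ((X : ℝ) / p - 1)) ≤ (R : ℝ) / q * ∑ V ∈ range X, ap R p V :=
    mul_le_mul_of_nonneg_left h2 (by positivity)
  have h5 : (R : ℝ) / p * (R * ((X : ℝ) / q - 1)) ≤ (R : ℝ) / p * ∑ V ∈ range X, ap R q V :=
    mul_le_mul_of_nonneg_left h3 (by positivity)
  have h6 : (R : ℝ) ^ 2 * ((X : ℝ) / (p * q) + 1) - (R : ℝ) / q * (R * ((X : ℝ) / p - 1)) -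
      (R : ℝ) / p * (R * ((X : ℝ) / q - 1)) + X * ((R : ℝ) / p * (R / q)) =
      (R : ℝ) ^ 2 * (1 + 1 / p + 1 / q) := by
    field_simp
    ring
  have h7 : (R : ℝ) ^ 2 * (1 + 1 / p + 1 / q) ≤ 3 * (R : ℝ) ^ 2 := by
    have : (0 : ℝ) ≤ (R : ℝ) ^ 2 := by positivity
    nlinarith
  linarith

/-- [AA-A2] diagonal terms. PROOF. `a² ≤ (R/p + 1) a` (`ap_le`, `a ≥ 0`), so `∑ (a - R/p)² ≤ (1 - R/p) ∑ a + X R²/p²`. If `R ≤ p` use `∑ a ≤ R (X/p + 1)`: the bound is `RX/p + R - R²/p ≤ RX/p + R`. If `R > p` the factor `1 - R/p` is negative, use `∑ a ≥ R (X/p - 1)`: the bound is `RX/p - R + R²/p ≤ RX/p + R²`. (If `R = 0` both sides are `0`; for `R ≥ 1`, `R ≤ R²`.) -/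
theorem cov_eq {p : ℕ} (hp : p.Prime) (hp7 : 7 < p) (R X : ℕ) :
    ∑ V ∈ range X, (ap R p V - R / p) * (ap R p V - R / p) ≤ R * X / p + (R : ℝ) ^ 2 := by
  have hp0 : (0 : ℝ) < p := by exact_mod_cast hp.pos
  have hR0 : (0 : ℝ) ≤ (R : ℝ) := Nat.cast_nonneg _
  have hX0 : (0 : ℝ) ≤ (X : ℝ) := Nat.cast_nonneg _
  have e := a2_expand R p p X
  rw [e]
  have ha : ∑ V ∈ range X, ap R p V * ap R p V ≤ ((R : ℝ) / p + 1) * ∑ V ∈ range X, ap R p V := by
    rw [Finset.mul_sum]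
    apply Finset.sum_le_sum
    intro V _
    exact mul_le_mul_of_nonneg_right (ap_le hp R V) (by unfold ap; positivity)
  have hRR : (R : ℝ) ≤ (R : ℝ) ^ 2 := by
    rcases Nat.eq_zero_or_pos R with h | h
    · subst h
      simp
    · have : (1 : ℝ) ≤ R := by exact_mod_cast h
      nlinarith
  set S := ∑ V ∈ range X, ap R p V with hS
  have h1 : ∑ V ∈ range X, ap R p V * ap R p V - (R : ℝ) / p * S - (R : ℝ) / p * S +
      X * ((R : ℝ) / p * (R / p)) ≤ (1 - (R : ℝ) / p) * S + X * ((R : ℝ) / p * (R / p)) := by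
    nlinarith
  refine h1.trans ?_
  rcases le_or_gt R p with h | h
  · have h2 : (R : ℝ) / p ≤ 1 := by
      rw [div_le_one hp0]
      exact_mod_cast h
    have h3 := sum_ap_le hp R X
    have h4 : (1 - (R : ℝ) / p) * S ≤ (1 - (R : ℝ) / p) * (R * ((X : ℝ) / p + 1)) :=
      mul_le_mul_of_nonneg_left h3 (by linarith)
    have h5 : (1 - (R : ℝ) / p) * (R * ((X : ℝ) / p + 1)) + X * ((R : ℝ) / p * (R / p)) =
        R * X / p + R - R ^ 2 / p := by
      field_simp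
      ring
    have h6 : (0 : ℝ) ≤ (R : ℝ) ^ 2 / p := by positivity
    linarith
  · have h2 : 1 ≤ (R : ℝ) / p := by
      rw [le_div_iff₀ hp0, one_mul]
      exact_mod_cast h.le
    have h3 := sum_ap_ge hp hp7 R X
    have h4 : (1 - (R : ℝ) / p) * S ≤ (1 - (R : ℝ) / p) * (R * ((X : ℝ) / p - 1)) :=
      mul_le_mul_of_nonpos_left h3 (by linarith)
    have h5 : (1 - (R : ℝ) / p) * (R * ((X : ℝ) / p - 1)) + X * ((R : ℝ) / p * (R / p)) =
        R * X / p - R + R ^ 2 / p := by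
      field_simp
      ring
    have h6 : (R : ℝ) ^ 2 / p ≤ (R : ℝ) ^ 2 := by
      apply div_le_self (by positivity)
      exact_mod_cast hp.one_lt.le
    linarith

/-- [AA-A2] the variance. PROOF. `SS z R V - R mu z = ∑_p log p (a_p(V) - R/p)` (`SS_eq`); expand the square (`Finset.sum_mul_sum`), swap the sums: `∑_{p,q} log p log q C(p,q)` with `C(p,q) ≤ 3 R²` for `p ≠ q` and `C(p,p) ≤ R X/p + R² ≤ R X / p + 3 R²`, i.e. `C(p,q) ≤ 3 R² + (if p = q then R X/p else 0)`; `log p log q ≥ 0`. -/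
theorem variance (z R X : ℕ) :
    ∑ V ∈ range X, (SS z R V - R * mu z) ^ 2 ≤
      3 * (R : ℝ) ^ 2 * th z ^ 2 + R * X * ∑ p ∈ PR z, (Real.log p) ^ 2 / p := by
  have hR0 : (0 : ℝ) ≤ (R : ℝ) := Nat.cast_nonneg _
  have e1 : ∀ V, SS z R V - R * mu z = ∑ p ∈ PR z, Real.log p * (ap R p V - R / p) := by
    intro V
    rw [SS_eq]
    unfold mu
    rw [Finset.mul_sum, ← Finset.sum_sub_distrib]
    apply Finset.sum_congr rfl
    intro p _
    ring
  have e2 : ∀ V, (SS z R V - R * mu z) ^ 2 = ∑ p ∈ PR z, ∑ q ∈ PR z,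
      Real.log p * Real.log q * ((ap R p V - R / p) * (ap R q V - R / q)) := by
    intro V
    rw [e1, sq, Finset.sum_mul_sum]
    apply Finset.sum_congr rfl
    intro p _
    apply Finset.sum_congr rfl
    intro q _
    ring
  simp_rw [e2]
  rw [Finset.sum_comm]
  have e3 : ∀ p ∈ PR z, ∑ V ∈ range X, ∑ q ∈ PR z,
      Real.log p * Real.log q * ((ap R p V - R / p) * (ap R q V - R / q)) ≤
      ∑ q ∈ PR z, Real.log p * Real.log q * (3 * (R : ℝ) ^ 2 + if p = q then (R : ℝ) * X / p else 0) := by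
    intro p hp
    rw [Finset.sum_comm]
    apply Finset.sum_le_sum
    intro q hq
    rw [← Finset.mul_sum]
    have hp' := a2_mem hp
    have hq' := a2_mem hq
    apply mul_le_mul_of_nonneg_left _ (mul_nonneg (Real.log_natCast_nonneg _) (Real.log_natCast_nonneg _))
    by_cases hpq : p = q
    · subst hpq
      rw [if_pos rfl]
      have := cov_eq hp'.1 hp'.2 R X
      have h2 : (0 : ℝ) ≤ (R : ℝ) ^ 2 := by positivity
      linarith
    · rw [if_neg hpq, add_zero]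
      exact cov_ne hp'.1 hq'.1 hp'.2 hq'.2 hpq R X
  refine (Finset.sum_le_sum e3).trans (le_of_eq ?_)
  have e4 : ∀ p ∈ PR z, ∑ q ∈ PR z, Real.log p * Real.log q *
      (3 * (R : ℝ) ^ 2 + if p = q then (R : ℝ) * X / p else 0) =
      3 * (R : ℝ) ^ 2 * (Real.log p * th z) + R * X * ((Real.log p) ^ 2 / p) := by
    intro p hp
    simp_rw [mul_add]
    rw [Finset.sum_add_distrib]
    congr 1
    · unfold th
      rw [Finset.mul_sum, Finset.mul_sum]
      apply Finset.sum_congr rfl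
      intro q _
      ring
    · rw [Finset.sum_eq_single p]
      · rw [if_pos rfl]
        ring
      · intro q _ hq
        rw [if_neg (Ne.symm hq), mul_zero]
      · intro h
        exact absurd hp h
  rw [Finset.sum_congr rfl e4, Finset.sum_add_distrib, ← Finset.mul_sum, ← Finset.mul_sum,
    ← Finset.sum_mul]
  unfold th
  ring

end AA
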