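import Pool.Agent.AA.A0

set_option autoImplicit false

open Finset
open scoped Classical

namespace AA

theorem a3_mem {z p : ℕ} (h : p ∈ PR z) : 8 ≤ p ∧ p ≤ z ∧ p.Prime := by
  rw [PR, mem_filter, mem_Icc] at h
  exact ⟨h.1.1, h.1.2, h.2⟩

theorem a3_log_nonneg (p : ℕ) : 0 ≤ Real.log (p : ℝ) := Real.log_natCast_nonneg p

theorem a3_PR_subset (z : ℕ) : PR z ⊆ Nat.primesLE z := by
  intro p hp
  obtain ⟨_, h2, h3⟩ := a3_mem hp
  exact Nat.mem_primesLE.mpr ⟨h2, h3⟩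

theorem a3_log4 : Real.log 4 ≤ 2 := by
  have h : Real.log 4 = 2 * Real.log 2 := by
    rw [show (4 : ℝ) = 2 ^ 2 by norm_num, Real.log_pow]
    norm_num
  rw [h]
  have := Real.log_two_lt_d9
  linarith

/-- [AA-A3] PROOF. `PR z` is a set of primes `≤ z`; `Chebyshev.theta_le_log4_mul_x` (θ(x) ≤ log 4 · x, log 4 < 2), or `primorial_le_four_pow`: `∏ p ≤ 4^z`. -/
theorem th_le (z : ℕ) : th z ≤ 2 * z := by
  have h1 : th z ≤ Chebyshev.theta (z : ℝ) := by
    rw [Chebyshev.theta_eq_sum_primesLE_log]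
    unfold th
    exact Finset.sum_le_sum_of_subset_of_nonneg (a3_PR_subset z)
      (fun p _ _ => a3_log_nonneg p)
  have h2 : Chebyshev.theta (z : ℝ) ≤ Real.log 4 * z :=
    Chebyshev.theta_le_log4_mul_x (Nat.cast_nonneg z)
  have h3 : Real.log 4 * (z : ℝ) ≤ 2 * z :=
    mul_le_mul_of_nonneg_right a3_log4 (Nat.cast_nonneg z)
  linarith

theorem th_nonneg (z : ℕ) : 0 ≤ th z :=
  Finset.sum_nonneg fun p _ => a3_log_nonneg p

/-- [AA-A3] PROOF. `mu z ≤ mA z ≤ log z + 2` (`Pool.Agent.Lib.helper94.ANT.mA_bounds`, `Nat.primesLE`). -/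
theorem mu_le {z : ℕ} (hz : 1 ≤ z) : mu z ≤ Real.log z + 2 := by
  have h1 : mu z ≤ Pool.Agent.Lib.helper94.ANT.mA z := by
    unfold mu Pool.Agent.Lib.helper94.ANT.mA
    exact Finset.sum_le_sum_of_subset_of_nonneg (a3_PR_subset z)
      (fun p _ _ => div_nonneg (a3_log_nonneg p) (Nat.cast_nonneg p))
  have h2 := (Pool.Agent.Lib.helper94.ANT.mA_bounds hz).2
  linarith

theorem a3_half {p : ℕ} (hp : p ∈ ({2, 3, 5, 7} : Finset ℕ)) :
    Real.log (p : ℝ) / p ≤ 1 / 2 := by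
  have hp0 : 0 < p := by
    rcases Nat.eq_zero_or_pos p with h | h
    · subst h
      simp at hp
    · exact h
  have hp0' : (0 : ℝ) < p := by exact_mod_cast hp0
  have h1 : Real.log ((p : ℝ) / 2) ≤ (p : ℝ) / 2 - 1 := by
    apply Real.log_le_sub_one_of_pos
    positivity
  have h2 : Real.log ((p : ℝ) / 2) = Real.log p - Real.log 2 :=
    Real.log_div (ne_of_gt hp0') (by norm_num)
  have h3 := Real.log_two_lt_d9
  rw [div_le_iff₀ hp0']
  linarith

/-- [AA-A3] PROOF. `mA z ≤ mu z + ∑_{p ∈ {2,3,5,7}} log p / p` and the four terms are together `≤ 2` (`log p / p ≤ 1/2`, e.g. by `Real.log_le_sub_one_of_pos` applied to `p/2` or `log p ≤ p/2`); `mA z ≥ log z - 3`. -/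
theorem le_mu {z : ℕ} (hz : 1 ≤ z) : Real.log z - 5 ≤ mu z := by
  have hsub : Nat.primesLE z ⊆ ({2, 3, 5, 7} : Finset ℕ) ∪ PR z := by
    intro p hp
    obtain ⟨h1, h2⟩ := Nat.mem_primesLE.mp hp
    rw [mem_union]
    by_cases h8 : 8 ≤ p
    · right
      rw [PR, mem_filter, mem_Icc]
      exact ⟨⟨h8, h1⟩, h2⟩
    · left
      have h7 : p < 8 := by omega
      interval_cases p <;> first | decide | (exfalso; revert h2; decide)
  have hdis : Disjoint ({2, 3, 5, 7} : Finset ℕ) (PR z) := by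
    rw [Finset.disjoint_left]
    intro p hp hq
    have h8 := (a3_mem hq).1
    have h9 : p = 2 ∨ p = 3 ∨ p = 5 ∨ p = 7 := by simpa using hp
    omega
  have h1 : Pool.Agent.Lib.helper94.ANT.mA z ≤
      ∑ p ∈ ({2, 3, 5, 7} : Finset ℕ) ∪ PR z, Real.log p / p := by
    unfold Pool.Agent.Lib.helper94.ANT.mA
    exact Finset.sum_le_sum_of_subset_of_nonneg hsub
      (fun p _ _ => div_nonneg (a3_log_nonneg p) (Nat.cast_nonneg p))
  rw [Finset.sum_union hdis] at h1
  have h2 : ∑ p ∈ ({2, 3, 5, 7} : Finset ℕ), Real.log (p : ℝ) / p ≤ 2 := by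
    calc ∑ p ∈ ({2, 3, 5, 7} : Finset ℕ), Real.log (p : ℝ) / p
        ≤ ∑ _p ∈ ({2, 3, 5, 7} : Finset ℕ), (1 / 2 : ℝ) :=
          Finset.sum_le_sum fun p hp => a3_half hp
      _ = 2 := by
          rw [Finset.sum_const]
          norm_num
  have h3 := (Pool.Agent.Lib.helper94.ANT.mA_bounds hz).1
  have h4 : mu z = ∑ p ∈ PR z, Real.log (p : ℝ) / p := rfl
  rw [h4]
  linarith

/-- [AA-A3] `log p ≤ log z`. -/
theorem sum_sq_le (z : ℕ) : ∑ p ∈ PR z, (Real.log p) ^ 2 / p ≤ Real.log z * mu z := by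
  unfold mu
  rw [Finset.mul_sum]
  apply Finset.sum_le_sum
  intro p hp
  obtain ⟨h1, h2, _⟩ := a3_mem hp
  have hp0 : (0 : ℝ) < p := by exact_mod_cast (by omega : 0 < p)
  have h3 : Real.log (p : ℝ) ≤ Real.log z :=
    Real.log_le_log hp0 (by exact_mod_cast h2)
  have h4 : (Real.log (p : ℝ)) ^ 2 / p = Real.log p * (Real.log p / p) := by ring
  rw [h4]
  exact mul_le_mul_of_nonneg_right h3 (div_nonneg (a3_log_nonneg p) hp0.le)

theorem a3_PR_mono {z Y : ℕ} (h : z ≤ Y) : PR z ⊆ PR Y := by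
  intro p hp
  obtain ⟨h1, h2, h3⟩ := a3_mem hp
  rw [PR, mem_filter, mem_Icc]
  exact ⟨⟨h1, h2.trans h⟩, h3⟩

/-- [AA-A3] `sl` is monotone in `z`. -/
theorem sl_mono {z Y : ℕ} (h : z ≤ Y) (m : ℕ) : sl z m ≤ sl Y m := by
  unfold sl
  exact Finset.sum_le_sum_of_subset_of_nonneg
    (Finset.filter_subset_filter _ (a3_PR_mono h)) (fun p _ _ => a3_log_nonneg p)

theorem sl_nonneg (z m : ℕ) : 0 ≤ sl z m :=
  Finset.sum_nonneg fun p _ => a3_log_nonneg p

theorem a3_fac {m p : ℕ} (hp : p ∈ m.primeFactors) : 1 ≤ m.factorization p := by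
  have h1 : p.Prime := Nat.prime_of_mem_primeFactors hp
  have h2 : p ∣ m := Nat.dvd_of_mem_primeFactors hp
  have h3 : m ≠ 0 := (Nat.mem_primeFactors.mp hp).2.2
  exact (h1.dvd_iff_one_le_factorization h3).mp h2

theorem pw_nonneg (m : ℕ) : 0 ≤ pw m := by
  unfold pw
  apply Finset.sum_nonneg
  intro p hp
  apply mul_nonneg _ (a3_log_nonneg p)
  have h : (1 : ℝ) ≤ (m.factorization p : ℝ) := by exact_mod_cast a3_fac hp
  linarith

theorem a3_log_sum {m : ℕ} (hm : m ≠ 0) :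
    Real.log (m : ℝ) = ∑ p ∈ m.primeFactors, (m.factorization p : ℝ) * Real.log p := by
  have h1 : (m : ℝ) = ∏ p ∈ m.primeFactors, (p : ℝ) ^ (m.factorization p) := by
    conv_lhs => rw [← Nat.prod_factorization_pow_eq_self hm]
    rw [Finsupp.prod, Nat.support_factorization]
    push_cast
    rfl
  conv_lhs => rw [h1]
  rw [Real.log_prod]
  · apply Finset.sum_congr rfl
    intro p _
    rw [Real.log_pow]
  · intro p hp
    have : (p : ℝ) ≠ 0 := by exact_mod_cast (Nat.prime_of_mem_primeFactors hp).ne_zero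
    exact pow_ne_zero _ this

theorem a3_big {w p : ℕ} (hp : p.Prime) (hd : p ∣ gg w) : 8 ≤ p := by
  by_contra h
  push Not at h
  have h2 := hp.two_le
  have h210 : p ∣ 210 := by
    interval_cases p
    · decide
    · decide
    · exact absurd hp (by decide)
    · decide
    · exact absurd hp (by decide)
    · decide
  have h1 : p ∣ 1 := by
    have h3 : p ∣ 210 * w := Dvd.dvd.mul_right h210 w
    have h4 : p ∣ 210 * w + 1 := hd
    exact (Nat.dvd_add_right h3).mp h4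
  exact hp.one_lt.ne' (Nat.dvd_one.mp h1)

/-- [AA-A3] the decomposition of `log m`. PROOF. `log m = ∑_{p ∣ m} v_p(m) log p` (`Nat.factorization_prod_pow_eq_self`, `Real.log_prod`), all prime factors of `m = gg w` are `> 7` (`m` is coprime to `210`) and `≤ Y`, so `m.primeFactors = (PR Y).filter (· ∣ m)`, and `v_p = 1 + (v_p - 1)`. -/
theorem log_eq {Y w : ℕ} (h : ∀ p : ℕ, p.Prime → p ∣ gg w → p ≤ Y) :
    Real.log (gg w) = sl Y (gg w) + pw (gg w) := by
  have hm : gg w ≠ 0 := by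
    unfold gg
    omega
  have hset : (PR Y).filter (fun p => p ∣ gg w) = (gg w).primeFactors := by
    ext p
    rw [mem_filter, Nat.mem_primeFactors]
    constructor
    · rintro ⟨h1, h2⟩
      exact ⟨(a3_mem h1).2.2, h2, hm⟩
    · rintro ⟨h1, h2, _⟩
      refine ⟨?_, h2⟩
      rw [PR, mem_filter, mem_Icc]
      exact ⟨⟨a3_big h1 h2, h p h1 h2⟩, h1⟩
  rw [a3_log_sum hm]
  unfold sl pw
  rw [hset, ← Finset.sum_add_distrib]
  apply Finset.sum_congr rfl
  intro p _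
  ring

end AA
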