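import Pool.Agent.AA.A2
import Pool.Agent.AA.A3

set_option autoImplicit false

open Finset
open scoped Classical

namespace AA

/-- [AA-A4] Chebyshev's inequality. PROOF. For `V ∈ BV`: `(SS - R mu)² ≥ (δ R log z)²`; sum over `BV ⊆ range X` and use `variance`, `th_le`, `sum_sq_le`, `mu_le`. -/
theorem BV_card_mul {z R X : ℕ} (hz : 1 ≤ z) {δ : ℝ} (hδ : 0 < δ) :
    ((BV z R X δ).card : ℝ) * (δ * R * Real.log z) ^ 2 ≤
      12 * (R : ℝ) ^ 2 * (z : ℝ) ^ 2 + R * X * (Real.log z * (Real.log z + 2)) := by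
  have hL : 0 ≤ Real.log z := Real.log_nonneg (by exact_mod_cast hz)
  have hR0 : (0 : ℝ) ≤ R := Nat.cast_nonneg R
  have hX0 : (0 : ℝ) ≤ X := Nat.cast_nonneg X
  have h1 : ((BV z R X δ).card : ℝ) * (δ * R * Real.log z) ^ 2 ≤
      ∑ V ∈ BV z R X δ, (SS z R V - R * mu z) ^ 2 := by
    rw [← nsmul_eq_mul, ← Finset.sum_const]
    refine Finset.sum_le_sum fun V hV => ?_
    have h2 := (Finset.mem_filter.1 hV).2
    have h3 : 0 ≤ δ * R * Real.log z := by positivity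
    exact pow_le_pow_left₀ h3 (by linarith) 2
  have h2 : ∑ V ∈ BV z R X δ, (SS z R V - R * mu z) ^ 2 ≤ ∑ V ∈ range X, (SS z R V - R * mu z) ^ 2 :=
    Finset.sum_le_sum_of_subset_of_nonneg (Finset.filter_subset _ _) fun V _ _ => sq_nonneg _
  have h3 := variance z R X
  have h4 : th z ^ 2 ≤ (2 * z) ^ 2 := pow_le_pow_left₀ (th_nonneg z) (th_le z) 2
  have h5 : ∑ p ∈ PR z, (Real.log p) ^ 2 / p ≤ Real.log z * (Real.log z + 2) :=
    (sum_sq_le z).trans (mul_le_mul_of_nonneg_left (mu_le hz) hL)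
  have h6 : 3 * (R : ℝ) ^ 2 * th z ^ 2 ≤ 3 * (R : ℝ) ^ 2 * (2 * z) ^ 2 :=
    mul_le_mul_of_nonneg_left h4 (by positivity)
  have h7 : (R : ℝ) * X * ∑ p ∈ PR z, (Real.log p) ^ 2 / p ≤
      R * X * (Real.log z * (Real.log z + 2)) := mul_le_mul_of_nonneg_left h5 (by positivity)
  nlinarith

/-- [AA-A4] the first exceptional set is small. PROOF. Divide `BV_card_mul` by `(δ R log z)²`: `card ≤ 12 z²/(δ² log² z) + X (1 + 2/log z)/(δ² R)`. With `z = ⌊N^(1/2-η)⌋₊`: `z² ≤ N^(1-2η) = o(N)`, `log z → ∞`, so for large `N` the first term is `≤ ε N/2`; the second is `≤ 2 X/(δ² R) ≤ (ε/2) X` (by `hR`) and `X = N/210 + 1 ≤ N`. -/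
theorem BV_small {δ η ε : ℝ} (hδ : 0 < δ) (hη : 0 < η) (hη1 : η ≤ 1 / 4) (hε : 0 < ε) {R : ℕ}
    (hR : 4 ≤ δ ^ 2 * ε * R) :
    ∃ N₀ : ℕ, ∀ N : ℕ, N₀ ≤ N →
      ((BV ⌊(N : ℝ) ^ (1 / 2 - η)⌋₊ R (N / 210 + 1) δ).card : ℝ) ≤ ε * N := by
  have hR0 : (0 : ℝ) < R := by
    rcases Nat.eq_zero_or_pos R with h | h
    · rw [h, Nat.cast_zero, mul_zero] at hR
      linarith
    · exact_mod_cast h
  have ht : Filter.Tendsto (fun N : ℕ => (N : ℝ) ^ (2 * η)) Filter.atTop Filter.atTop :=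
    (tendsto_rpow_atTop (by positivity)).comp tendsto_natCast_atTop_atTop
  obtain ⟨N1, hN1⟩ := Filter.eventually_atTop.1 (ht.eventually_ge_atTop (6 / (δ ^ 2 * ε)))
  refine ⟨max N1 4096, fun N hN => ?_⟩
  have hNa := hN1 N (le_of_max_le_left hN)
  have hNb : 4096 ≤ N := le_of_max_le_right hN
  have hNb' : (4096 : ℝ) ≤ N := by exact_mod_cast hNb
  have hN0 : (0 : ℝ) < N := by linarith
  have hN1' : (1 : ℝ) ≤ N := by linarith
  -- the number `z`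
  have hy : (8 : ℝ) ≤ (N : ℝ) ^ (1 / 2 - η) := by
    have h1 : (N : ℝ) ^ ((1 : ℝ) / 4) ≤ (N : ℝ) ^ (1 / 2 - η) :=
      Real.rpow_le_rpow_of_exponent_le hN1' (by linarith)
    have h2 : ((4096 : ℝ)) ^ ((1 : ℝ) / 4) ≤ (N : ℝ) ^ ((1 : ℝ) / 4) :=
      Real.rpow_le_rpow (by norm_num) hNb' (by norm_num)
    have h3 : ((4096 : ℝ)) ^ ((1 : ℝ) / 4) = 8 := by
      have h4 : (4096 : ℝ) = 8 ^ (4 : ℝ) := by norm_num
      rw [h4, ← Real.rpow_mul (by norm_num)]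
      norm_num
    linarith
  obtain ⟨z, hzd⟩ : ∃ z : ℕ, z = ⌊(N : ℝ) ^ (1 / 2 - η)⌋₊ := ⟨_, rfl⟩
  rw [← hzd]
  have hz8 : 8 ≤ z := by
    rw [hzd]
    exact Nat.le_floor (by exact_mod_cast hy)
  have hzle : (z : ℝ) ≤ (N : ℝ) ^ (1 / 2 - η) := by
    rw [hzd]
    exact Nat.floor_le (by linarith)
  have hz0 : (0 : ℝ) ≤ z := Nat.cast_nonneg z
  have hL : 2 ≤ Real.log z := by
    have h1 : Real.log 8 ≤ Real.log z := Real.log_le_log (by norm_num) (by exact_mod_cast hz8)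
    have h2 : Real.log 8 = 3 * Real.log 2 := by
      have h3 : (8 : ℝ) = 2 ^ 3 := by norm_num
      rw [h3, Real.log_pow]
      norm_num
    have h3 := Real.log_two_gt_d9
    linarith
  have hz2 : (z : ℝ) ^ 2 * (N : ℝ) ^ (2 * η) ≤ N := by
    have h1 : (z : ℝ) ^ 2 ≤ ((N : ℝ) ^ (1 / 2 - η)) ^ 2 := pow_le_pow_left₀ hz0 hzle 2
    have h2 : ((N : ℝ) ^ (1 / 2 - η)) ^ 2 * (N : ℝ) ^ (2 * η) = N := by
      rw [← Real.rpow_natCast, ← Real.rpow_mul hN0.le, ← Real.rpow_add hN0]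
      have h3 : (1 / 2 - η) * ((2 : ℕ) : ℝ) + 2 * η = 1 := by
        push_cast
        ring
      rw [h3, Real.rpow_one]
    have h3 : 0 ≤ (N : ℝ) ^ (2 * η) := by positivity
    calc (z : ℝ) ^ 2 * (N : ℝ) ^ (2 * η) ≤ ((N : ℝ) ^ (1 / 2 - η)) ^ 2 * (N : ℝ) ^ (2 * η) :=
          mul_le_mul_of_nonneg_right h1 h3
      _ = N := h2
  have hz3 : 6 * (z : ℝ) ^ 2 ≤ δ ^ 2 * ε * N := by
    have h1 : (z : ℝ) ^ 2 * (6 / (δ ^ 2 * ε)) ≤ N :=
      (mul_le_mul_of_nonneg_left hNa (by positivity)).trans hz2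
    have h2 : 0 < δ ^ 2 * ε := by positivity
    rw [← mul_div_assoc, div_le_iff₀ h2] at h1
    linarith
  have hX : ((N / 210 + 1 : ℕ) : ℝ) ≤ N := by
    have h1 : N / 210 + 1 ≤ N := by omega
    exact_mod_cast h1
  have hmain := BV_card_mul (z := z) (R := R) (X := N / 210 + 1) (by omega) hδ
  generalize Real.log z = L at hL hmain
  generalize ((N / 210 + 1 : ℕ) : ℝ) = Y at hX hmain
  have hD : 0 < (δ * R * L) ^ 2 := by
    have : 0 < L := by linarith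
    positivity
  have hL4 : 4 ≤ L ^ 2 := by nlinarith
  have e1 : 12 * (R : ℝ) ^ 2 * (z : ℝ) ^ 2 ≤ ε * N / 2 * (δ * R * L) ^ 2 := by
    have h1 : 12 * (R : ℝ) ^ 2 * (z : ℝ) ^ 2 ≤ 2 * R ^ 2 * (δ ^ 2 * ε * N) := by
      have h2 : 0 ≤ 2 * (R : ℝ) ^ 2 := by positivity
      have h3 := mul_le_mul_of_nonneg_left hz3 h2
      linarith
    have h4 : 0 ≤ (R : ℝ) ^ 2 * (δ ^ 2 * ε * N) / 2 := by positivity
    have h5 := mul_le_mul_of_nonneg_left hL4 h4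
    calc 12 * (R : ℝ) ^ 2 * (z : ℝ) ^ 2 ≤ 2 * R ^ 2 * (δ ^ 2 * ε * N) := h1
      _ = (R : ℝ) ^ 2 * (δ ^ 2 * ε * N) / 2 * 4 := by ring
      _ ≤ (R : ℝ) ^ 2 * (δ ^ 2 * ε * N) / 2 * L ^ 2 := h5
      _ = ε * N / 2 * (δ * R * L) ^ 2 := by ring
  have e2 : (R : ℝ) * Y * (L * (L + 2)) ≤ ε * N / 2 * (δ * R * L) ^ 2 := by
    have hL0 : 0 ≤ L := by linarith
    have h1 : L * (L + 2) ≤ 2 * L ^ 2 := by nlinarith
    have h2 : (R : ℝ) * Y * (L * (L + 2)) ≤ R * N * (2 * L ^ 2) := by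
      have h3 : (R : ℝ) * Y ≤ R * N := mul_le_mul_of_nonneg_left hX hR0.le
      have h4 : 0 ≤ L * (L + 2) := by positivity
      have h5 : 0 ≤ (R : ℝ) * N := by positivity
      calc (R : ℝ) * Y * (L * (L + 2)) ≤ R * N * (L * (L + 2)) := mul_le_mul_of_nonneg_right h3 h4
        _ ≤ R * N * (2 * L ^ 2) := mul_le_mul_of_nonneg_left h1 h5
    have h6 : 0 ≤ (R : ℝ) * N * L ^ 2 / 2 := by positivity
    have h7 := mul_le_mul_of_nonneg_left hR h6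
    calc (R : ℝ) * Y * (L * (L + 2)) ≤ R * N * (2 * L ^ 2) := h2
      _ = (R : ℝ) * N * L ^ 2 / 2 * 4 := by ring
      _ ≤ (R : ℝ) * N * L ^ 2 / 2 * (δ ^ 2 * ε * R) := h7
      _ = ε * N / 2 * (δ * R * L) ^ 2 := by ring
  have e3 : ((BV z R (N / 210 + 1) δ).card : ℝ) * (δ * R * L) ^ 2 ≤ ε * N * (δ * R * L) ^ 2 := by
    have := hmain.trans (add_le_add e1 e2)
    linarith
  exact le_of_mul_le_mul_right e3 hD

end AA
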