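import Pool.Agent.AA.A1
import Pool.Agent.AA.A3

set_option autoImplicit false

open Finset
open scoped Classical

namespace AA

theorem a5_sub {z Y : ℕ} (h : z ≤ Y) : PR z ⊆ PR Y := by
  intro p hp
  rw [PR, mem_filter, mem_Icc] at hp ⊢
  exact ⟨⟨hp.1.1, hp.1.2.trans h⟩, hp.2⟩

theorem a5_diff {z Y : ℕ} (h : z ≤ Y) (m : ℕ) :
    sl Y m - sl z m = ∑ p ∈ PR Y \ PR z, if p ∣ m then Real.log p else 0 := by
  unfold sl
  rw [sum_filter, sum_filter, ← sum_sdiff (a5_sub h)]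
  ring

/-- [AA-A5] first moment of the primes in `(z, Y]`. PROOF. `sl Y m - sl z m = ∑_{p ∈ PR Y \ PR z, p ∣ m} log p` (`PR z ⊆ PR Y`); swap the sums and use `count_le`: `∑ ≤ R ∑_{p ∈ PR Y \ PR z} log p (X/p + 1) ≤ R (X (mu Y - mu z) + th Y)`. -/
theorem sum_mid_le {z Y : ℕ} (h : z ≤ Y) (R X : ℕ) :
    ∑ V ∈ range X, ∑ j ∈ Icc 1 R, (sl Y (gg (V + j)) - sl z (gg (V + j))) ≤
      R * (X * (mu Y - mu z) + th Y) := by
  have h1 : ∑ V ∈ range X, ∑ j ∈ Icc 1 R, (sl Y (gg (V + j)) - sl z (gg (V + j))) =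
      ∑ p ∈ PR Y \ PR z, ∑ j ∈ Icc 1 R,
        (((range X).filter (fun V => p ∣ gg (V + j))).card : ℝ) * Real.log p := by
    have e1 : ∀ V ∈ range X, ∑ j ∈ Icc 1 R, (sl Y (gg (V + j)) - sl z (gg (V + j))) =
        ∑ p ∈ PR Y \ PR z, ∑ j ∈ Icc 1 R, if p ∣ gg (V + j) then Real.log p else 0 := by
      intro V _
      rw [sum_comm]
      exact sum_congr rfl fun j _ => a5_diff h _
    rw [sum_congr rfl e1, sum_comm]
    refine sum_congr rfl fun p _ => ?_
    rw [sum_comm]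
    refine sum_congr rfl fun j _ => ?_
    rw [← sum_filter, sum_const, nsmul_eq_mul]
  have h2 : ∀ p ∈ PR Y \ PR z, ∑ j ∈ Icc 1 R,
      (((range X).filter (fun V => p ∣ gg (V + j))).card : ℝ) * Real.log p ≤
        R * (X * (Real.log p / p) + Real.log p) := by
    intro p hp
    have hp1 : p.Prime := by
      have := (mem_sdiff.1 hp).1
      rw [PR, mem_filter] at this
      exact this.2
    have hl : 0 ≤ Real.log p := Real.log_natCast_nonneg p
    have h3 : ∀ j ∈ Icc 1 R, (((range X).filter (fun V => p ∣ gg (V + j))).card : ℝ) * Real.log p ≤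
        ((X : ℝ) / p + 1) * Real.log p := fun j _ =>
      mul_le_mul_of_nonneg_right (count_le hp1.pos X j) hl
    refine (sum_le_sum h3).trans (le_of_eq ?_)
    rw [sum_const, Nat.card_Icc, Nat.add_sub_cancel, nsmul_eq_mul]
    ring
  rw [h1]
  refine (sum_le_sum h2).trans ?_
  rw [← mul_sum, sum_add_distrib, ← mul_sum]
  have h4 : ∑ p ∈ PR Y \ PR z, Real.log p / p = mu Y - mu z := by
    unfold mu
    rw [← sum_sdiff (a5_sub h)]
    ring
  have h5 : ∑ p ∈ PR Y \ PR z, Real.log p ≤ th Y := by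
    have h6 : ∑ p ∈ PR Y \ PR z, Real.log p = th Y - th z := by
      unfold th
      rw [← sum_sdiff (a5_sub h)]
      ring
    rw [h6]
    linarith [th_nonneg z]
  rw [h4]
  exact mul_le_mul_of_nonneg_left (by linarith) (Nat.cast_nonneg R)

/-- [AA-A5] Markov's inequality. PROOF. All terms are `≥ 0` (`sl_mono`); sum over `BM`. -/
theorem BM_card_mul {z Y : ℕ} (h : z ≤ Y) (R X : ℕ) (c : ℝ) :
    ((BM z Y R X c).card : ℝ) * c ≤ R * (X * (mu Y - mu z) + th Y) := by
  refine le_trans ?_ (sum_mid_le h R X)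
  have h1 : ((BM z Y R X c).card : ℝ) * c ≤
      ∑ V ∈ BM z Y R X c, ∑ j ∈ Icc 1 R, (sl Y (gg (V + j)) - sl z (gg (V + j))) := by
    rw [← nsmul_eq_mul, ← sum_const]
    refine sum_le_sum fun V hV => ?_
    rw [BM, mem_filter] at hV
    exact hV.2.le
  refine h1.trans (sum_le_sum_of_subset_of_nonneg (filter_subset _ _) fun V _ _ => ?_)
  exact sum_nonneg fun j _ => sub_nonneg.2 (sl_mono h _)

/-- [AA-A5] the second exceptional set is small. PROOF. `z = ⌊N^(1/2-η)⌋₊`, `Y = √(210 R N)` (`Nat.sqrt`), `c = δ R log N`: `mu Y ≤ log Y + 2 ≤ (1/2) log N + (1/2) log (210 R) + 2`, `mu z ≥ log z - 5 ≥ (1/2 - η) log N - log 2 - 5` (`⌊t⌋₊ ≥ t/2` for `t ≥ 1`), so `mu Y - mu z ≤ η log N + C`; `th Y ≤ 2 Y ≤ 2 √(210 R N)`. Hence `card ≤ (X (η log N + C) + 2 √(210 R N))/(δ log N)`, `X ≤ N/210 + 1 ≤ N/100`, `η/δ ≤ ε`: for large `N` this is `≤ ε N`. -/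
theorem BM_small {δ η ε : ℝ} (hδ : 0 < δ) (hη : 0 < η) (hη1 : η ≤ 1 / 4) (hε : 0 < ε)
    (hηε : η ≤ δ * ε) {R : ℕ} (hR : 1 ≤ R) :
    ∃ N₀ : ℕ, ∀ N : ℕ, N₀ ≤ N →
      ((BM ⌊(N : ℝ) ^ (1 / 2 - η)⌋₊ (Nat.sqrt (210 * R * N)) R (N / 210 + 1)
        (δ * R * Real.log N)).card : ℝ) ≤ ε * N := by
  have hR0 : (1 : ℝ) ≤ R := by exact_mod_cast hR
  set A : ℝ := 210 * R with hA
  have hA1 : (1 : ℝ) ≤ A := by rw [hA]; linarith
  set C : ℝ := 1 / 2 * Real.log A + 7 + Real.log 2 with hC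
  have hlA : 0 ≤ Real.log A := Real.log_nonneg hA1
  have hl2 : 0 < Real.log 2 := Real.log_pos (by norm_num)
  have hC0 : 0 ≤ C := by rw [hC]; linarith
  set D : ℝ := (C + 2 * Real.sqrt A) * 2 / (δ * ε) with hD
  have hsA : 0 ≤ Real.sqrt A := Real.sqrt_nonneg A
  obtain ⟨N₁, hN₁⟩ := exists_nat_ge (Real.exp D)
  refine ⟨max N₁ 1000, fun N hN => ?_⟩
  have hN1 : N₁ ≤ N := (le_max_left _ _).trans hN
  have hN2 : 1000 ≤ N := (le_max_right _ _).trans hN
  have hNr : (1000 : ℝ) ≤ N := by exact_mod_cast hN2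
  have hN0 : (0 : ℝ) < N := by linarith
  have hlD : D ≤ Real.log N := by
    rw [Real.le_log_iff_exp_le hN0]
    exact hN₁.trans (by exact_mod_cast hN1)
  have hlog0 : 0 < Real.log N := Real.log_pos (by linarith)
  set t : ℝ := (N : ℝ) ^ (1 / 2 - η) with ht
  set z : ℕ := ⌊t⌋₊ with hz
  set Y : ℕ := Nat.sqrt (210 * R * N) with hY
  set X : ℕ := N / 210 + 1 with hX
  have ht1 : 1 ≤ t := by
    rw [ht]
    exact Real.one_le_rpow (by linarith) (by linarith)
  have hz1 : 1 ≤ z := by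
    rw [hz]
    exact (Nat.one_le_floor_iff t).2 ht1
  have hzt : (z : ℝ) ≤ t := Nat.floor_le (by linarith)
  have htt : t * t ≤ N := by
    rw [ht, ← Real.rpow_add hN0]
    calc (N : ℝ) ^ (1 / 2 - η + (1 / 2 - η)) ≤ (N : ℝ) ^ (1 : ℝ) :=
          Real.rpow_le_rpow_of_exponent_le (by linarith) (by linarith)
      _ = N := Real.rpow_one _
  have hzY : z ≤ Y := by
    rw [hY, Nat.le_sqrt]
    have h1 : (z : ℝ) * z ≤ N := (mul_le_mul hzt hzt (Nat.cast_nonneg _) (by linarith)).trans htt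
    have h2 : z * z ≤ N := by exact_mod_cast h1
    have h3 : 1 * N ≤ 210 * R * N := Nat.mul_le_mul_right _ (by omega)
    omega
  have hY1 : 1 ≤ Y := hz1.trans hzY
  have hYr : (0 : ℝ) < Y := by exact_mod_cast hY1
  have hYY : (Y : ℝ) ^ 2 ≤ A * N := by
    have h1 : Y ^ 2 ≤ 210 * R * N := by
      rw [hY]
      exact Nat.sqrt_le' _
    rw [hA]
    exact_mod_cast h1
  have hmuY : mu Y ≤ 1 / 2 * Real.log N + 1 / 2 * Real.log A + 2 := by
    have h1 := mu_le hY1
    have h2 : 2 * Real.log Y ≤ Real.log A + Real.log N := by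
      have h3 := Real.log_le_log (by positivity) hYY
      rw [Real.log_pow, Real.log_mul (by linarith) hN0.ne'] at h3
      exact_mod_cast h3
    linarith
  have hmuz : (1 / 2 - η) * Real.log N - Real.log 2 - 5 ≤ mu z := by
    have h1 := le_mu hz1
    have h2 : t / 2 ≤ z := by
      have h3 := Nat.lt_floor_add_one t
      rw [← hz] at h3
      have h4 : (1 : ℝ) ≤ z := by exact_mod_cast hz1
      linarith
    have h3 := Real.log_le_log (by linarith) h2
    rw [Real.log_div (by linarith) (by norm_num), ht, Real.log_rpow hN0] at h3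
    linarith
  have hdiff : mu Y - mu z ≤ η * Real.log N + C := by
    rw [hC]
    linarith
  have hX1 : (X : ℝ) ≤ N / 100 := by
    have h1 : ((N / 210 : ℕ) : ℝ) ≤ (N : ℝ) / 210 := Nat.cast_div_le
    rw [hX]
    push_cast
    linarith
  have hth : th Y ≤ 2 * (Real.sqrt A * N) := by
    have h1 := th_le Y
    have h2 : (Y : ℝ) ≤ Real.sqrt A * N := by
      have h3 : (Y : ℝ) ≤ Real.sqrt (A * N) := Real.le_sqrt_of_sq_le hYY
      rw [Real.sqrt_mul (by linarith)] at h3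
      refine h3.trans (mul_le_mul_of_nonneg_left ?_ hsA)
      rw [Real.sqrt_le_left hN0.le]
      nlinarith
    linarith
  have hmain := BM_card_mul hzY R X (δ * R * Real.log N)
  set k : ℝ := ((BM z Y R X (δ * R * Real.log N)).card : ℝ) with hk
  have h1 : k * (δ * Real.log N) ≤ X * (mu Y - mu z) + th Y := by
    have h2 : (R : ℝ) * (k * (δ * Real.log N)) ≤ R * (X * (mu Y - mu z) + th Y) := by
      linarith
    exact le_of_mul_le_mul_left h2 (by linarith)
  have h2 : X * (mu Y - mu z) ≤ N / 100 * (η * Real.log N + C) := by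
    have h3 : 0 ≤ η * Real.log N + C := by positivity
    exact (mul_le_mul_of_nonneg_left hdiff (Nat.cast_nonneg X)).trans
      (mul_le_mul_of_nonneg_right hX1 h3)
  have h3 : (C + 2 * Real.sqrt A) * 2 ≤ δ * ε * Real.log N := by
    have h4 : D * (δ * ε) ≤ Real.log N * (δ * ε) := mul_le_mul_of_nonneg_right hlD (by positivity)
    rw [hD, div_mul_cancel₀ _ (by positivity)] at h4
    linarith
  have h4 : k * (δ * Real.log N) ≤ ε * N * (δ * Real.log N) := by
    have h5 : η * Real.log N ≤ δ * ε * Real.log N := mul_le_mul_of_nonneg_right hηε hlog0.le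
    have h6 : N / 100 * (η * Real.log N + C) + 2 * (Real.sqrt A * N) ≤
        N * (δ * ε * Real.log N) := by
      have h7 : 1 / 100 * (η * Real.log N + C) + 2 * Real.sqrt A ≤ δ * ε * Real.log N := by
        have h8 : 0 ≤ δ * ε * Real.log N := by positivity
        linarith
      have h9 := mul_le_mul_of_nonneg_left h7 hN0.le
      linarith
    calc k * (δ * Real.log N) ≤ X * (mu Y - mu z) + th Y := h1
      _ ≤ N / 100 * (η * Real.log N + C) + 2 * (Real.sqrt A * N) := add_le_add h2 hth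
      _ ≤ N * (δ * ε * Real.log N) := h6
      _ = ε * N * (δ * Real.log N) := by ring
  exact le_of_mul_le_mul_right h4 (by positivity)

end AA
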