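import Pool.Agent.AA.A1
import Pool.Agent.AA.A3

set_option autoImplicit false

open Finset
open scoped Classical

namespace AA

theorem a6_filter {p m M : ℕ} (hp : p.Prime) (hm : m ≠ 0) (hM : m ≤ M) :
    (Icc 2 (Nat.log 2 M)).filter (fun a => p ^ a ∣ m) = Icc 2 (m.factorization p) := by
  ext a
  simp only [Finset.mem_filter, Finset.mem_Icc]
  constructor
  · rintro ⟨⟨h1, _⟩, h3⟩
    exact ⟨h1, (hp.pow_dvd_iff_le_factorization hm).mp h3⟩
  · rintro ⟨h1, h2⟩
    have h3 : p ^ a ∣ m := (hp.pow_dvd_iff_le_factorization hm).mpr h2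
    refine ⟨⟨h1, ?_⟩, h3⟩
    have h4 : 2 ^ a ≤ M :=
      (Nat.pow_le_pow_left hp.two_le a).trans ((Nat.le_of_dvd (Nat.pos_of_ne_zero hm) h3).trans hM)
    exact Nat.le_log_of_pow_le (by norm_num) h4

theorem a6_card (n : ℕ) : (Nat.primesLE n).card ≤ n := by
  have h : Nat.primesLE n ⊆ Icc 1 n := by
    intro p hp
    have h := Nat.mem_primesLE.mp hp
    exact Finset.mem_Icc.mpr ⟨h.2.one_lt.le, h.1⟩
  have := Finset.card_le_card h
  rw [Nat.card_Icc] at this
  omega

theorem a6_growth {N M : ℕ} (hN : 2 ^ 40 ≤ N) (hM : M ≤ 2 * N) (hM1 : 1 ≤ M) :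
    (Nat.sqrt M : ℝ) * Nat.log 2 M * Real.log M ≤ N := by
  have hNR : (0 : ℝ) < N := by
    have : 0 < N := by omega
    exact_mod_cast this
  have hMR : (0 : ℝ) < M := by exact_mod_cast hM1
  obtain ⟨v, hv⟩ : ∃ v : ℝ, v = (N : ℝ) ^ ((1 : ℝ) / 8) := ⟨_, rfl⟩
  have hv0 : 0 ≤ v := by
    rw [hv]
    positivity
  have hv8 : v ^ 8 = N := by
    rw [hv, ← Real.rpow_natCast, ← Real.rpow_mul hNR.le]
    norm_num
  have hv32 : 32 ≤ v := by
    have h1 : (32 : ℝ) ^ 8 ≤ v ^ 8 := by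
      rw [hv8]
      have : ((2 ^ 40 : ℕ) : ℝ) ≤ N := by exact_mod_cast hN
      refine le_trans (le_of_eq ?_) this
      norm_num
    exact le_of_pow_le_pow_left₀ (by norm_num) hv0 h1
  have hvpos : 0 < v := by linarith
  have hlogN : Real.log N ≤ 8 * v := by
    rw [← hv8, Real.log_pow]
    have := Real.log_le_sub_one_of_pos hvpos
    push_cast
    linarith
  have hlogM : Real.log M ≤ 16 * v := by
    have h1 : (M : ℝ) ≤ (N : ℝ) ^ 2 := by
      have h2 : M ≤ N ^ 2 := by nlinarith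
      exact_mod_cast h2
    have h3 := Real.log_le_log hMR h1
    rw [Real.log_pow] at h3
    push_cast at h3
    linarith
  have hlogM0 : 0 ≤ Real.log M := Real.log_natCast_nonneg _
  have hL : (Nat.log 2 M : ℝ) ≤ 32 * v := by
    have h1 : 2 ^ Nat.log 2 M ≤ M := Nat.pow_log_le_self 2 (by omega)
    have h2 : ((2 : ℝ) ^ Nat.log 2 M) ≤ M := by exact_mod_cast h1
    have h3 := Real.log_le_log (by positivity) h2
    rw [Real.log_pow] at h3
    have h4 := Real.log_two_gt_d9
    have h5 : (0 : ℝ) ≤ Nat.log 2 M := Nat.cast_nonneg _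
    nlinarith
  have hS : (Nat.sqrt M : ℝ) ≤ 2 * v ^ 4 := by
    have h1 : (Nat.sqrt M : ℝ) ^ 2 ≤ (2 * v ^ 4) ^ 2 := by
      have h2 : ((Nat.sqrt M : ℕ) : ℝ) ^ 2 ≤ M := by exact_mod_cast Nat.sqrt_le' M
      have h3 : (M : ℝ) ≤ 2 * N := by exact_mod_cast hM
      have h4 : (2 * v ^ 4) ^ 2 = 4 * v ^ 8 := by ring
      rw [h4, hv8]
      linarith
    exact le_of_pow_le_pow_left₀ (by norm_num) (by positivity) h1
  have hS0 : (0 : ℝ) ≤ (Nat.sqrt M : ℝ) := Nat.cast_nonneg _
  have hL0 : (0 : ℝ) ≤ (Nat.log 2 M : ℝ) := Nat.cast_nonneg _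
  calc (Nat.sqrt M : ℝ) * Nat.log 2 M * Real.log M
      ≤ (2 * v ^ 4) * (32 * v) * (16 * v) := by
        apply mul_le_mul (mul_le_mul hS hL hL0 (by positivity)) hlogM hlogM0 (by positivity)
    _ = 1024 * v ^ 6 := by ring
    _ ≤ v ^ 2 * v ^ 6 := by
        apply mul_le_mul_of_nonneg_right _ (by positivity)
        nlinarith
    _ = N := by rw [← hv8]; ring

/-- [AA-A6] PROOF. `(v_p(m) - 1) log p = ∑_{a ∈ Icc 2 (log₂ M), p^a ∣ m} log p` for `p ∣ m`, `1 ≤ m ≤ M` (`v_p(m) ≤ log₂ m`); only `p` with `p² ∣ m` contribute, `p ≤ √M`. -/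
theorem pw_eq {m M : ℕ} (h1 : 1 ≤ m) (hM : m ≤ M) :
    pw m = ∑ p ∈ Nat.primesLE (Nat.sqrt M), ∑ a ∈ (Icc 2 (Nat.log 2 M)).filter (fun a => p ^ a ∣ m),
      Real.log p := by
  have hm : m ≠ 0 := by omega
  have hM0 : M ≠ 0 := by omega
  -- the right side
  have hr : ∀ p ∈ Nat.primesLE (Nat.sqrt M), ∑ a ∈ (Icc 2 (Nat.log 2 M)).filter (fun a => p ^ a ∣ m),
      Real.log p = ((m.factorization p - 1 : ℕ) : ℝ) * Real.log p := by
    intro p hp
    have hpp : p.Prime := (Nat.mem_primesLE.mp hp).2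
    rw [Finset.sum_const, nsmul_eq_mul, a6_filter hpp hm hM, Nat.card_Icc]
    congr 2
  rw [Finset.sum_congr rfl hr]
  have hl : pw m = ∑ p ∈ m.primeFactors, ((m.factorization p - 1 : ℕ) : ℝ) * Real.log p := by
    unfold pw
    apply Finset.sum_congr rfl
    intro p hp
    have h1 : 1 ≤ m.factorization p := by
      have hp' := Nat.mem_primeFactors.mp hp
      exact (hp'.1.dvd_iff_one_le_factorization hm).mp hp'.2.1
    rw [Nat.cast_sub h1, Nat.cast_one]
  rw [hl]
  rw [Finset.sum_subset (Finset.subset_union_left (s₂ := Nat.primesLE (Nat.sqrt M)))]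
  · rw [← Finset.sum_subset (Finset.subset_union_right (s₁ := m.primeFactors))]
    intro p hp hp2
    rcases Finset.mem_union.mp hp with h | h
    · have hp' := Nat.mem_primeFactors.mp h
      have h3 : Nat.sqrt M < p := by
        by_contra h4
        exact hp2 (Nat.mem_primesLE.mpr ⟨by omega, hp'.1⟩)
      have h4 : m.factorization p ≤ 1 := by
        by_contra h5
        have h6 : p ^ 2 ∣ m := (hp'.1.pow_dvd_iff_le_factorization hm).mpr (by omega)
        have h7 := Nat.le_of_dvd h1 h6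
        have h8 : M < p ^ 2 := Nat.sqrt_lt'.mp h3
        omega
      rw [Nat.sub_eq_zero_of_le h4]
      simp
    · exact absurd h hp2
  · intro p _ hp2
    have h3 : m.factorization p = 0 := by
      by_contra h4
      apply hp2
      rw [← Nat.support_factorization]
      exact Finsupp.mem_support_iff.mpr h4
    rw [h3]
    simp

/-- [AA-A6] first moment of `pw`. PROOF. `M = gg (X + R)`; `gg (V + j) ≤ M`. `pw_eq`, swap the sums, `count_le` with `q = p^a`: `∑_V ≤ R ∑_{p ≤ √M} ∑_{a=2}^{log₂ M} log p (X/p^a + 1)`; `∑_{a ≥ 2} p^{-a} ≤ 1/(p (p-1))` and `∑_p log p/(p (p-1)) ≤ 2` (`Pool.Agent.Lib.helper94.ANT.aux_sum_primes`); the remaining terms: at most `√M log₂ M` pairs, `log p ≤ log M`. -/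
theorem sum_pw_le (R X : ℕ) :
    ∑ V ∈ range X, ∑ j ∈ Icc 1 R, pw (gg (V + j)) ≤
      R * (2 * X + Nat.sqrt (gg (X + R)) * Nat.log 2 (gg (X + R)) * Real.log (gg (X + R))) := by
  set M := gg (X + R) with hMdef
  set L := Nat.log 2 M with hL
  have hM1 : 1 ≤ M := by
    rw [hMdef]
    unfold gg
    omega
  have h0 : ∀ V ∈ range X, ∀ j ∈ Icc 1 R, pw (gg (V + j)) =
      ∑ p ∈ Nat.primesLE (Nat.sqrt M), ∑ a ∈ Icc 2 L,
        (if p ^ a ∣ gg (V + j) then Real.log p else 0) := by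
    intro V hV j hj
    rw [Finset.mem_range] at hV
    rw [Finset.mem_Icc] at hj
    rw [pw_eq (M := M) (by unfold gg; omega) (by rw [hMdef]; unfold gg; omega)]
    apply Finset.sum_congr rfl
    intro p _
    rw [Finset.sum_filter]
  rw [Finset.sum_congr rfl (fun V hV => Finset.sum_congr rfl (h0 V hV)), Finset.sum_comm]
  have h2 : ∀ j ∈ Icc 1 R, ∑ V ∈ range X, ∑ p ∈ Nat.primesLE (Nat.sqrt M), ∑ a ∈ Icc 2 L,
        (if p ^ a ∣ gg (V + j) then Real.log p else 0) ≤
      2 * X + Nat.sqrt M * L * Real.log M := by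
    intro j _
    rw [Finset.sum_comm]
    have h3 : ∀ p ∈ Nat.primesLE (Nat.sqrt M), ∑ V ∈ range X, ∑ a ∈ Icc 2 L,
        (if p ^ a ∣ gg (V + j) then Real.log p else 0) ≤
        X * (Real.log p / ((p : ℝ) * (p - 1))) + L * Real.log M := by
      intro p hp
      have hpp := Nat.mem_primesLE.mp hp
      have hp1 : (1 : ℝ) < p := by exact_mod_cast hpp.2.one_lt
      have hp0 : (0 : ℝ) < p := by linarith
      have hlogp : 0 ≤ Real.log p := Real.log_natCast_nonneg _
      rw [Finset.sum_comm]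
      have h4 : ∀ a ∈ Icc 2 L, ∑ V ∈ range X, (if p ^ a ∣ gg (V + j) then Real.log p else 0) ≤
          Real.log p * (X * (1 / (p : ℝ)) ^ a + 1) := by
        intro a _
        rw [← Finset.sum_filter, Finset.sum_const, nsmul_eq_mul, mul_comm]
        apply mul_le_mul_of_nonneg_left _ hlogp
        have := count_le (q := p ^ a) (pow_pos hpp.2.pos a) X j
        rw [Nat.cast_pow] at this
        rw [one_div, inv_pow, ← div_eq_mul_inv]
        exact this
      refine (Finset.sum_le_sum h4).trans ?_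
      rw [← Finset.mul_sum, Finset.sum_add_distrib, ← Finset.mul_sum, Finset.sum_const,
        Nat.card_Icc, nsmul_eq_mul, mul_one]
      have h5 : ∑ a ∈ Icc 2 L, (1 / (p : ℝ)) ^ a ≤ 1 / ((p : ℝ) * (p - 1)) := by
        have h6 : Icc 2 L = Ico 2 (L + 1) := by
          ext a
          simp only [Finset.mem_Icc, Finset.mem_Ico]
          omega
        rw [h6]
        have h7 := geom_sum_Ico_le_of_lt_one (x := 1 / (p : ℝ)) (m := 2) (n := L + 1)
          (by positivity) (by rw [div_lt_one hp0]; exact hp1)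
        refine h7.trans (le_of_eq ?_)
        have h8 : (p : ℝ) - 1 ≠ 0 := by linarith
        field_simp
      have h9 : ((L + 1 - 2 : ℕ) : ℝ) ≤ L := by
        exact_mod_cast (by omega : L + 1 - 2 ≤ L)
      have h10 : Real.log p ≤ Real.log M := by
        apply Real.log_le_log hp0
        exact_mod_cast hpp.1.trans (Nat.sqrt_le_self M)
      have h11 : Real.log p * (X * ∑ a ∈ Icc 2 L, (1 / (p : ℝ)) ^ a) ≤
          X * (Real.log p / ((p : ℝ) * (p - 1))) := by
        have h12 : Real.log p * X * ∑ a ∈ Icc 2 L, (1 / (p : ℝ)) ^ a ≤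
            Real.log p * X * (1 / ((p : ℝ) * (p - 1))) :=
          mul_le_mul_of_nonneg_left h5 (by positivity)
        calc Real.log p * (X * ∑ a ∈ Icc 2 L, (1 / (p : ℝ)) ^ a)
            = Real.log p * X * ∑ a ∈ Icc 2 L, (1 / (p : ℝ)) ^ a := by ring
          _ ≤ Real.log p * X * (1 / ((p : ℝ) * (p - 1))) := h12
          _ = X * (Real.log p / ((p : ℝ) * (p - 1))) := by ring
      have h13 : Real.log p * ((L + 1 - 2 : ℕ) : ℝ) ≤ L * Real.log M := by
        rw [mul_comm]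
        apply mul_le_mul h9 h10 hlogp (Nat.cast_nonneg _)
      rw [mul_add]
      linarith
    refine (Finset.sum_le_sum h3).trans ?_
    rw [Finset.sum_add_distrib, ← Finset.mul_sum, Finset.sum_const, nsmul_eq_mul]
    have h14 := Pool.Agent.Lib.helper94.ANT.aux_sum_primes (Nat.sqrt M)
    have h15 : ((Nat.primesLE (Nat.sqrt M)).card : ℝ) ≤ Nat.sqrt M := by
      exact_mod_cast a6_card (Nat.sqrt M)
    have h16 : (X : ℝ) * ∑ p ∈ Nat.primesLE (Nat.sqrt M), Real.log p / ((p : ℝ) * (p - 1)) ≤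
        X * 2 := mul_le_mul_of_nonneg_left h14 (Nat.cast_nonneg _)
    have h17 : ((Nat.primesLE (Nat.sqrt M)).card : ℝ) * (L * Real.log M) ≤
        Nat.sqrt M * (L * Real.log M) :=
      mul_le_mul_of_nonneg_right h15 (mul_nonneg (Nat.cast_nonneg _) (Real.log_natCast_nonneg _))
    have h18 : (Nat.sqrt M : ℝ) * (L * Real.log M) = Nat.sqrt M * L * Real.log M := by ring
    linarith
  refine (Finset.sum_le_sum h2).trans (le_of_eq ?_)
  rw [Finset.sum_const, Nat.card_Icc, nsmul_eq_mul, Nat.add_sub_cancel]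

/-- [AA-A6] the third exceptional set is small. PROOF. Markov: `card · c ≤ ∑ ≤ R (2 X + √M log₂ M log M)`, `c = δ R log N`, `M = gg (N/210 + 1 + R) ≤ N + 210 (R + 2)`; `√M (log M)² = o(N)`. -/
theorem BP_small {δ ε : ℝ} (hδ : 0 < δ) (hε : 0 < ε) {R : ℕ} (hR : 1 ≤ R) :
    ∃ N₀ : ℕ, ∀ N : ℕ, N₀ ≤ N →
      ((BP R (N / 210 + 1) (δ * R * Real.log N)).card : ℝ) ≤ ε * N := by
  refine ⟨max (2 ^ 40) (max (210 * (R + 2)) ⌈Real.exp (3 / (δ * ε))⌉₊), ?_⟩
  intro N hN
  have hN1 : 2 ^ 40 ≤ N := le_trans (le_max_left _ _) hN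
  have hN2 : 210 * (R + 2) ≤ N := le_trans (le_trans (le_max_left _ _) (le_max_right _ _)) hN
  have hN3 : ⌈Real.exp (3 / (δ * ε))⌉₊ ≤ N :=
    le_trans (le_trans (le_max_right _ _) (le_max_right _ _)) hN
  have hNR : (0 : ℝ) < N := by
    have : 0 < N := by omega
    exact_mod_cast this
  have hlog : 3 / (δ * ε) ≤ Real.log N := by
    rw [Real.le_log_iff_exp_le hNR]
    exact (Nat.le_ceil _).trans (by exact_mod_cast hN3)
  set X := N / 210 + 1 with hX
  set M := gg (X + R) with hMdef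
  have hM2 : M ≤ 2 * N := by
    rw [hMdef]
    unfold gg
    omega
  have hmain := a6_growth hN1 hM2 (by rw [hMdef]; unfold gg; omega)
  have hsum := sum_pw_le R X
  rw [← hMdef] at hsum
  have hXN : (X : ℝ) ≤ N := by
    have : X ≤ N := by omega
    exact_mod_cast this
  have hR0 : (0 : ℝ) < R := by exact_mod_cast hR
  have hmark : ((BP R X (δ * R * Real.log N)).card : ℝ) * (δ * R * Real.log N) ≤
      ∑ V ∈ range X, ∑ j ∈ Icc 1 R, pw (gg (V + j)) := by
    rw [← nsmul_eq_mul]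
    unfold BP
    refine (Finset.card_nsmul_le_sum _ (fun V => ∑ j ∈ Icc 1 R, pw (gg (V + j))) _
      (fun V hV => ?_)).trans ?_
    · exact (Finset.mem_filter.mp hV).2.le
    · apply Finset.sum_le_sum_of_subset_of_nonneg (Finset.filter_subset _ _)
      intro V _ _
      exact Finset.sum_nonneg (fun j _ => pw_nonneg _)
  set B : ℝ := ((BP R X (δ * R * Real.log N)).card : ℝ) with hB
  have hB0 : 0 ≤ B := Nat.cast_nonneg _
  have h1 : B * (δ * R * Real.log N) ≤ R * (3 * N) := by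
    refine hmark.trans (hsum.trans ?_)
    apply mul_le_mul_of_nonneg_left _ hR0.le
    linarith
  have h2 : B * (δ * Real.log N) ≤ 3 * N := by
    have : R * (B * (δ * Real.log N)) ≤ R * (3 * N) := by
      calc (R : ℝ) * (B * (δ * Real.log N)) = B * (δ * R * Real.log N) := by ring
        _ ≤ _ := h1
    exact le_of_mul_le_mul_left this hR0
  have h3 : B * (3 / ε) ≤ B * (δ * Real.log N) := by
    apply mul_le_mul_of_nonneg_left _ hB0
    have : δ * (3 / (δ * ε)) ≤ δ * Real.log N := mul_le_mul_of_nonneg_left hlog hδ.le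
    have h4 : δ * (3 / (δ * ε)) = 3 / ε := by
      field_simp
    linarith
  have h5 : B * (3 / ε) ≤ 3 * N := h3.trans h2
  have h6 : B * (3 / ε) * (ε / 3) = B := by
    field_simp
  have h7 : B * (3 / ε) * (ε / 3) ≤ 3 * N * (ε / 3) :=
    mul_le_mul_of_nonneg_right h5 (by positivity)
  linarith

end AA
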