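import Pool.Agent.AA.A3

set_option autoImplicit false

open Finset
open scoped Classical

namespace AA

/-- [AA-A7] outside of the exceptional sets there are few levels without a large prime (deterministic).
PROOF. Let `B` be the set of the levels `j` without a prime factor `> Y`. For `j ∈ B`: `(99/100) log N ≤ log gg (V + j) = sl z + (sl Y - sl z) + pw` (`log_eq`, `hV`). Sum over `B ⊆ Icc 1 R` (all summands are `≥ 0`: `sl_nonneg`, `sl_mono`, `pw_nonneg`): `(99/100) log N · #B ≤ SS + ∑ (sl Y - sl z) + ∑ pw ≤ R mu z + R log z/20 + R log N/20 + R log N/20`, and `mu z ≤ log z + 2`, `log z ≤ (1/2) log N`, `2 ≤ (1/20) log N`: the right side is `≤ R log N (1/2 + 1/20 + 1/40 + 1/20 + 1/20) = (27/40) R log N`, and `(27/40)/(99/100) = 0.6818 ≤ 7/10`. -/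
theorem nolarge_le {z Y R X N V : ℕ} (hz : 1 ≤ z) (hzY : z ≤ Y) (hzN : 2 * Real.log z ≤ Real.log N)
    (hN : 40 ≤ Real.log N) (hV : ∀ j ∈ Icc 1 R, 99 / 100 * Real.log N ≤ Real.log (gg (V + j)))
    (hX : V < X) (h1 : V ∉ BV z R X (1 / 20)) (h2 : V ∉ BM z Y R X (1 / 20 * R * Real.log N))
    (h3 : V ∉ BP R X (1 / 20 * R * Real.log N)) :
    (nolarge Y R V : ℝ) ≤ 7 / 10 * R := by
  obtain ⟨B, hB⟩ : ∃ B : Finset ℕ, B = (Icc 1 R).filter
      (fun j => ∀ p : ℕ, p.Prime → p ∣ gg (V + j) → p ≤ Y) := ⟨_, rfl⟩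
  have hcard : (nolarge Y R V : ℝ) = B.card := by rw [hB]; rfl
  obtain ⟨L, hL⟩ : ∃ L, L = Real.log N := ⟨_, rfl⟩
  rw [← hL] at hzN hN h2 h3
  have hBs : B ⊆ Icc 1 R := by rw [hB]; exact filter_subset _ _
  have e1 : (B.card : ℝ) * (99 / 100 * L) ≤
      ∑ j ∈ B, (sl z (gg (V + j)) + (sl Y (gg (V + j)) - sl z (gg (V + j))) +
        pw (gg (V + j))) := by
    rw [← nsmul_eq_mul]
    apply card_nsmul_le_sum
    intro j hj
    have hj1 := hV j (hBs hj)
    rw [← hL] at hj1
    have hj2 : ∀ p : ℕ, p.Prime → p ∣ gg (V + j) → p ≤ Y := by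
      rw [hB, mem_filter] at hj
      exact hj.2
    rw [log_eq hj2] at hj1
    linarith
  have e2 : ∑ j ∈ B, (sl z (gg (V + j)) + (sl Y (gg (V + j)) - sl z (gg (V + j))) +
        pw (gg (V + j))) ≤ ∑ j ∈ Icc 1 R, (sl z (gg (V + j)) +
        (sl Y (gg (V + j)) - sl z (gg (V + j))) + pw (gg (V + j))) := by
    apply sum_le_sum_of_subset_of_nonneg hBs
    intro j _ _
    have a1 := sl_nonneg z (gg (V + j))
    have a2 := sl_mono hzY (gg (V + j))
    have a3 := pw_nonneg (gg (V + j))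
    linarith
  replace e2 := e1.trans e2
  rw [sum_add_distrib, sum_add_distrib] at e2
  have e3 : ∑ j ∈ Icc 1 R, sl z (gg (V + j)) ≤ R * mu z + 1 / 20 * R * Real.log z := by
    by_contra hcon
    apply h1
    rw [BV, mem_filter, mem_range]
    exact ⟨hX, not_le.mp hcon⟩
  have e4 : ∑ j ∈ Icc 1 R, (sl Y (gg (V + j)) - sl z (gg (V + j))) ≤ 1 / 20 * R * L := by
    by_contra hcon
    apply h2
    rw [BM, mem_filter, mem_range]
    exact ⟨hX, not_le.mp hcon⟩
  have e5 : ∑ j ∈ Icc 1 R, pw (gg (V + j)) ≤ 1 / 20 * R * L := by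
    by_contra hcon
    apply h3
    rw [BP, mem_filter, mem_range]
    exact ⟨hX, not_le.mp hcon⟩
  have e6 := mu_le hz
  have hR0 : (0 : ℝ) ≤ R := Nat.cast_nonneg _
  have e7 : (R : ℝ) * mu z ≤ R * (L / 2 + L / 20) := by
    apply mul_le_mul_of_nonneg_left _ hR0
    linarith
  have e8 : 1 / 20 * (R : ℝ) * Real.log z ≤ 1 / 20 * R * (L / 2) := by
    apply mul_le_mul_of_nonneg_left _ (by positivity)
    linarith
  rw [hcard]
  have e9 : (B.card : ℝ) * (99 / 100 * L) ≤ (7 / 10 * R) * (99 / 100 * L) := by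
    have : 0 ≤ (R : ℝ) * L := mul_nonneg hR0 (by linarith)
    nlinarith
  exact le_of_mul_le_mul_right e9 (by linarith)

/-- [AA-A7] from `V` to `n`. PROOF. `I` = the `l < R` such that the level `j = R - l ∈ [1, R]` has a prime factor `p > Y = √(210 R N)`: `p ^ 2 > 210 R N` (`Nat.lt_succ_sqrt`). `n - lev n l = 210 (V + R - l) + 1 = gg (V + j)` because `(n - 1) % 210 = s`. The number of these `l` is `R - nolarge ≥ (3/10) R > 3 (R + 11)/11` for `R ≥ 111` (`3.3 R > 3 R + 33`). -/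
theorem P2Q_of {R N V s : ℕ} (hR : 111 ≤ R) (hs : s < 210)
    (h : (nolarge (Nat.sqrt (210 * R * N)) R V : ℝ) ≤ 7 / 10 * R) :
    P2Q R N (210 * (V + R) + s + 1) := by
  obtain ⟨Y, hY⟩ : ∃ Y, Y = Nat.sqrt (210 * R * N) := ⟨_, rfl⟩
  rw [← hY] at h
  refine ⟨(range R).filter (fun l => ¬ ∀ p : ℕ, p.Prime → p ∣ gg (V + (R - l)) → p ≤ Y),
    filter_subset _ _, ?_, ?_⟩
  · have h1 : ((range R).filter (fun l => ¬ ∀ p : ℕ, p.Prime → p ∣ gg (V + (R - l)) → p ≤ Y)).card =
        ((Icc 1 R).filter (fun j => ¬ ∀ p : ℕ, p.Prime → p ∣ gg (V + j) → p ≤ Y)).card := by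
      apply card_bij (fun l _ => R - l)
      · intro l hl
        rw [mem_filter, mem_range] at hl
        rw [mem_filter, mem_Icc]
        exact ⟨by omega, hl.2⟩
      · intro l hl l' hl' heq
        rw [mem_filter, mem_range] at hl hl'
        omega
      · intro j hj
        rw [mem_filter, mem_Icc] at hj
        refine ⟨R - j, ?_, by omega⟩
        rw [mem_filter, mem_range]
        refine ⟨by omega, ?_⟩
        have : R - (R - j) = j := by omega
        rw [this]
        exact hj.2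
    have h2 := card_filter_add_card_filter_not (s := Icc 1 R)
      (fun j => ∀ p : ℕ, p.Prime → p ∣ gg (V + j) → p ≤ Y)
    rw [Nat.card_Icc, Nat.add_sub_cancel] at h2
    have h3 : nolarge Y R V = ((Icc 1 R).filter
      (fun j => ∀ p : ℕ, p.Prime → p ∣ gg (V + j) → p ≤ Y)).card := rfl
    rw [← h3] at h2
    rw [h1]
    have h4 : 10 * nolarge Y R V ≤ 7 * R := by
      have : (10 : ℝ) * nolarge Y R V ≤ 7 * R := by linarith
      exact_mod_cast this
    omega
  · intro l hl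
    rw [mem_filter, mem_range] at hl
    obtain ⟨hl1, hl2⟩ := hl
    push Not at hl2
    obtain ⟨p, hp, hpd, hpY⟩ := hl2
    refine ⟨p, hp, ?_, ?_⟩
    · have : 210 * R * N < (Y + 1) ^ 2 := by
        rw [hY]
        exact Nat.lt_succ_sqrt' _
      exact lt_of_lt_of_le this (Nat.pow_le_pow_left hpY 2)
    · have : 210 * (V + R) + s + 1 - lev (210 * (V + R) + s + 1) l = gg (V + (R - l)) := by
        rw [lev, gg]
        have : (210 * (V + R) + s + 1 - 1) % 210 = s := by omega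
        rw [this]
        omega
      rw [this]
      exact hpd

end AA
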