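import Pool.Agent.AA.A4
import Pool.Agent.AA.A5
import Pool.Agent.AA.A6
import Pool.Agent.AA.A7

set_option autoImplicit false

open Finset
open scoped Classical

namespace AA

/-- the counting step -/
theorem a8_card {R N c : ℕ} (hR : 111 ≤ R) (B : Finset ℕ)
    (hB : ∀ V, c ≤ V → V < N / 210 + 1 → V ∉ B →
      (nolarge (Nat.sqrt (210 * R * N)) R V : ℝ) ≤ 7 / 10 * R) :
    ((Icc 1 N).filter (fun n => ¬ P2Q R N n)).card ≤ 210 * (c + R + 1) + B.card * 210 := by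
  classical
  have hsub : (Icc 1 N).filter (fun n => ¬ P2Q R N n) ⊆
      Icc 1 (210 * (c + R + 1)) ∪
        (B ×ˢ range 210).image (fun q : ℕ × ℕ => 210 * (q.1 + R) + q.2 + 1) := by
    intro n hn
    rw [mem_filter, mem_Icc] at hn
    obtain ⟨⟨h1, h2⟩, h3⟩ := hn
    rw [mem_union]
    by_cases hc : c + R ≤ (n - 1) / 210
    · right
      rw [mem_image]
      refine ⟨((n - 1) / 210 - R, (n - 1) % 210), ?_, ?_⟩
      · rw [mem_product]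
        refine ⟨?_, ?_⟩
        · by_contra hV
          apply h3
          have h4 := hB ((n - 1) / 210 - R) (by omega) (by omega) hV
          have h5 := P2Q_of hR (s := (n - 1) % 210) (by omega) h4
          have h6 : 210 * ((n - 1) / 210 - R + R) + (n - 1) % 210 + 1 = n := by omega
          rw [h6] at h5
          exact h5
        · rw [mem_range]
          exact Nat.mod_lt _ (by norm_num)
      · show 210 * ((n - 1) / 210 - R + R) + (n - 1) % 210 + 1 = n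
        omega
    · left
      rw [mem_Icc]
      omega
  calc ((Icc 1 N).filter (fun n => ¬ P2Q R N n)).card
      ≤ (Icc 1 (210 * (c + R + 1)) ∪
        (B ×ˢ range 210).image (fun q : ℕ × ℕ => 210 * (q.1 + R) + q.2 + 1)).card :=
        card_le_card hsub
    _ ≤ (Icc 1 (210 * (c + R + 1))).card +
        ((B ×ˢ range 210).image (fun q : ℕ × ℕ => 210 * (q.1 + R) + q.2 + 1)).card :=
        card_union_le _ _
    _ ≤ 210 * (c + R + 1) + B.card * 210 := by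
        have h1 : (Icc 1 (210 * (c + R + 1))).card = 210 * (c + R + 1) := by
          rw [Nat.card_Icc]; omega
        have h2 : ((B ×ˢ range 210).image
            (fun q : ℕ × ℕ => 210 * (q.1 + R) + q.2 + 1)).card ≤ B.card * 210 := by
          refine card_image_le.trans ?_
          rw [card_product, card_range]
        omega

/-- `N ^ (99/100)` is small -/
theorem a8_pow_small {κ : ℝ} (hκ : 0 < κ) :
    ∃ N₀ : ℕ, ∀ N : ℕ, N₀ ≤ N → (N : ℝ) ^ (99 / 100 : ℝ) ≤ κ * N := by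
  have h1 : Filter.Tendsto (fun N : ℕ => (N : ℝ) ^ (-(1 / 100) : ℝ)) Filter.atTop (nhds 0) :=
    (tendsto_rpow_neg_atTop (by norm_num : (0 : ℝ) < 1 / 100)).comp tendsto_natCast_atTop_atTop
  have h2 : ∀ᶠ N : ℕ in Filter.atTop, (N : ℝ) ^ (-(1 / 100) : ℝ) < κ :=
    h1.eventually (gt_mem_nhds hκ)
  obtain ⟨N₀, h3⟩ := Filter.eventually_atTop.mp h2
  refine ⟨N₀ + 1, fun N hN => ?_⟩
  have h4 := h3 N (by omega)
  have hN0 : (0 : ℝ) < N := by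
    have : 0 < N := by omega
    exact_mod_cast this
  have h5 : (N : ℝ) ^ (99 / 100 : ℝ) = (N : ℝ) ^ (-(1 / 100) : ℝ) * N := by
    nth_rewrite 3 [← Real.rpow_one (N : ℝ)]
    rw [← Real.rpow_add hN0]
    norm_num
  rw [h5]
  exact mul_le_mul_of_nonneg_right h4.le hN0.le

/-- the size of `z` -/
theorem a8_z {η : ℝ} (hη : 0 < η) (hη1 : η ≤ 1 / 4) {N R : ℕ} (hN : 1 ≤ N) (hR : 1 ≤ R) :
    1 ≤ ⌊(N : ℝ) ^ (1 / 2 - η)⌋₊ ∧ ⌊(N : ℝ) ^ (1 / 2 - η)⌋₊ ≤ Nat.sqrt (210 * R * N) ∧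
      2 * Real.log (⌊(N : ℝ) ^ (1 / 2 - η)⌋₊ : ℝ) ≤ Real.log N := by
  have hN1 : (1 : ℝ) ≤ N := by exact_mod_cast hN
  have h1 : (1 : ℝ) ≤ (N : ℝ) ^ (1 / 2 - η) := Real.one_le_rpow hN1 (by linarith)
  have hz1 : 1 ≤ ⌊(N : ℝ) ^ (1 / 2 - η)⌋₊ := by
    rw [Nat.one_le_floor_iff]
    exact h1
  have h2 : ((⌊(N : ℝ) ^ (1 / 2 - η)⌋₊ : ℕ) : ℝ) ≤ (N : ℝ) ^ (1 / 2 - η) :=
    Nat.floor_le (by linarith)
  have h3 : (N : ℝ) ^ (1 / 2 - η) ≤ (N : ℝ) ^ (1 / 2 : ℝ) :=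
    Real.rpow_le_rpow_of_exponent_le hN1 (by linarith)
  have hzr : (1 : ℝ) ≤ ((⌊(N : ℝ) ^ (1 / 2 - η)⌋₊ : ℕ) : ℝ) := by exact_mod_cast hz1
  refine ⟨hz1, ?_, ?_⟩
  · rw [Nat.le_sqrt]
    have h4 : ((⌊(N : ℝ) ^ (1 / 2 - η)⌋₊ : ℕ) : ℝ) * ((⌊(N : ℝ) ^ (1 / 2 - η)⌋₊ : ℕ) : ℝ) ≤ N := by
      calc ((⌊(N : ℝ) ^ (1 / 2 - η)⌋₊ : ℕ) : ℝ) * ((⌊(N : ℝ) ^ (1 / 2 - η)⌋₊ : ℕ) : ℝ)
          ≤ (N : ℝ) ^ (1 / 2 : ℝ) * (N : ℝ) ^ (1 / 2 : ℝ) :=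
            mul_le_mul (h2.trans h3) (h2.trans h3) (by linarith) (by positivity)
        _ = N := by
            rw [← Real.rpow_add (by linarith)]
            norm_num
    have h5 : ⌊(N : ℝ) ^ (1 / 2 - η)⌋₊ * ⌊(N : ℝ) ^ (1 / 2 - η)⌋₊ ≤ N := by exact_mod_cast h4
    have h6 : N ≤ 210 * R * N := by nlinarith
    omega
  · have h4 : Real.log ((⌊(N : ℝ) ^ (1 / 2 - η)⌋₊ : ℕ) : ℝ) ≤ Real.log ((N : ℝ) ^ (1 / 2 : ℝ)) :=
      Real.log_le_log (by linarith) (h2.trans h3)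
    rw [Real.log_rpow (by linarith)] at h4
    linarith

/-- [AA-A8] Step A. PROOF. `δ = 1/20`, `ε' = ε/2000`, `η = min (1/4) (δ ε')`, `R ≥ 111` with `4 ≤ δ² ε' R`. `X = N/210 + 1`, `z = ⌊N^(1/2-η)⌋₊`, `Y = √(210 R N)`. If `n ∈ [1, N]` is not `P2Q R N`, then either `n ≤ 210 (⌈N^(99/100)⌉₊ + R + 1)` (`= o(N)`), or `n = 210 (V + R) + s + 1` with `s = (n-1) % 210`, `V = (n-1)/210 - R`, `N^(99/100) ≤ V < X`, and by `P2Q_of`, `nolarge_le` the number `V` is in `BV ∪ BM ∪ BP` (`log gg (V + j) ≥ log V ≥ (99/100) log N`; `z ≤ N^(1/2)`, so `2 log z ≤ log N` and `z ≤ Y`). The map `n ↦ (V, s)` is injective, so the number of the `n` of the second kind is at most `210 · 3 ε' N`. -/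
theorem partA {ε : ℝ} (hε : 0 < ε) :
    ∃ R : ℕ, 111 ≤ R ∧ ∃ N₀ : ℕ, ∀ N : ℕ, N₀ ≤ N →
      (((Icc 1 N).filter (fun n => ¬ P2Q R N n)).card : ℝ) ≤ ε * N := by
  have he' : 0 < ε / 2000 := by positivity
  obtain ⟨η, hη, hη1, hη2⟩ : ∃ η : ℝ, 0 < η ∧ η ≤ 1 / 4 ∧ η ≤ 1 / 20 * (ε / 2000) :=
    ⟨min (1 / 4) (1 / 20 * (ε / 2000)), lt_min (by norm_num) (by positivity), min_le_left _ _,
      min_le_right _ _⟩
  obtain ⟨R₁, hR₁⟩ := exists_nat_ge (4 / ((1 / 20 : ℝ) ^ 2 * (ε / 2000)))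
  obtain ⟨R, hR111, hRR⟩ : ∃ R : ℕ, 111 ≤ R ∧ R₁ ≤ R := ⟨max 111 R₁, le_max_left _ _, le_max_right _ _⟩
  have hR4 : 4 ≤ (1 / 20 : ℝ) ^ 2 * (ε / 2000) * R := by
    have h1 : (R₁ : ℝ) ≤ R := by exact_mod_cast hRR
    have h2 : 4 / ((1 / 20 : ℝ) ^ 2 * (ε / 2000)) ≤ R := hR₁.trans h1
    rw [div_le_iff₀ (by positivity)] at h2
    linarith
  have hR1 : 1 ≤ R := by omega
  obtain ⟨N1, hN1⟩ := BV_small (δ := 1 / 20) (η := η) (ε := ε / 2000) (by norm_num) hη hη1 he' hR4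
  obtain ⟨N2, hN2⟩ := BM_small (δ := 1 / 20) (η := η) (ε := ε / 2000) (by norm_num) hη hη1 he' hη2
    hR1
  obtain ⟨N3, hN3⟩ := BP_small (δ := 1 / 20) (ε := ε / 2000) (by norm_num) he' hR1
  obtain ⟨N4, hN4⟩ := a8_pow_small (κ := ε / 1680) (by positivity)
  obtain ⟨N5, hN5⟩ := exists_nat_ge (1680 * ((R : ℝ) + 2) / ε)
  obtain ⟨N6, hN6⟩ := exists_nat_ge (Real.exp 40)
  refine ⟨R, hR111, N1 + N2 + N3 + N4 + N5 + N6 + 1, fun N hN => ?_⟩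
  have b1 := hN1 N (by omega)
  have b2 := hN2 N (by omega)
  have b3 := hN3 N (by omega)
  have b4 := hN4 N (by omega)
  have b5 : 1680 * ((R : ℝ) + 2) ≤ ε * N := by
    have h1 : (N5 : ℝ) ≤ N := by exact_mod_cast (by omega : N5 ≤ N)
    have h2 := hN5.trans h1
    rw [div_le_iff₀ hε] at h2
    linarith
  have hNe : Real.exp 40 ≤ N := by
    have h1 : (N6 : ℝ) ≤ N := by exact_mod_cast (by omega : N6 ≤ N)
    exact hN6.trans h1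
  have hNpos : (0 : ℝ) < N := (Real.exp_pos 40).trans_le hNe
  have hNone : 1 ≤ N := by omega
  have hlog : 40 ≤ Real.log N := by
    rw [Real.le_log_iff_exp_le hNpos]
    exact hNe
  obtain ⟨z1, z2, z3⟩ := a8_z hη hη1 (N := N) (R := R) hNone hR1
  have hcount := a8_card (R := R) (N := N) (c := ⌈(N : ℝ) ^ (99 / 100 : ℝ)⌉₊) hR111
    (BV ⌊(N : ℝ) ^ (1 / 2 - η)⌋₊ R (N / 210 + 1) (1 / 20) ∪
      (BM ⌊(N : ℝ) ^ (1 / 2 - η)⌋₊ (Nat.sqrt (210 * R * N)) R (N / 210 + 1)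
        (1 / 20 * R * Real.log N) ∪ BP R (N / 210 + 1) (1 / 20 * R * Real.log N)))
    (by
      intro V hcV hVX hV
      rw [mem_union, mem_union, not_or, not_or] at hV
      refine nolarge_le z1 z2 z3 hlog ?_ hVX hV.1 hV.2.1 hV.2.2
      intro j _
      have h1 : (N : ℝ) ^ (99 / 100 : ℝ) ≤ V :=
        (Nat.le_ceil _).trans (by exact_mod_cast hcV)
      have h2 : (V : ℝ) ≤ (gg (V + j) : ℝ) := by
        have : V ≤ gg (V + j) := by unfold gg; omega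
        exact_mod_cast this
      have h3 : Real.log ((N : ℝ) ^ (99 / 100 : ℝ)) ≤ Real.log (gg (V + j) : ℝ) :=
        Real.log_le_log (Real.rpow_pos_of_pos hNpos _) (h1.trans h2)
      rw [Real.log_rpow hNpos] at h3
      exact h3)
  have hcountR : (((Icc 1 N).filter (fun n => ¬ P2Q R N n)).card : ℝ) ≤
      210 * ((⌈(N : ℝ) ^ (99 / 100 : ℝ)⌉₊ : ℝ) + R + 1) +
      (BV ⌊(N : ℝ) ^ (1 / 2 - η)⌋₊ R (N / 210 + 1) (1 / 20) ∪
      (BM ⌊(N : ℝ) ^ (1 / 2 - η)⌋₊ (Nat.sqrt (210 * R * N)) R (N / 210 + 1)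
        (1 / 20 * R * Real.log N) ∪ BP R (N / 210 + 1) (1 / 20 * R * Real.log N))).card * 210 := by
    exact_mod_cast hcount
  have hcu : ((BV ⌊(N : ℝ) ^ (1 / 2 - η)⌋₊ R (N / 210 + 1) (1 / 20) ∪
      (BM ⌊(N : ℝ) ^ (1 / 2 - η)⌋₊ (Nat.sqrt (210 * R * N)) R (N / 210 + 1)
        (1 / 20 * R * Real.log N) ∪ BP R (N / 210 + 1) (1 / 20 * R * Real.log N))).card : ℝ) ≤
      (BV ⌊(N : ℝ) ^ (1 / 2 - η)⌋₊ R (N / 210 + 1) (1 / 20)).card +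
      ((BM ⌊(N : ℝ) ^ (1 / 2 - η)⌋₊ (Nat.sqrt (210 * R * N)) R (N / 210 + 1)
        (1 / 20 * R * Real.log N)).card + (BP R (N / 210 + 1) (1 / 20 * R * Real.log N)).card) := by
    have h1 := card_union_le (BV ⌊(N : ℝ) ^ (1 / 2 - η)⌋₊ R (N / 210 + 1) (1 / 20))
      (BM ⌊(N : ℝ) ^ (1 / 2 - η)⌋₊ (Nat.sqrt (210 * R * N)) R (N / 210 + 1)
        (1 / 20 * R * Real.log N) ∪ BP R (N / 210 + 1) (1 / 20 * R * Real.log N))
    have h2 := card_union_le (BM ⌊(N : ℝ) ^ (1 / 2 - η)⌋₊ (Nat.sqrt (210 * R * N)) R (N / 210 + 1)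
        (1 / 20 * R * Real.log N)) (BP R (N / 210 + 1) (1 / 20 * R * Real.log N))
    exact_mod_cast h1.trans (Nat.add_le_add_left h2 _)
  have hceil : (⌈(N : ℝ) ^ (99 / 100 : ℝ)⌉₊ : ℝ) ≤ (N : ℝ) ^ (99 / 100 : ℝ) + 1 :=
    (Nat.ceil_lt_add_one (Real.rpow_nonneg hNpos.le _)).le
  nlinarith [mul_pos hε hNpos]

end AA
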