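import Pool.Agent.WD.W14

set_option autoImplicit false

/-! # Three trinomial coefficients have a common factor for almost all `n`: definitions -/

open Finset
open scoped Classical

namespace AA

open WD

/-- the exact power of `p` in `n (n - 1) (n - 2)` -/
def mp (n p : ℕ) : ℕ := p ^ (ff n).factorization p

/-- the covered odd primes whose exact power in `n (n - 1) (n - 2)` is larger than `K` -/
noncomputable def QK (K x y z : ℕ) : Finset ℕ :=
  (ff (x + y + z)).primeFactors.filter
    (fun p => p ≠ 2 ∧ K < mp (x + y + z) p ∧ Cov p x y z)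

/-- the block of the type `(i, j, k)`: the product of the exact powers `q` of the primes in
`QK K x y z` with `x % q = i`, `y % q = j`, `z % q = k` -/
noncomputable def EB (K x y z i j k : ℕ) : ℕ :=
  ∏ p ∈ (QK K x y z).filter (fun p => x % mp (x + y + z) p = i ∧ y % mp (x + y + z) p = j ∧
    z % mp (x + y + z) p = k), mp (x + y + z) p

/-- the part of levels `0, 1` -/
noncomputable def D01 (K x y z : ℕ) : ℕ :=
  EB K x y z 0 0 0 * EB K x y z 1 0 0 * EB K x y z 0 1 0 * EB K x y z 0 0 1

/-- three triples of positive numbers of sum `n` such that every prime is covered -/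
structure CE (n : ℕ) (T : Fin 3 → Fin 3 → ℕ) : Prop where
  pos : ∀ j c, 0 < T j c
  sum : ∀ j, T j 0 + T j 1 + T j 2 = n
  cov : ∀ p : ℕ, p.Prime → ∃ j, Cov p (T j 0) (T j 1) (T j 2)

/-- [E] a triple covering `2` with a large part of levels `0, 1` -/
noncomputable def XE (K N : ℕ) (w : ℝ) : Finset ℕ :=
  (Icc 3 N).filter (fun n => ∃ x y z : ℕ, 0 < x ∧ 0 < y ∧ 0 < z ∧ x + y + z = n ∧
    Cov 2 x y z ∧ w ≤ (D01 K x y z : ℝ))

end AA
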