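import Pool.Agent.AA.A0
import Pool.Agent.AA.D0

set_option autoImplicit false

open Finset
open scoped Classical

namespace AA

open WD

theorem b1_minor {K N p p' x y : ℕ} (hxy : x + y ≤ N) (h1 : x % p < K) (h2 : y % p < K)
    (h3 : x % p' < K) (h4 : y % p' < K) (hp : K * N < p ^ 2) (hp' : K * N < p' ^ 2) :
    (x - x % p) * (y - y % p') = (y - y % p) * (x - x % p') := by
  obtain ⟨a, ha⟩ : ∃ a, a = x / p := ⟨_, rfl⟩
  obtain ⟨b, hb⟩ : ∃ b, b = y / p := ⟨_, rfl⟩
  obtain ⟨a', ha'⟩ : ∃ a', a' = x / p' := ⟨_, rfl⟩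
  obtain ⟨b', hb'⟩ : ∃ b', b' = y / p' := ⟨_, rfl⟩
  have e1 : x = p * a + x % p := by rw [ha]; exact (Nat.div_add_mod x p).symm
  have e2 : y = p * b + y % p := by rw [hb]; exact (Nat.div_add_mod y p).symm
  have e3 : x = p' * a' + x % p' := by rw [ha']; exact (Nat.div_add_mod x p').symm
  have e4 : y = p' * b' + y % p' := by rw [hb']; exact (Nat.div_add_mod y p').symm
  obtain ⟨r, hr⟩ : ∃ r, r = x % p := ⟨_, rfl⟩
  obtain ⟨s, hs⟩ : ∃ s, s = y % p := ⟨_, rfl⟩
  obtain ⟨r', hr'⟩ : ∃ r', r' = x % p' := ⟨_, rfl⟩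
  obtain ⟨s', hs'⟩ : ∃ s', s' = y % p' := ⟨_, rfl⟩
  rw [← hr] at e1 h1
  rw [← hs] at e2 h2
  rw [← hr'] at e3 h3
  rw [← hs'] at e4 h4
  rw [← hr, ← hs, ← hr', ← hs']
  have f1 : x - r = p * a := by omega
  have f2 : y - s = p * b := by omega
  have f3 : x - r' = p' * a' := by omega
  have f4 : y - s' = p' * b' := by omega
  rw [f1, f2, f3, f4]
  -- in the integers
  have g1 : (x : ℤ) = p * a + r := by exact_mod_cast e1
  have g2 : (y : ℤ) = p * b + s := by exact_mod_cast e2
  have g3 : (x : ℤ) = p' * a' + r' := by exact_mod_cast e3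
  have g4 : (y : ℤ) = p' * b' + s' := by exact_mod_cast e4
  have key : ((p : ℤ) * a) * (p' * b') - (p * b) * (p' * a') =
      (p * a) * ((s : ℤ) - s') - (p * b) * ((r : ℤ) - r') := by
    have h5 : (p' : ℤ) * b' = p * b + s - s' := by linarith
    have h6 : (p' : ℤ) * a' = p * a + r - r' := by linarith
    rw [h5, h6]; ring
  have hbd : |((p : ℤ) * a) * (p' * b') - (p * b) * (p' * a')| ≤ K * N := by
    rw [key]
    have hA : (0 : ℤ) ≤ p * a := by positivity
    have hB : (0 : ℤ) ≤ p * b := by positivity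
    have hK1 : |(s : ℤ) - s'| ≤ K := by rw [abs_le]; constructor <;> omega
    have hK2 : |(r : ℤ) - r'| ≤ K := by rw [abs_le]; constructor <;> omega
    have hsum : (p : ℤ) * a + p * b ≤ N := by
      have : (x : ℤ) + y ≤ N := by exact_mod_cast hxy
      have h7 : (0 : ℤ) ≤ r := by positivity
      have h8 : (0 : ℤ) ≤ s := by positivity
      linarith
    calc |((p : ℤ) * a) * ((s : ℤ) - s') - (p * b) * ((r : ℤ) - r')|
        ≤ |((p : ℤ) * a) * ((s : ℤ) - s')| + |(p * b) * ((r : ℤ) - r')| := abs_sub _ _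
      _ = (p * a) * |(s : ℤ) - s'| + (p * b) * |(r : ℤ) - r'| := by
          rw [abs_mul ((p : ℤ) * a) _, abs_mul ((p : ℤ) * b) _, abs_of_nonneg hA, abs_of_nonneg hB]
      _ ≤ (p * a) * K + (p * b) * K := by gcongr
      _ = K * (p * a + p * b) := by ring
      _ ≤ K * N := by gcongr
  have hpp : (K * N : ℤ) < p * p' := by
    have h9 : (K * N) ^ 2 < (p * p') ^ 2 := by
      calc (K * N) ^ 2 = (K * N) * (K * N) := by ring
        _ < p ^ 2 * p' ^ 2 := by
          apply Nat.mul_lt_mul_of_lt_of_le hp hp'.le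
          exact lt_of_le_of_lt (Nat.zero_le _) hp'
        _ = (p * p') ^ 2 := by ring
    have h10 := lt_of_pow_lt_pow_left₀ 2 (Nat.zero_le _) h9
    exact_mod_cast h10
  have hdvd : ((p : ℤ) * p') ∣ ((p : ℤ) * a) * (p' * b') - (p * b) * (p' * a') :=
    ⟨(a : ℤ) * b' - b * a', by ring⟩
  have hzero : ((p : ℤ) * a) * (p' * b') - (p * b) * (p' * a') = 0 := by
    refine Int.eq_zero_of_abs_lt_dvd hdvd ?_
    exact lt_of_le_of_lt hbd hpp
  have h11 : ((p : ℤ) * a) * (p' * b') = (p * b) * (p' * a') := by linarith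
  exact_mod_cast h11

/-- [AA-B1] proportional vectors -/
theorem prop_vec {K N n p p' i i' : ℕ} {T : Fin 3 → ℕ} (hn : T 0 + T 1 + T 2 = n) (hnN : n ≤ N)
    (hc : Cov p (T 0) (T 1) (T 2)) (hc' : Cov p' (T 0) (T 1) (T 2))
    (hp : K * N < p ^ 2) (hp' : K * N < p' ^ 2) (hi : n % p = i) (hi' : n % p' = i')
    (hiK : i < K) (hi'K : i' < K) (s : Fin 3) :
    (T s - T s % p) * (n - i') = (T s - T s % p') * (n - i) := by
  have c1 := hc 1
  have c2 := hc' 1
  rw [pow_one, hn, hi] at c1
  rw [pow_one, hn, hi'] at c2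
  have m01 := b1_minor (K := K) (N := N) (p := p) (p' := p') (x := T 0) (y := T 1) (by omega)
    (by omega) (by omega) (by omega) (by omega) hp hp'
  have m02 := b1_minor (K := K) (N := N) (p := p) (p' := p') (x := T 0) (y := T 2) (by omega)
    (by omega) (by omega) (by omega) (by omega) hp hp'
  have m12 := b1_minor (K := K) (N := N) (p := p) (p' := p') (x := T 1) (y := T 2) (by omega)
    (by omega) (by omega) (by omega) (by omega) hp hp'
  have l0 := Nat.mod_le (T 0) p
  have l1 := Nat.mod_le (T 1) p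
  have l2 := Nat.mod_le (T 2) p
  have k0 := Nat.mod_le (T 0) p'
  have k1 := Nat.mod_le (T 1) p'
  have k2 := Nat.mod_le (T 2) p'
  have e1 : n - i' = (T 0 - T 0 % p') + (T 1 - T 1 % p') + (T 2 - T 2 % p') := by omega
  have e2 : n - i = (T 0 - T 0 % p) + (T 1 - T 1 % p) + (T 2 - T 2 % p) := by omega
  rw [e1, e2]
  fin_cases s
  · simp only [Fin.zero_eta, Fin.isValue]
    nlinarith [m01, m02, m12]
  · simp only [Fin.mk_one, Fin.isValue]
    nlinarith [m01, m02, m12]
  · simp only [Fin.reduceFinMk, Fin.isValue]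
    nlinarith [m01, m02, m12]

/-- [AA-B2] a fixed denominator -/
theorem one_class {R : ℕ} {J : Finset ℕ} (hJ : J ⊆ range R) {a : ℕ → ℕ} {M : ℕ}
    (hM : M % 210 = 1) (hR : 210 * R ≤ M)
    (ha : ∀ l ∈ J, a l ≤ M - 210 * l)
    (hcross : ∀ l ∈ J, ∀ l' ∈ J, a l * (M - 210 * l') = a l' * (M - 210 * l))
    {l₀ : ℕ} (hl₀ : l₀ ∈ J) (h0 : a l₀ ≠ 0) (h1 : a l₀ ≠ M - 210 * l₀) :
    11 * J.card ≤ R + 11 := by
  have hl₀R : l₀ < R := Finset.mem_range.1 (hJ hl₀)
  obtain ⟨m, hm⟩ : ∃ m, m = M - 210 * l₀ := ⟨_, rfl⟩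
  have hmpos : 0 < m := by omega
  have ham : a l₀ < m := by
    have := ha l₀ hl₀
    omega
  obtain ⟨g, hg⟩ : ∃ g, g = Nat.gcd (a l₀) m := ⟨_, rfl⟩
  have hgpos : 0 < g := by rw [hg]; exact Nat.gcd_pos_of_pos_right _ hmpos
  obtain ⟨A, w, hcop, hA, hw⟩ : ∃ A w, Nat.Coprime A w ∧ a l₀ = A * g ∧ m = w * g := by
    rw [hg]
    exact Nat.exists_coprime (a l₀) m
  have hw2 : 2 ≤ w := by
    by_contra hlt
    have hw01 : w = 0 ∨ w = 1 := by omega
    rcases hw01 with h | h
    · rw [h] at hw; omega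
    · rw [h, one_mul] at hw
      have : g ≤ a l₀ := by
        rw [hg]; exact Nat.gcd_le_left _ (Nat.pos_of_ne_zero h0)
      omega
  -- `w` divides all the levels
  have hdiv : ∀ l ∈ J, w ∣ M - 210 * l := by
    intro l hl
    have h2 := hcross l₀ hl₀ l hl
    rw [← hm, hA, hw] at h2
    have h3 : A * (M - 210 * l) = a l * w := by
      apply Nat.eq_of_mul_eq_mul_right hgpos
      calc A * (M - 210 * l) * g = A * g * (M - 210 * l) := by ring
        _ = a l * (w * g) := h2
        _ = a l * w * g := by ring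
    have h4 : w ∣ A * (M - 210 * l) := ⟨a l, by rw [h3]; ring⟩
    exact hcop.symm.dvd_of_dvd_mul_left h4
  have hw210 : Nat.Coprime w 210 := by
    have h5 : w ∣ m := ⟨g, hw⟩
    have h6 : Nat.Coprime m 210 := by
      have h7 : m % 210 = 1 := by omega
      rw [Nat.Coprime, Nat.gcd_comm, Nat.gcd_rec, h7]
      norm_num
    exact Nat.Coprime.coprime_dvd_left h5 h6
  have hw11 : 11 ≤ w := by
    have hne : w ≠ 1 := by omega
    have hp := Nat.minFac_prime hne
    have hpd := Nat.minFac_dvd w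
    have hple : Nat.minFac w ≤ w := Nat.minFac_le (by omega)
    by_contra hlt
    have hlt' : Nat.minFac w < 11 := by omega
    have hcop2 : Nat.Coprime (Nat.minFac w) 210 := Nat.Coprime.coprime_dvd_left hpd hw210
    generalize Nat.minFac w = q at hp hcop2 hlt'
    interval_cases q <;> revert hp hcop2 <;> decide
  -- one class
  have hclass : J.card ≤ (range (R / w + 1)).card := by
    refine Finset.card_le_card_of_injOn (fun l => l / w) ?_ ?_
    · intro l hl
      have hlR : l < R := Finset.mem_range.1 (hJ hl)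
      simp only [Finset.coe_range, Set.mem_Iio]
      have : l / w ≤ R / w := Nat.div_le_div_right hlR.le
      omega
    · intro l hl l' hl' hll
      have hlR : l < R := Finset.mem_range.1 (hJ hl)
      have hlR' : l' < R := Finset.mem_range.1 (hJ hl')
      have d1 := hdiv l hl
      have d2 := hdiv l' hl'
      have d3 : (w : ℤ) ∣ (M : ℤ) - 210 * l := by
        have := Int.natCast_dvd_natCast.2 d1
        rw [Nat.cast_sub (by omega)] at this
        exact_mod_cast this
      have d4 : (w : ℤ) ∣ (M : ℤ) - 210 * l' := by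
        have := Int.natCast_dvd_natCast.2 d2
        rw [Nat.cast_sub (by omega)] at this
        exact_mod_cast this
      have d5 : (w : ℤ) ∣ 210 * ((l : ℤ) - l') := by
        have := dvd_sub d4 d3
        have h8 : (M : ℤ) - 210 * l' - (M - 210 * l) = 210 * ((l : ℤ) - l') := by ring
        rwa [h8] at this
      have d6 : (w : ℤ) ∣ (l : ℤ) - l' := by
        have h12 := Nat.isCoprime_iff_coprime.2 hw210
        have h13 : IsCoprime (w : ℤ) 210 := by exact_mod_cast h12
        exact h13.dvd_of_dvd_mul_left d5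
      have d7 : l ≡ l' [MOD w] := by
        rw [Nat.modEq_iff_dvd]
        rw [show (l' : ℤ) - l = -((l : ℤ) - l') by ring]
        exact (dvd_neg).2 d6
      have d8 : l % w = l' % w := d7
      have e1 := Nat.div_add_mod l w
      have e2 := Nat.div_add_mod l' w
      have hll' : l / w = l' / w := hll
      rw [hll', d8] at e1
      omega
  rw [Finset.card_range] at hclass
  have h9 : R / w ≤ R / 11 := Nat.div_le_div_left hw11 (by norm_num)
  have h10 : 11 * (R / 11) ≤ R := Nat.mul_div_le R 11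
  omega

/-- [AA-B3] Step B: one of the triples has a coordinate `> n - 210 R`. -/
theorem partB {R N n : ℕ} (hn : 210 * (R + 1) ≤ n) (hnN : n ≤ N) (h : P2Q R N n)
    {T : Fin 3 → Fin 3 → ℕ} (hT : CE n T) : ∃ j c, n < T j c + 210 * R := by
  obtain ⟨I, hIR, hcard, hI⟩ := h
  choose! P hP using hI
  have hcovI : ∀ l ∈ I, ∃ j, Cov (P l) (T j 0) (T j 1) (T j 2) := fun l hl => hT.cov _ (hP l hl).1
  obtain ⟨j, hj⟩ : ∃ j : Fin 3, R + 11 < 11 * (I.filter
      (fun l => Cov (P l) (T j 0) (T j 1) (T j 2))).card := by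
    by_contra hcon
    push Not at hcon
    have h1 : I ⊆ (Finset.univ : Finset (Fin 3)).biUnion (fun j => I.filter
        (fun l => Cov (P l) (T j 0) (T j 1) (T j 2))) := by
      intro l hl
      obtain ⟨j, hj⟩ := hcovI l hl
      rw [Finset.mem_biUnion]
      exact ⟨j, Finset.mem_univ j, Finset.mem_filter.2 ⟨hl, hj⟩⟩
    have h2 := (Finset.card_le_card h1).trans Finset.card_biUnion_le
    rw [Fin.sum_univ_three] at h2
    have a0 := hcon 0
    have a1 := hcon 1
    have a2 := hcon 2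
    omega
  set J := I.filter (fun l => Cov (P l) (T j 0) (T j 1) (T j 2)) with hJdef
  have hJI : J ⊆ I := Finset.filter_subset _ _
  have hJR : J ⊆ range R := hJI.trans hIR
  obtain ⟨M, hM⟩ : ∃ M, M = n - (n - 1) % 210 := ⟨_, rfl⟩
  have hM1 : M % 210 = 1 := by omega
  have hMR : 210 * R ≤ M := by omega
  have hlev : ∀ l, n - lev n l = M - 210 * l := by
    intro l; unfold lev; omega
  have hlevK : ∀ l ∈ J, lev n l < 210 * R := by
    intro l hl
    have := Finset.mem_range.1 (hJR hl)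
    unfold lev
    omega
  have hmod : ∀ l ∈ J, n % P l = lev n l := by
    intro l hl
    obtain ⟨hp, hp2, hpd⟩ := hP l (hJI hl)
    have h1 := hlevK l hl
    have h2 : lev n l < P l := by
      by_contra hlt
      push Not at hlt
      have h3 : P l < 210 * R := by omega
      have h4 : 210 * R ≤ N := by omega
      have h5 : P l ^ 2 ≤ 210 * R * N := by
        calc P l ^ 2 = P l * P l := by ring
          _ ≤ (210 * R) * N := Nat.mul_le_mul h3.le (by omega)
      omega
    obtain ⟨c, hc⟩ := hpd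
    have h6 : n = P l * c + lev n l := by omega
    have h7 : n % P l = (P l * c + lev n l) % P l := by rw [← h6]
    rw [h7, Nat.mul_add_mod]
    exact Nat.mod_eq_of_lt h2
  have hcross : ∀ s : Fin 3, ∀ l ∈ J, ∀ l' ∈ J,
      (T j s - T j s % P l) * (M - 210 * l') = (T j s - T j s % P l') * (M - 210 * l) := by
    intro s l hl l' hl'
    rw [← hlev, ← hlev]
    exact prop_vec (K := 210 * R) (N := N) (T := T j) (hT.sum j) hnN (Finset.mem_filter.1 hl).2
      (Finset.mem_filter.1 hl').2 (hP l (hJI hl)).2.1 (hP l' (hJI hl')).2.1 (hmod l hl) (hmod l' hl')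
      (hlevK l hl) (hlevK l' hl') s
  have hsumv : ∀ l ∈ J, (T j 0 - T j 0 % P l) + (T j 1 - T j 1 % P l) + (T j 2 - T j 2 % P l) =
      M - 210 * l := by
    intro l hl
    have c1 := (Finset.mem_filter.1 hl).2 1
    rw [pow_one, hT.sum j, hmod l hl] at c1
    have l0 := Nat.mod_le (T j 0) (P l)
    have l1 := Nat.mod_le (T j 1) (P l)
    have l2 := Nat.mod_le (T j 2) (P l)
    have := hT.sum j
    rw [← hlev]
    omega
  have hle : ∀ s : Fin 3, ∀ l ∈ J, T j s - T j s % P l ≤ M - 210 * l := by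
    intro s l hl
    have := hsumv l hl
    fin_cases s <;> simp only [Fin.zero_eta, Fin.isValue, Fin.mk_one, Fin.reduceFinMk] <;> omega
  have hall : ∀ s : Fin 3, ∀ l ∈ J, T j s - T j s % P l = 0 ∨ T j s - T j s % P l = M - 210 * l := by
    intro s l hl
    by_contra hcon
    push Not at hcon
    have := one_class (a := fun l => T j s - T j s % P l) hJR hM1 hMR (hle s) (hcross s) hl
      hcon.1 hcon.2
    omega
  have hJne : J.Nonempty := by
    rw [← Finset.card_pos]; omega
  obtain ⟨l, hl⟩ := hJne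
  have hlR := Finset.mem_range.1 (hJR hl)
  have hs := hsumv l hl
  have hpos : 0 < M - 210 * l := by omega
  have hK := hlevK l hl
  have hL := hlev l
  have b0 := hall 0 l hl
  have b1 := hall 1 l hl
  have b2 := hall 2 l hl
  have l0 := Nat.sub_le (T j 0) (T j 0 % P l)
  have l1 := Nat.sub_le (T j 1) (T j 1 % P l)
  have l2 := Nat.sub_le (T j 2) (T j 2 % P l)
  rcases b0 with b0 | b0
  · rcases b1 with b1 | b1
    · rcases b2 with b2 | b2
      · omega
      · exact ⟨j, 2, by omega⟩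
    · exact ⟨j, 1, by omega⟩
  · exact ⟨j, 0, by omega⟩

end AA
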