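import Pool.Agent.AA.D0

set_option autoImplicit false

open Finset
open scoped Classical

namespace AA

open WD

theorem c1_mem {K x y z p : ℕ} (h : p ∈ QK K x y z) :
    p.Prime ∧ p ≠ 2 ∧ Cov p x y z ∧ p ∣ ff (x + y + z) := by
  have h' := Finset.mem_filter.mp h
  exact ⟨Nat.prime_of_mem_primeFactors h'.1, h'.2.1, h'.2.2.2, Nat.dvd_of_mem_primeFactors h'.1⟩

theorem c1_cop {K x y z K' x' y' z' p q n : ℕ} (hp : p ∈ QK K x y z) (hq : q ∈ QK K' x' y' z')
    (h : p ≠ q) : Nat.Coprime (mp n p) (mp n q) := by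
  have hc : Nat.Coprime p q := (Nat.coprime_primes (c1_mem hp).1 (c1_mem hq).1).mpr h
  exact hc.pow _ _

theorem c1_sub_mod (a m : ℕ) : (m : ℤ) ∣ (a : ℤ) - ((a % m : ℕ) : ℤ) := by
  have h : ((a % m : ℕ) : ℤ) = (a : ℤ) % (m : ℤ) := by push_cast; rfl
  rw [h]
  exact Int.dvd_self_sub_emod

theorem c1_dvd {K x y z i j k : ℕ} {w : ℤ}
    (h : ∀ p ∈ QK K x y z, x % mp (x + y + z) p = i → y % mp (x + y + z) p = j →
      z % mp (x + y + z) p = k → (mp (x + y + z) p : ℤ) ∣ w) :
    (EB K x y z i j k : ℤ) ∣ w := by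
  unfold EB
  rw [Nat.cast_prod]
  refine Finset.prod_dvd_of_coprime ?_ ?_
  · intro a ha b hb hab
    have ha' := (Finset.mem_filter.mp (Finset.mem_coe.mp ha)).1
    have hb' := (Finset.mem_filter.mp (Finset.mem_coe.mp hb)).1
    exact Nat.isCoprime_iff_coprime.mpr (c1_cop ha' hb' hab)
  · intro q hq
    have hq' := Finset.mem_filter.mp hq
    exact h q hq'.1 hq'.2.1 hq'.2.2.1 hq'.2.2.2

theorem c1_congr {K x y z x' y' z' i j k i' j' k' : ℕ} (hs : x' + y' + z' = x + y + z)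
    (h : ∀ q, Cov q x' y' z' ↔ Cov q x y z)
    (h2 : ∀ m : ℕ, (x' % m = i' ∧ y' % m = j' ∧ z' % m = k') ↔ (x % m = i ∧ y % m = j ∧ z % m = k)) :
    EB K x' y' z' i' j' k' = EB K x y z i j k := by
  unfold EB QK
  rw [hs]
  refine Finset.prod_congr ?_ (fun _ _ => rfl)
  ext p
  simp only [Finset.mem_filter]
  rw [h p, h2]

/-- [AA-C1] the blocks are positive odd numbers.
PROOF. A product of powers of odd primes (`Finset.prod_induction`, `Nat.Prime.odd_of_ne_two`, `Odd.pow`). -/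
theorem EB_odd (K x y z i j k : ℕ) : Odd (EB K x y z i j k) := by
  unfold EB
  refine Finset.prod_induction _ (fun a : ℕ => Odd a) (fun a b ha hb => ha.mul hb) odd_one ?_
  intro q hq
  obtain ⟨hp, h2, -, -⟩ := c1_mem (Finset.mem_filter.mp hq).1
  exact (hp.odd_of_ne_two h2).pow

theorem EB_pos (K x y z i j k : ℕ) : 0 < EB K x y z i j k := (EB_odd K x y z i j k).pos

/-- [AA-C1] blocks of different types are coprime: different primes (`Nat.Coprime.prod_left`, `Nat.Coprime.prod_right`, `Nat.Coprime.pow`, `Nat.coprime_primes`). -/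
theorem EB_coprime {K x y z i j k i' j' k' : ℕ} (h : i ≠ i' ∨ j ≠ j' ∨ k ≠ k') :
    Nat.Coprime (EB K x y z i j k) (EB K x y z i' j' k') := by
  unfold EB
  refine Nat.Coprime.prod_left (fun p hp => Nat.Coprime.prod_right (fun q hq => ?_))
  have hp' := Finset.mem_filter.mp hp
  have hq' := Finset.mem_filter.mp hq
  refine c1_cop hp'.1 hq'.1 (fun e => ?_)
  rw [← e] at hq'
  obtain ⟨-, a1, a2, a3⟩ := hp'
  obtain ⟨-, b1, b2, b3⟩ := hq'
  rcases h with h | h | h
  · exact h (a1.symm.trans b1)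
  · exact h (a2.symm.trans b2)
  · exact h (a3.symm.trans b3)

/-- [AA-C1] every `q = mp n p` in the product divides `x - i` since `x % q = i` (compare `WD.w3_sub_mod`, `WD.w3_dvd_int`); pairwise coprime (`Finset.prod_dvd_of_coprime` in `ℤ`). -/
theorem EB_dvd_x (K x y z i j k : ℕ) : (EB K x y z i j k : ℤ) ∣ (x : ℤ) - i := by
  refine c1_dvd (fun p _ h1 _ _ => ?_)
  have := c1_sub_mod x (mp (x + y + z) p)
  rwa [h1] at this

theorem EB_dvd_y (K x y z i j k : ℕ) : (EB K x y z i j k : ℤ) ∣ (y : ℤ) - j := by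
  refine c1_dvd (fun p _ _ h2 _ => ?_)
  have := c1_sub_mod y (mp (x + y + z) p)
  rwa [h2] at this

theorem EB_dvd_z (K x y z i j k : ℕ) : (EB K x y z i j k : ℤ) ∣ (z : ℤ) - k := by
  refine c1_dvd (fun p _ _ _ h3 => ?_)
  have := c1_sub_mod z (mp (x + y + z) p)
  rwa [h3] at this

/-- [AA-C1] the types have level at most `2`: `x % q + y % q + z % q = n % q ≤ 2` by `Cov` at the exponent `a` of `q = p ^ a` and `WD.mod_le'` (statement in `Pool/Agent/WD/W2.lean`), so for `2 < i + j + k` the filtered set is empty. -/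
theorem EB_eq_one {K x y z i j k : ℕ} (hn : 3 ≤ x + y + z) (h : 2 < i + j + k) :
    EB K x y z i j k = 1 := by
  unfold EB
  rw [Finset.filter_eq_empty_iff.mpr, Finset.prod_empty]
  intro p hp hh
  obtain ⟨a1, a2, a3⟩ := hh
  obtain ⟨hpp, h2, hc, hd⟩ := c1_mem hp
  have h1 := (mod_le hn hpp h2 hd).1
  have h3 := hc ((ff (x + y + z)).factorization p)
  unfold mp at a1 a2 a3
  omega

/-- [AA-C1] symmetry: `WD.Cov.swap`, `WD.Cov.rot` (`Pool/Agent/WD/W4.lean`), the sum does not change. -/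
theorem EB_swap (K x y z i j k : ℕ) : EB K x z y i k j = EB K x y z i j k := by
  refine c1_congr (by ring) (fun _ => ⟨fun h => h.swap, fun h => h.swap⟩) (fun m => ?_)
  tauto

theorem EB_rot (K x y z i j k : ℕ) : EB K y z x j k i = EB K x y z i j k := by
  refine c1_congr (by ring) (fun _ => ⟨fun h => h.rot.rot, fun h => h.rot⟩) (fun m => ?_)
  tauto

/-- [AA-C1] if `x = y` then only the types with `i = j` occur (`x % q = y % q`), so the set is empty. -/
theorem EB_eq_one_of_eq {K x z i j k : ℕ} (h : i ≠ j) : EB K x x z i j k = 1 := by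
  unfold EB
  rw [Finset.filter_eq_empty_iff.mpr, Finset.prod_empty]
  intro p _ hh
  exact h (hh.1.symm.trans hh.2.1)

end AA
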