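import Pool.Agent.AA.C1

set_option autoImplicit false

open Finset
open scoped Classical

namespace AA

open WD

/-- the covered part of level `0` -/
noncomputable def L0 (K x y z : ℕ) : ℕ := EB K x y z 0 0 0

/-- the covered part of level `1` -/
noncomputable def L1 (K x y z : ℕ) : ℕ := EB K x y z 1 0 0 * EB K x y z 0 1 0 * EB K x y z 0 0 1

/-- the covered part of level `2` -/
noncomputable def L2 (K x y z : ℕ) : ℕ :=
  EB K x y z 2 0 0 * EB K x y z 0 2 0 * EB K x y z 0 0 2 *
    (EB K x y z 1 1 0 * EB K x y z 1 0 1 * EB K x y z 0 1 1)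

/-- the covered part of level `s`, as a product over primes -/
noncomputable def LP (K x y z s : ℕ) : ℕ :=
  ∏ p ∈ (QK K x y z).filter (fun p => (x + y + z) % mp (x + y + z) p = s), mp (x + y + z) p

theorem c2_sum {K x y z p : ℕ} (hp : p ∈ QK K x y z) :
    x % mp (x + y + z) p + y % mp (x + y + z) p + z % mp (x + y + z) p =
      (x + y + z) % mp (x + y + z) p := by
  unfold QK at hp
  rw [Finset.mem_filter] at hp
  exact hp.2.2.2 _

theorem c2_gen (K x y z s : ℕ) (T : Finset (ℕ × ℕ × ℕ))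
    (hT : ∀ i j k, i + j + k = s → (i, j, k) ∈ T) (hT' : ∀ t ∈ T, t.1 + t.2.1 + t.2.2 = s) :
    LP K x y z s = ∏ t ∈ T, EB K x y z t.1 t.2.1 t.2.2 := by
  unfold LP
  rw [← Finset.prod_fiberwise_of_maps_to (t := T)
    (g := fun p => (x % mp (x + y + z) p, y % mp (x + y + z) p, z % mp (x + y + z) p))]
  · apply Finset.prod_congr rfl
    intro t ht
    unfold EB
    apply Finset.prod_congr _ (fun _ _ => rfl)
    rw [Finset.filter_filter]
    apply Finset.filter_congr
    intro p hp
    have h1 := c2_sum hp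
    have h2 := hT' t ht
    constructor
    · rintro ⟨-, h4⟩
      rw [← h4]
      exact ⟨rfl, rfl, rfl⟩
    · rintro ⟨h3, h4, h5⟩
      refine ⟨?_, ?_⟩
      · rw [← h1, h3, h4, h5, h2]
      · rw [h3, h4, h5]
  · intro p hp
    rw [Finset.mem_filter] at hp
    exact hT _ _ _ ((c2_sum hp.1).trans hp.2)

/-- [AA-C2a] the level is the sum of the residues.
PROOF. For `p ∈ QK K x y z` put `q = mp n p`; `x % q + y % q + z % q = n % q` by `Cov` (exponent `a` with `q = p ^ a`). So the filter set of `LP .. s` is the disjoint union of the filter sets of the `EB K x y z i j k`, `i + j + k = s` (`Finset.prod_union`, or `Finset.prod_fiberwise_of_maps_to` over the map `p ↦ (x % q, y % q, z % q)` into the explicit finite set of types). -/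
theorem LP_eq (K x y z : ℕ) : LP K x y z 0 = L0 K x y z ∧ LP K x y z 1 = L1 K x y z ∧
    LP K x y z 2 = L2 K x y z := by
  refine ⟨?_, ?_, ?_⟩
  · rw [c2_gen K x y z 0 {(0, 0, 0)}]
    · rw [Finset.prod_singleton]
      rfl
    · intro i j k h
      have hi : i = 0 := by omega
      have hj : j = 0 := by omega
      have hk : k = 0 := by omega
      subst hi hj hk
      exact Finset.mem_singleton_self _
    · intro t ht
      rw [Finset.mem_singleton] at ht
      subst ht
      rfl
  · rw [c2_gen K x y z 1 {(1, 0, 0), (0, 1, 0), (0, 0, 1)}]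
    · rw [Finset.prod_insert (by decide), Finset.prod_insert (by decide), Finset.prod_singleton]
      unfold L1
      ring
    · intro i j k h
      have h1 : (i = 1 ∧ j = 0 ∧ k = 0) ∨ (i = 0 ∧ j = 1 ∧ k = 0) ∨ (i = 0 ∧ j = 0 ∧ k = 1) := by
        omega
      rcases h1 with ⟨rfl, rfl, rfl⟩ | ⟨rfl, rfl, rfl⟩ | ⟨rfl, rfl, rfl⟩ <;> simp
    · intro t ht
      simp only [Finset.mem_insert, Finset.mem_singleton] at ht
      rcases ht with rfl | rfl | rfl <;> rfl
  · rw [c2_gen K x y z 2 {(2, 0, 0), (0, 2, 0), (0, 0, 2), (1, 1, 0), (1, 0, 1), (0, 1, 1)}]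
    · rw [Finset.prod_insert (by decide), Finset.prod_insert (by decide),
        Finset.prod_insert (by decide), Finset.prod_insert (by decide),
        Finset.prod_insert (by decide), Finset.prod_singleton]
      unfold L2
      ring
    · intro i j k h
      have h1 : (i = 2 ∧ j = 0 ∧ k = 0) ∨ (i = 0 ∧ j = 2 ∧ k = 0) ∨ (i = 0 ∧ j = 0 ∧ k = 2) ∨
          (i = 1 ∧ j = 1 ∧ k = 0) ∨ (i = 1 ∧ j = 0 ∧ k = 1) ∨ (i = 0 ∧ j = 1 ∧ k = 1) := by
        omega
      rcases h1 with ⟨rfl, rfl, rfl⟩ | ⟨rfl, rfl, rfl⟩ | ⟨rfl, rfl, rfl⟩ | ⟨rfl, rfl, rfl⟩ |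
        ⟨rfl, rfl, rfl⟩ | ⟨rfl, rfl, rfl⟩ <;> simp
    · intro t ht
      simp only [Finset.mem_insert, Finset.mem_singleton] at ht
      rcases ht with rfl | rfl | rfl | rfl | rfl | rfl <;> rfl

end AA
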