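import Pool.Agent.AA.C2

set_option autoImplicit false

open Finset
open scoped Classical

namespace AA

open WD

/-- [AA-C3a] a triple with one coordinate `> n - K` does not cover an odd prime of level `i` below the sum of the two other coordinates.
PROOF. Put `q = mp n p = p ^ a`, `a = (ff n).factorization p ≥ 1`, `K < q`. `y + z = n - x < K < q`, so `y % q = y`, `z % q = z` and `Cov` gives `x % q + y + z = n % q`. As `p` is odd, divides `n - i`, `i ≤ 2`: `q ∣ n - i` (only one of `n, n-1, n-2` is divisible by `p`), so `n % q = i` (`i ≤ 2 < q`). Hence `y + z ≤ i`, contradiction to `hi : i < y + z`. -/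
theorem not_cov {K n i p x y z : ℕ} (hK : 2 ≤ K) (hn : 3 ≤ n) (h : x + y + z = n) (hyz : y + z < K)
    (hi : i < y + z) (hi2 : i ≤ 2) (hp : p.Prime) (hp2 : p ≠ 2) (hd : p ∣ n - i) (hm : K < mp n p) :
    ¬ Cov p x y z := by
  intro hc
  have hp3 : 3 ≤ p := by
    have := hp.two_le
    omega
  have hdf : p ∣ ff n := by
    unfold ff
    interval_cases i
    · exact Dvd.dvd.mul_right (Dvd.dvd.mul_right hd _) _
    · exact Dvd.dvd.mul_right (Dvd.dvd.mul_left hd _) _
    · exact Dvd.dvd.mul_left hd _
  obtain ⟨h1, h2⟩ := mod_le hn hp hp2 hdf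
  have hq : mp n p = p ^ (ff n).factorization p := rfl
  have ha : (ff n).factorization p ≠ 0 := by
    intro h0
    rw [h0, pow_zero] at h2
    omega
  have hpq : p ∣ p ^ (ff n).factorization p := dvd_pow_self p ha
  have hnp : n % p = i := by
    have h3 : n = i + p * ((n - i) / p) := by
      rw [Nat.mul_div_cancel' hd]
      omega
    rw [h3, Nat.add_mul_mod_self_left]
    exact Nat.mod_eq_of_lt (by omega)
  have hnq : n % p ^ (ff n).factorization p = i := by
    have h3 : n % p ^ (ff n).factorization p % p = n % p := Nat.mod_mod_of_dvd _ hpq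
    rw [Nat.mod_eq_of_lt (by omega), hnp] at h3
    exact h3
  have h4 := hc ((ff n).factorization p)
  rw [h, hnq, Nat.mod_eq_of_lt (a := y) (by omega), Nat.mod_eq_of_lt (a := z) (by omega)] at h4
  have h5 : y + z ≤ i := by
    rw [← h4, add_assoc]
    exact Nat.le_add_left _ _
  exact absurd hi (not_lt.2 h5)

/-- [AA-C3b] `(n - 2, 1, 1)` does not cover a prime dividing `n` or `n - 1`.
PROOF. `Cov` at `i = 1`: `(n-2) % p + 1 % p + 1 % p = n % p`, `1 % p = 1`; `n % p` is `0` or `1`. -/
theorem not_cov_two {n p : ℕ} (hn : 3 ≤ n) (hp : p.Prime) (hd : p ∣ n ∨ p ∣ n - 1) :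
    ¬ Cov p (n - 2) 1 1 := by
  intro hc
  have h1 := hc 1
  have hp2 := hp.two_le
  rw [pow_one, Nat.mod_eq_of_lt (a := 1) (by omega)] at h1
  have h2 : n - 2 + 1 + 1 = n := by omega
  rw [h2] at h1
  rcases hd with hd | hd
  · rw [Nat.mod_eq_zero_of_dvd hd] at h1
    omega
  · have h3 : n % p = 1 := by
      have h3 : n = 1 + p * ((n - 1) / p) := by
        rw [Nat.mul_div_cancel' hd]
        omega
      rw [h3, Nat.add_mul_mod_self_left]
      exact Nat.mod_eq_of_lt (by omega)
    rw [h3] at h1
    have := Nat.zero_le ((n - 2) % p)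
    omega

end AA
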