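import Pool.Agent.AA.C2

set_option autoImplicit false

open Finset
open scoped Classical

namespace AA

open WD

/-- an odd prime divisor of `n - s` divides no other factor of `ff n` -/
theorem c4_fac {n s p : ℕ} (hn : 3 ≤ n) (hs : s ≤ 2) (hp : p.Prime) (h2 : p ≠ 2)
    (hd : p ∣ n - s) : (ff n).factorization p = (n - s).factorization p := by
  have hq3 : 3 ≤ p := by
    have := hp.two_le
    omega
  have hfac : (ff n).factorization p =
      n.factorization p + (n - 1).factorization p + (n - 2).factorization p := by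
    unfold ff
    rw [Nat.factorization_mul (Nat.mul_ne_zero (by omega) (by omega)) (by omega),
      Nat.factorization_mul (by omega) (by omega)]
    rfl
  have nd : ∀ a b : ℕ, p ∣ a → a < b → b - a ≤ 2 → ¬ p ∣ b := by
    intro a b ha hab hb2 hb
    have := Nat.dvd_sub hb ha
    have := Nat.le_of_dvd (by omega) this
    omega
  have nd' : ∀ a b : ℕ, p ∣ b → a < b → b - a ≤ 2 → ¬ p ∣ a := by
    intro a b hb hab hb2 ha
    exact nd a b ha hab hb2 hb
  rcases (by omega : s = 0 ∨ s = 1 ∨ s = 2) with h | h | h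
  · subst h
    rw [Nat.sub_zero] at hd ⊢
    have e1 : (n - 1).factorization p = 0 :=
      Nat.factorization_eq_zero_of_not_dvd (nd' _ _ hd (by omega) (by omega))
    have e2 : (n - 2).factorization p = 0 :=
      Nat.factorization_eq_zero_of_not_dvd (nd' _ _ hd (by omega) (by omega))
    rw [hfac, e1, e2, add_zero, add_zero]
  · subst h
    have e1 : n.factorization p = 0 :=
      Nat.factorization_eq_zero_of_not_dvd (nd _ _ hd (by omega) (by omega))
    have e2 : (n - 2).factorization p = 0 :=
      Nat.factorization_eq_zero_of_not_dvd (nd' _ _ hd (by omega) (by omega))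
    rw [hfac, e1, e2, add_zero, zero_add]
  · subst h
    have e1 : n.factorization p = 0 :=
      Nat.factorization_eq_zero_of_not_dvd (nd _ _ hd (by omega) (by omega))
    have e2 : (n - 1).factorization p = 0 :=
      Nat.factorization_eq_zero_of_not_dvd (nd _ _ hd (by omega) (by omega))
    rw [hfac, e1, e2, zero_add, zero_add]

theorem c4_mod {n s p : ℕ} (hn : 3 ≤ n) (hs : s ≤ 2) (hp : p.Prime) (h2 : p ≠ 2)
    (hd : p ∣ n - s) : n % mp n p = s := by
  have hm0 : n - s ≠ 0 := by omega
  have hq3 : 3 ≤ p := by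
    have := hp.two_le
    omega
  have hv : 1 ≤ (n - s).factorization p := (hp.dvd_iff_one_le_factorization hm0).1 hd
  have h3 : 3 ≤ mp n p := by
    unfold mp
    rw [c4_fac hn hs hp h2 hd]
    calc 3 ≤ p := hq3
      _ = p ^ 1 := (pow_one p).symm
      _ ≤ p ^ (n - s).factorization p := Nat.pow_le_pow_right (by omega) hv
  have hdv : mp n p ∣ n - s := by
    unfold mp
    rw [c4_fac hn hs hp h2 hd]
    exact Nat.ordProj_dvd (n - s) p
  obtain ⟨c, hc⟩ := hdv
  have h1 : n = s + mp n p * c := by omega
  calc n % mp n p = (s + mp n p * c) % mp n p := by rw [← h1]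
    _ = s % mp n p := Nat.add_mul_mod_self_left _ _ _
    _ = s := Nat.mod_eq_of_lt (by omega)

theorem c4_union_le {f : ℕ → ℕ} (A B : Finset ℕ) (hf : ∀ q ∈ A, 1 ≤ f q) :
    ∏ q ∈ A ∪ B, f q ≤ (∏ q ∈ A, f q) * ∏ q ∈ B, f q := by
  rw [← Finset.prod_union_inter]
  refine Nat.le_mul_of_pos_right _ ?_
  refine Finset.prod_pos (fun q hq => ?_)
  exact hf q (Finset.mem_inter.mp hq).1

/-- [AA-C2b] PROOF. `m = n - s ≥ 1`. `m = ∏ p ∈ m.primeFactors, p ^ m.factorization p`. For an odd prime `p ∣ n - s` (`s ≤ 2`, `p ≥ 3`) only one of `n, n - 1, n - 2` is divisible by `p`, so `m.factorization p = (ff n).factorization p` and `mp n p = p ^ m.factorization p`, and `n % mp n p = s` (as `mp n p ∣ n - s`, `s < mp n p`). Split the odd primes of `m`: those with `mp n p ≤ K` are `≤ K` (as `p ≤ mp n p`), the product of their powers is at most `K ^ K` (at most `K` primes `≤ K`, each factor `≤ K`); those with `K < mp n p` are covered by one of the two triples, so their product is at most `LP K x y z s * LP K x' y' z' s` (`Finset.prod_le_prod_of_subset_of_one_le'`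 and union; factors are `≥ 1`). The prime `2` gives `2 ^ m.factorization 2`. -/
theorem level_le {K n s : ℕ} (hK : 2 ≤ K) (hn : 3 ≤ n) (hs : s ≤ 2) {x y z x' y' z' : ℕ}
    (h : x + y + z = n) (h' : x' + y' + z' = n)
    (hc : ∀ p : ℕ, p.Prime → p ≠ 2 → p ∣ n - s → K < mp n p → Cov p x y z ∨ Cov p x' y' z') :
    n - s ≤ 2 ^ (n - s).factorization 2 * K ^ K * (LP K x y z s * LP K x' y' z' s) := by
  have hm0 : n - s ≠ 0 := by omega
  have hff : ff n ≠ 0 := (ff_pos hn).ne'
  have hdff : n - s ∣ ff n := by
    unfold ff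
    rcases (by omega : s = 0 ∨ s = 1 ∨ s = 2) with h | h | h
    · subst h
      rw [Nat.sub_zero]
      exact Dvd.dvd.mul_right (dvd_mul_right _ _) _
    · subst h
      exact Dvd.dvd.mul_right (dvd_mul_left _ _) _
    · subst h
      exact dvd_mul_left _ _
  set m := n - s with hm
  have hprod : m = ∏ q ∈ m.primeFactors, q ^ m.factorization q := by
    conv_lhs => rw [← Nat.prod_factorization_pow_eq_self hm0]
    rfl
  have hsplit : ∏ q ∈ m.primeFactors, q ^ m.factorization q ≤
      2 ^ m.factorization 2 * ∏ q ∈ m.primeFactors.erase 2, q ^ m.factorization q := by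
    by_cases hm2 : 2 ∈ m.primeFactors
    · rw [Finset.mul_prod_erase _ (fun q => q ^ m.factorization q) hm2]
    · rw [Finset.erase_eq_of_notMem hm2]
      exact Nat.le_mul_of_pos_left _ (by positivity)
  have hmp : ∀ q ∈ m.primeFactors.erase 2, q ^ m.factorization q = mp n q := by
    intro q hq
    have hq1 := Finset.mem_erase.mp hq
    have hqp := Nat.prime_of_mem_primeFactors hq1.2
    have hqd := Nat.dvd_of_mem_primeFactors hq1.2
    unfold mp
    rw [c4_fac hn hs hqp hq1.1 hqd]
  have hsplit2 : ∏ q ∈ m.primeFactors.erase 2, q ^ m.factorization q =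
      (∏ q ∈ (m.primeFactors.erase 2).filter (fun q => mp n q ≤ K), mp n q) *
        ∏ q ∈ (m.primeFactors.erase 2).filter (fun q => ¬ mp n q ≤ K), mp n q := by
    rw [Finset.prod_filter_mul_prod_filter_not]
    exact Finset.prod_congr rfl hmp
  have hA : ∏ q ∈ (m.primeFactors.erase 2).filter (fun q => mp n q ≤ K), mp n q ≤ K ^ K := by
    have h1 : ∏ q ∈ (m.primeFactors.erase 2).filter (fun q => mp n q ≤ K), mp n q ≤
        K ^ ((m.primeFactors.erase 2).filter (fun q => mp n q ≤ K)).card := by
      refine Finset.prod_le_pow_card _ _ _ (fun q hq => ?_)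
      exact (Finset.mem_filter.mp hq).2
    refine h1.trans (Nat.pow_le_pow_right (by omega) ?_)
    have h2 : (m.primeFactors.erase 2).filter (fun q => mp n q ≤ K) ⊆ Finset.Icc 1 K := by
      intro q hq
      have hq' := Finset.mem_filter.mp hq
      have hq1 := Finset.mem_erase.mp hq'.1
      have hqp := Nat.prime_of_mem_primeFactors hq1.2
      have hqd := Nat.dvd_of_mem_primeFactors hq1.2
      have hv : 1 ≤ m.factorization q := (hqp.dvd_iff_one_le_factorization hm0).1 hqd
      rw [Finset.mem_Icc]
      refine ⟨hqp.one_le, le_trans ?_ hq'.2⟩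
      rw [← hmp q hq'.1]
      calc q = q ^ 1 := (pow_one q).symm
        _ ≤ q ^ m.factorization q := Nat.pow_le_pow_right hqp.pos hv
    refine (Finset.card_le_card h2).trans ?_
    rw [Nat.card_Icc]
    omega
  have hone : ∀ (a b c : ℕ), ∀ q ∈ (QK K a b c).filter (fun q => n % mp n q = s), 1 ≤ mp n q := by
    intro a b c q hq
    have hq' := (c1_mem (Finset.mem_filter.mp hq).1).1
    exact Nat.one_le_iff_ne_zero.mpr (pow_ne_zero _ hq'.ne_zero)
  have hsub : (m.primeFactors.erase 2).filter (fun q => ¬ mp n q ≤ K) ⊆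
      (QK K x y z).filter (fun q => n % mp n q = s) ∪
        (QK K x' y' z').filter (fun q => n % mp n q = s) := by
    intro q hq
    have hq' := Finset.mem_filter.mp hq
    have hq1 := Finset.mem_erase.mp hq'.1
    have hqp := Nat.prime_of_mem_primeFactors hq1.2
    have hqd := Nat.dvd_of_mem_primeFactors hq1.2
    have hK1 : K < mp n q := not_le.mp hq'.2
    have hmem : q ∈ (ff n).primeFactors := Nat.mem_primeFactors.mpr ⟨hqp, hqd.trans hdff, hff⟩
    have hmod := c4_mod hn hs hqp hq1.1 hqd
    rw [Finset.mem_union]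
    rcases hc q hqp hq1.1 hqd hK1 with hh | hh
    · left
      refine Finset.mem_filter.mpr ⟨?_, hmod⟩
      unfold QK
      rw [h]
      exact Finset.mem_filter.mpr ⟨hmem, hq1.1, hK1, hh⟩
    · right
      refine Finset.mem_filter.mpr ⟨?_, hmod⟩
      unfold QK
      rw [h']
      exact Finset.mem_filter.mpr ⟨hmem, hq1.1, hK1, hh⟩
  have hB : ∏ q ∈ (m.primeFactors.erase 2).filter (fun q => ¬ mp n q ≤ K), mp n q ≤
      LP K x y z s * LP K x' y' z' s := by
    have hL1 : LP K x y z s = ∏ q ∈ (QK K x y z).filter (fun q => n % mp n q = s), mp n q := by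
      unfold LP
      rw [h]
    have hL2 : LP K x' y' z' s =
        ∏ q ∈ (QK K x' y' z').filter (fun q => n % mp n q = s), mp n q := by
      unfold LP
      rw [h']
    rw [hL1, hL2]
    refine le_trans ?_ (c4_union_le _ _ (hone x y z))
    refine Finset.prod_le_prod_of_subset_of_one_le' hsub (fun q hq _ => ?_)
    rcases Finset.mem_union.mp hq with hh | hh
    · exact hone _ _ _ q hh
    · exact hone _ _ _ q hh
  calc m = ∏ q ∈ m.primeFactors, q ^ m.factorization q := hprod
    _ ≤ _ := hsplit
    _ ≤ 2 ^ m.factorization 2 * (K ^ K * (LP K x y z s * LP K x' y' z' s)) := by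
      rw [hsplit2]
      exact Nat.mul_le_mul_left _ (Nat.mul_le_mul hA hB)
    _ = _ := by ring

end AA
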