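import Mathlib

set_option autoImplicit false

open Finset
open scoped Classical

namespace AA

/-- the number of ones among the first `L` binary digits -/
def ones (L u : ℕ) : ℕ := ∑ i ∈ range L, u / 2 ^ i % 2

theorem e1_ones_lt {L u : ℕ} (h : u < 2 ^ L) : ones (L + 1) u = ones L u := by
  unfold ones
  rw [sum_range_succ, Nat.div_eq_of_lt h, Nat.zero_mod, add_zero]

theorem e1_digit {L i : ℕ} (u : ℕ) (hi : i < L) : (2 ^ L + u) / 2 ^ i % 2 = u / 2 ^ i % 2 := by
  obtain ⟨k, rfl⟩ : ∃ k, L = i + (1 + k) := ⟨L - i - 1, by omega⟩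
  rw [pow_add, Nat.mul_add_div (by positivity), pow_add, pow_one, Nat.mul_add_mod]

theorem e1_ones_add {L u : ℕ} (h : u < 2 ^ L) : ones (L + 1) (2 ^ L + u) = ones L u + 1 := by
  unfold ones
  rw [sum_range_succ]
  congr 1
  · apply sum_congr rfl
    intro i hi
    exact e1_digit u (mem_range.1 hi)
  · rw [Nat.add_div_left _ (by positivity), Nat.div_eq_of_lt h]

/-- [AA-E1] PROOF. Induction on `L`: `range (2^(L+1))` is the disjoint union of `range (2^L)` and its shift by `2^L`; `ones (L+1) u = ones L u` and `ones (L+1) (u + 2^L) = ones L u + 1` for `u < 2^L`. -/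
theorem sum_pow_ones (t : ℝ) (L : ℕ) : ∑ u ∈ range (2 ^ L), t ^ ones L u = (1 + t) ^ L := by
  induction L with
  | zero => simp [ones]
  | succ L ih =>
    rw [show (2 : ℕ) ^ (L + 1) = 2 ^ L + 2 ^ L by ring, sum_range_add]
    have h1 : ∑ u ∈ range (2 ^ L), t ^ ones (L + 1) u = (1 + t) ^ L := by
      rw [← ih]
      apply sum_congr rfl
      intro u hu
      rw [e1_ones_lt (mem_range.1 hu)]
    have h2 : ∑ u ∈ range (2 ^ L), t ^ ones (L + 1) (2 ^ L + u) = (1 + t) ^ L * t := by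
      rw [← ih, sum_mul]
      apply sum_congr rfl
      intro u hu
      rw [e1_ones_add (mem_range.1 hu), pow_succ]
    rw [h1, h2]
    ring

/-- [AA-E1] few ones. PROOF. For `3 ones ≤ L`: `(1/2)^ones ≥ (1/2)^(L/3)` (real exponent), so `card · (1/2)^(L/3) ≤ (3/2)^L` (`sum_pow_ones`, `t = 1/2`), `card ≤ ((3/2) 2^(1/3))^L`. Without roots: `(card)^3 (1/2)^L ≤ ((3/2)^L)^3` because `((1/2)^ones)^3 ≥ (1/2)^L`, so `card^3 ≤ (27/4)^L ≤ (1.9^3)^L = (6.859)^L`. -/
theorem card_few (L : ℕ) :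
    (((range (2 ^ L)).filter (fun u => 3 * ones L u ≤ L)).card : ℝ) ≤ (19 / 10) ^ L := by
  have h1 : (((range (2 ^ L)).filter (fun u => 3 * ones L u ≤ L)).card : ℝ) * (4 / 5) ^ L ≤
      (189 / 125) ^ L := by
    calc (((range (2 ^ L)).filter (fun u => 3 * ones L u ≤ L)).card : ℝ) * (4 / 5) ^ L
        = ∑ u ∈ (range (2 ^ L)).filter (fun u => 3 * ones L u ≤ L), (4 / 5 : ℝ) ^ L := by
          rw [sum_const, nsmul_eq_mul]
      _ ≤ ∑ u ∈ (range (2 ^ L)).filter (fun u => 3 * ones L u ≤ L), (64 / 125 : ℝ) ^ ones L u := by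
          apply sum_le_sum
          intro u hu
          rw [show (64 / 125 : ℝ) = (4 / 5) ^ 3 by norm_num, ← pow_mul]
          exact pow_le_pow_of_le_one (by norm_num) (by norm_num) (mem_filter.1 hu).2
      _ ≤ ∑ u ∈ range (2 ^ L), (64 / 125 : ℝ) ^ ones L u := by
          apply sum_le_sum_of_subset_of_nonneg (filter_subset _ _)
          intro u _ _
          positivity
      _ = (189 / 125) ^ L := by
          rw [sum_pow_ones]
          norm_num
  have h2 : (((range (2 ^ L)).filter (fun u => 3 * ones L u ≤ L)).card : ℝ) ≤ (189 / 100) ^ L := by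
    rw [← mul_le_mul_iff_left₀ (show (0 : ℝ) < (4 / 5) ^ L by positivity), ← mul_pow]
    norm_num
    exact h1
  exact h2.trans (pow_le_pow_left₀ (by norm_num) (by norm_num) L)

/-- [AA-E1] many ones. PROOF. `t = 2`: `card^3 · 2^(2L) ≤ card^3 min (2^ones)^3 ≤ (3^L)^3`, `card^3 ≤ (27/4)^L`. -/
theorem card_many (L : ℕ) :
    (((range (2 ^ L)).filter (fun u => 2 * L ≤ 3 * ones L u)).card : ℝ) ≤ (19 / 10) ^ L := by
  have h1 : (((range (2 ^ L)).filter (fun u => 2 * L ≤ 3 * ones L u)).card : ℝ) * (25 / 16) ^ L ≤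
      (189 / 64) ^ L := by
    calc (((range (2 ^ L)).filter (fun u => 2 * L ≤ 3 * ones L u)).card : ℝ) * (25 / 16) ^ L
        = ∑ u ∈ (range (2 ^ L)).filter (fun u => 2 * L ≤ 3 * ones L u), (25 / 16 : ℝ) ^ L := by
          rw [sum_const, nsmul_eq_mul]
      _ ≤ ∑ u ∈ (range (2 ^ L)).filter (fun u => 2 * L ≤ 3 * ones L u), (125 / 64 : ℝ) ^ ones L u := by
          apply sum_le_sum
          intro u hu
          rw [show (125 / 64 : ℝ) = (5 / 4) ^ 3 by norm_num, ← pow_mul,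
            show (25 / 16 : ℝ) = (5 / 4) ^ 2 by norm_num, ← pow_mul]
          exact pow_le_pow_right₀ (by norm_num) (mem_filter.1 hu).2
      _ ≤ ∑ u ∈ range (2 ^ L), (125 / 64 : ℝ) ^ ones L u := by
          apply sum_le_sum_of_subset_of_nonneg (filter_subset _ _)
          intro u _ _
          positivity
      _ = (189 / 64) ^ L := by
          rw [sum_pow_ones]
          norm_num
  have h2 : (((range (2 ^ L)).filter (fun u => 2 * L ≤ 3 * ones L u)).card : ℝ) ≤ (189 / 100) ^ L := by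
    rw [← mul_le_mul_iff_left₀ (show (0 : ℝ) < (25 / 16) ^ L by positivity), ← mul_pow]
    norm_num
    exact h1
  exact h2.trans (pow_le_pow_left₀ (by norm_num) (by norm_num) L)

/-- the set of the `u ≤ N` with few or many ones (`L` digits) -/
noncomputable def UU (N : ℕ) : Finset ℕ :=
  (range (N + 1)).filter (fun u => 3 * ones (Nat.log 2 N + 1) u ≤ Nat.log 2 N + 1 ∨
    2 * (Nat.log 2 N + 1) ≤ 3 * ones (Nat.log 2 N + 1) u)

/-- [AA-E1] PROOF. `L = log₂ N + 1`, `N < 2^L ≤ 2 N`; `1.9 ≤ 2^(93/100)` (`1.9^100 ≤ 2^93`, `norm_num`), so `1.9^L ≤ (2^L)^(93/100) ≤ (2 N)^(93/100) ≤ 2 N^(93/100)`; `card_few` and `card_many`. -/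
theorem UU_card {N : ℕ} (hN : 1 ≤ N) : ((UU N).card : ℝ) ≤ 4 * (N : ℝ) ^ (93 / 100 : ℝ) := by
  set L := Nat.log 2 N + 1 with hL
  have h1 : N < 2 ^ L := Nat.lt_pow_succ_log_self (by norm_num) N
  have h2 : 2 ^ L ≤ 2 * N := by
    rw [hL, pow_succ, mul_comm]
    exact Nat.mul_le_mul_left 2 (Nat.pow_log_le_self 2 (by omega))
  have hsub : UU N ⊆ (range (2 ^ L)).filter (fun u => 3 * ones L u ≤ L) ∪
      (range (2 ^ L)).filter (fun u => 2 * L ≤ 3 * ones L u) := by
    intro u hu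
    unfold UU at hu
    rw [mem_filter, mem_range] at hu
    rw [mem_union, mem_filter, mem_filter, mem_range]
    have h3 : u < 2 ^ L := by omega
    rcases hu.2 with h | h
    · exact Or.inl ⟨h3, h⟩
    · exact Or.inr ⟨h3, h⟩
  have h3 : ((UU N).card : ℝ) ≤ 2 * (19 / 10 : ℝ) ^ L := by
    have h4 : ((UU N).card : ℝ) ≤ (((range (2 ^ L)).filter (fun u => 3 * ones L u ≤ L)).card : ℝ) +
        (((range (2 ^ L)).filter (fun u => 2 * L ≤ 3 * ones L u)).card : ℝ) := by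
      exact_mod_cast (card_le_card hsub).trans (card_union_le _ _)
    have h5 := card_few L
    have h6 := card_many L
    linarith
  have h19 : (19 / 10 : ℝ) ≤ (2 : ℝ) ^ (93 / 100 : ℝ) := by
    have h4 : ((19 / 10 : ℝ) ^ 100) ≤ ((2 : ℝ) ^ (93 / 100 : ℝ)) ^ 100 := by
      rw [← Real.rpow_natCast ((2 : ℝ) ^ (93 / 100 : ℝ)), ← Real.rpow_mul (by norm_num),
        show ((93 / 100 : ℝ) * ((100 : ℕ) : ℝ)) = ((93 : ℕ) : ℝ) by norm_num, Real.rpow_natCast]
      norm_num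
    exact le_of_pow_le_pow_left₀ (by norm_num) (by positivity) h4
  have h4 : (19 / 10 : ℝ) ^ L ≤ ((2 : ℝ) ^ L) ^ (93 / 100 : ℝ) := by
    calc (19 / 10 : ℝ) ^ L ≤ ((2 : ℝ) ^ (93 / 100 : ℝ)) ^ L := pow_le_pow_left₀ (by norm_num) h19 L
      _ = ((2 : ℝ) ^ L) ^ (93 / 100 : ℝ) := by
          rw [← Real.rpow_natCast, ← Real.rpow_mul (by norm_num), ← Real.rpow_natCast 2 L,
            ← Real.rpow_mul (by norm_num), mul_comm]
  have h5 : ((2 : ℝ) ^ L) ^ (93 / 100 : ℝ) ≤ 2 * (N : ℝ) ^ (93 / 100 : ℝ) := by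
    have h6 : ((2 : ℝ) ^ L) ≤ 2 * N := by exact_mod_cast h2
    calc ((2 : ℝ) ^ L) ^ (93 / 100 : ℝ) ≤ (2 * N : ℝ) ^ (93 / 100 : ℝ) :=
          Real.rpow_le_rpow (by positivity) h6 (by norm_num)
      _ = (2 : ℝ) ^ (93 / 100 : ℝ) * (N : ℝ) ^ (93 / 100 : ℝ) :=
          Real.mul_rpow (by norm_num) (by positivity)
      _ ≤ 2 * (N : ℝ) ^ (93 / 100 : ℝ) := by
          apply mul_le_mul_of_nonneg_right _ (by positivity)
          calc (2 : ℝ) ^ (93 / 100 : ℝ) ≤ (2 : ℝ) ^ (1 : ℝ) :=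
                Real.rpow_le_rpow_of_exponent_le (by norm_num) (by norm_num)
            _ = 2 := Real.rpow_one 2
  linarith

end AA
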