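import Pool.Agent.AA.E1
import Pool.Agent.AA.D0

set_option autoImplicit false

open Finset
open scoped Classical

namespace AA

open WD

/-- [AA-E2] no carries in base two: the numbers of ones add up. PROOF. `Cov` for `i` and `i + 1`: `u % 2^(i+1) = u % 2^i + 2^i (u / 2^i % 2)` (`Nat.mod_mul`/`Nat.mod_pow_succ`), so the digits add up. -/
theorem ones_add {x y z : ℕ} (h : Cov 2 x y z) (L : ℕ) :
    ones L x + ones L y + ones L z = ones L (x + y + z) := by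
  unfold ones
  rw [← Finset.sum_add_distrib, ← Finset.sum_add_distrib]
  refine Finset.sum_congr rfl fun i _ => ?_
  have h0 := h i
  have h1 := h (i + 1)
  rw [Nat.mod_pow_succ, Nat.mod_pow_succ, Nat.mod_pow_succ, Nat.mod_pow_succ] at h1
  have h2 : 2 ^ i * (x / 2 ^ i % 2 + y / 2 ^ i % 2 + z / 2 ^ i % 2) =
      2 ^ i * ((x + y + z) / 2 ^ i % 2) := by
    rw [Nat.mul_add, Nat.mul_add]
    omega
  exact Nat.eq_of_mul_eq_mul_left (by positivity) h2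

/-- moduli of levels `0, 1` -/
structure L01 (x y z : ℕ) (e : Fin 4 → ℕ) : Prop where
  odd : ∀ k, Odd (e k)
  cop : ∀ k l, k ≠ l → Nat.Coprime (e k) (e l)
  d0 : e 0 ∣ x ∧ e 0 ∣ y ∧ e 0 ∣ z
  d1 : e 1 ∣ x - 1 ∧ e 1 ∣ y ∧ e 1 ∣ z
  d2 : e 2 ∣ x ∧ e 2 ∣ y - 1 ∧ e 2 ∣ z
  d3 : e 3 ∣ x ∧ e 3 ∣ y ∧ e 3 ∣ z - 1

/-- [AA-E2] PROOF. Each `e k` divides `v (v - 1)` for `v ∈ {x, y, z}` (note `(1 - 1 : ℕ) = 0`), and `v (v-1) ∣ ff v`; for `n = x + y + z`: `e 0 ∣ n`, `e k ∣ n - 1` for `k ≥ 1` (`x ≥ 1`, so `n - 1 = (x - 1) + y + z`). The `e k` are pairwise coprime. -/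
theorem L01.dvd {x y z : ℕ} {e : Fin 4 → ℕ} (h : L01 x y z e) (hx : 0 < x) (hy : 0 < y)
    (hz : 0 < z) : (∏ k, e k) ∣ ff x ∧ (∏ k, e k) ∣ ff y ∧ (∏ k, e k) ∣ ff z ∧
      (∏ k, e k) ∣ ff (x + y + z) := by
  have key : ∀ m : ℕ, (∀ k, e k ∣ m) → (∏ k, e k) ∣ m := by
    intro m hm
    rw [Fin.prod_univ_four]
    have c01 := h.cop 0 1 (by decide)
    have c02 := h.cop 0 2 (by decide)
    have c03 := h.cop 0 3 (by decide)
    have c12 := h.cop 1 2 (by decide)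
    have c13 := h.cop 1 3 (by decide)
    have c23 := h.cop 2 3 (by decide)
    have h1 : e 0 * e 1 ∣ m := c01.mul_dvd_of_dvd_of_dvd (hm 0) (hm 1)
    have h2 : e 0 * e 1 * e 2 ∣ m :=
      (Nat.Coprime.mul_left c02 c12).mul_dvd_of_dvd_of_dvd h1 (hm 2)
    exact (Nat.Coprime.mul_left (Nat.Coprime.mul_left c03 c13) c23).mul_dvd_of_dvd_of_dvd h2 (hm 3)
  have e0 : ∀ v d : ℕ, d ∣ v → d ∣ ff v := fun v d hd => by
    unfold ff
    exact Dvd.dvd.mul_right (Dvd.dvd.mul_right hd _) _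
  have e1 : ∀ v d : ℕ, d ∣ v - 1 → d ∣ ff v := fun v d hd => by
    unfold ff
    exact Dvd.dvd.mul_right (Dvd.dvd.mul_left hd _) _
  obtain ⟨a0, b0, c0⟩ := h.d0
  obtain ⟨a1, b1, c1⟩ := h.d1
  obtain ⟨a2, b2, c2⟩ := h.d2
  obtain ⟨a3, b3, c3⟩ := h.d3
  refine ⟨key _ fun k => ?_, key _ fun k => ?_, key _ fun k => ?_, key _ fun k => ?_⟩
  · fin_cases k
    · exact e0 _ _ a0
    · exact e1 _ _ a1
    · exact e0 _ _ a2
    · exact e0 _ _ a3
  · fin_cases k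
    · exact e0 _ _ b0
    · exact e0 _ _ b1
    · exact e1 _ _ b2
    · exact e0 _ _ b3
  · fin_cases k
    · exact e0 _ _ c0
    · exact e0 _ _ c1
    · exact e0 _ _ c2
    · exact e1 _ _ c3
  · fin_cases k
    · exact e0 _ _ (Dvd.dvd.add (Dvd.dvd.add a0 b0) c0)
    · refine e1 _ _ ?_
      have h1 : x + y + z - 1 = (x - 1) + y + z := by omega
      rw [h1]
      exact Dvd.dvd.add (Dvd.dvd.add a1 b1) c1
    · refine e1 _ _ ?_
      have h1 : x + y + z - 1 = x + (y - 1) + z := by omega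
      rw [h1]
      exact Dvd.dvd.add (Dvd.dvd.add a2 b2) c2
    · refine e1 _ _ ?_
      have h1 : x + y + z - 1 = x + y + (z - 1) := by omega
      rw [h1]
      exact Dvd.dvd.add (Dvd.dvd.add a3 b3) c3

/-- [AA-E2] PROOF. `x ≤ 2`. If `x = 2`: `e 0, e 2, e 3 ∣ 2` and `e 1 ∣ 1`, all odd, so the product is `1`. If `x = 1`: `e 0 = e 2 = e 3 = 1`, the product is `e 1`, which divides `y ≥ 1` and `z ≥ 1`. -/
theorem L01.small {x y z : ℕ} {e : Fin 4 → ℕ} (h : L01 x y z e) (hx : 0 < x) (hx2 : x ≤ 2)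
    (hy : 0 < y) (hz : 0 < z) : (∏ k, e k) ≤ y ∧ (∏ k, e k) ≤ z := by
  have hx' : x = 1 ∨ x = 2 := by omega
  have odd2 : ∀ d : ℕ, Odd d → d ∣ 2 → d = 1 := by
    intro d hd h2
    rcases (Nat.dvd_prime Nat.prime_two).1 h2 with h3 | h3
    · exact h3
    · rw [h3] at hd
      exact absurd hd (by decide)
  rcases hx' with rfl | rfl
  · have h0 := Nat.dvd_one.1 h.d0.1
    have h2 := Nat.dvd_one.1 h.d2.1
    have h3 := Nat.dvd_one.1 h.d3.1
    have h4 : (∏ k, e k) = e 1 := by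
      rw [Fin.prod_univ_four, h0, h2, h3]
      ring
    rw [h4]
    exact ⟨Nat.le_of_dvd hy h.d1.2.1, Nat.le_of_dvd hz h.d1.2.2⟩
  · have h0 := odd2 _ (h.odd 0) h.d0.1
    have h2 := odd2 _ (h.odd 2) h.d2.1
    have h3 := odd2 _ (h.odd 3) h.d3.1
    have h1 : e 1 = 1 := Nat.dvd_one.1 h.d1.1
    have h4 : (∏ k, e k) = 1 := by
      rw [Fin.prod_univ_four, h0, h1, h2, h3]
      norm_num
    rw [h4]
    exact ⟨hy, hz⟩

/-- [AA-E2] symmetry: exchange of `x, y` and cyclic rotation. -/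
theorem L01.swap {x y z : ℕ} {e : Fin 4 → ℕ} (h : L01 x y z e) :
    L01 y x z ![e 0, e 2, e 1, e 3] where
  odd k := by
    fin_cases k
    · exact h.odd 0
    · exact h.odd 2
    · exact h.odd 1
    · exact h.odd 3
  cop k l hkl := by
    fin_cases k <;> fin_cases l
    · exact absurd rfl hkl
    · exact h.cop 0 2 (by decide)
    · exact h.cop 0 1 (by decide)
    · exact h.cop 0 3 (by decide)
    · exact h.cop 2 0 (by decide)
    · exact absurd rfl hkl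
    · exact h.cop 2 1 (by decide)
    · exact h.cop 2 3 (by decide)
    · exact h.cop 1 0 (by decide)
    · exact h.cop 1 2 (by decide)
    · exact absurd rfl hkl
    · exact h.cop 1 3 (by decide)
    · exact h.cop 3 0 (by decide)
    · exact h.cop 3 2 (by decide)
    · exact h.cop 3 1 (by decide)
    · exact absurd rfl hkl
  d0 := ⟨h.d0.2.1, h.d0.1, h.d0.2.2⟩
  d1 := ⟨h.d2.2.1, h.d2.1, h.d2.2.2⟩
  d2 := ⟨h.d1.2.1, h.d1.1, h.d1.2.2⟩
  d3 := ⟨h.d3.2.1, h.d3.1, h.d3.2.2⟩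

theorem L01.rot {x y z : ℕ} {e : Fin 4 → ℕ} (h : L01 x y z e) :
    L01 y z x ![e 0, e 2, e 3, e 1] where
  odd k := by
    fin_cases k
    · exact h.odd 0
    · exact h.odd 2
    · exact h.odd 3
    · exact h.odd 1
  cop k l hkl := by
    fin_cases k <;> fin_cases l
    · exact absurd rfl hkl
    · exact h.cop 0 2 (by decide)
    · exact h.cop 0 3 (by decide)
    · exact h.cop 0 1 (by decide)
    · exact h.cop 2 0 (by decide)
    · exact absurd rfl hkl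
    · exact h.cop 2 3 (by decide)
    · exact h.cop 2 1 (by decide)
    · exact h.cop 3 0 (by decide)
    · exact h.cop 3 2 (by decide)
    · exact absurd rfl hkl
    · exact h.cop 3 1 (by decide)
    · exact h.cop 1 0 (by decide)
    · exact h.cop 1 2 (by decide)
    · exact h.cop 1 3 (by decide)
    · exact absurd rfl hkl
  d0 := ⟨h.d0.2.1, h.d0.2.2, h.d0.1⟩
  d1 := ⟨h.d2.2.1, h.d2.2.2, h.d2.1⟩
  d2 := ⟨h.d3.2.1, h.d3.2.2, h.d3.1⟩
  d3 := ⟨h.d1.2.1, h.d1.2.2, h.d1.1⟩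

/-- [AA-E2] the main step. PROOF. `n = x + y + z ≤ N`, `L = log₂ N + 1`. At most one of `x, y, z` is `≤ 2`: if `x ≤ 2` then `y, z ≥ ∏ e ≥ 3` (`L01.small`), similarly for `y`, `z` (`swap`, `rot`). So two of them, say `a, b`, are `≥ 3`. If `2 L ≤ 3 ones L n` then `n ∈ UU N`. Otherwise `ones L a + ones L b ≤ ones L n < 2 L/3`, so one of `a, b`, call it `v`, has `3 ones L v ≤ L`: `v ∈ UU N` (`v ≤ N`). Take `W = ∏ e` (odd). -/
theorem L01.exists {x y z N : ℕ} {e : Fin 4 → ℕ} (h : L01 x y z e) (hx : 0 < x) (hy : 0 < y)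
    (hz : 0 < z) (hN : x + y + z ≤ N) (h2 : Cov 2 x y z) (h3 : 3 ≤ ∏ k, e k) :
    x + y + z ∈ UU N ∨ ∃ v ∈ UU N, 3 ≤ v ∧ Odd (∏ k, e k) ∧ (∏ k, e k) ∣ ff v ∧
      (∏ k, e k) ∣ ff (x + y + z) := by
  have hodd : Odd (∏ k, e k) := by
    rw [Fin.prod_univ_four]
    exact (((h.odd 0).mul (h.odd 1)).mul (h.odd 2)).mul (h.odd 3)
  obtain ⟨dx, dy, dz, dn⟩ := h.dvd hx hy hz
  set L := Nat.log 2 N + 1 with hL
  have hadd := ones_add h2 L
  by_cases hn : 2 * L ≤ 3 * ones L (x + y + z)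
  · left
    unfold UU
    rw [Finset.mem_filter, Finset.mem_range]
    exact ⟨by omega, Or.inr hn⟩
  right
  have pick : ∀ a b : ℕ, 3 ≤ a → 3 ≤ b → (∏ k, e k) ∣ ff a → (∏ k, e k) ∣ ff b → a ≤ N → b ≤ N →
      ones L a + ones L b ≤ ones L (x + y + z) →
      ∃ v ∈ UU N, 3 ≤ v ∧ Odd (∏ k, e k) ∧ (∏ k, e k) ∣ ff v ∧
      (∏ k, e k) ∣ ff (x + y + z) := by
    intro a b ha hb da db haN hbN hab
    have hcase : 3 * ones L a ≤ L ∨ 3 * ones L b ≤ L := by omega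
    rcases hcase with h5 | h5
    · refine ⟨a, ?_, ha, hodd, da, dn⟩
      unfold UU
      rw [Finset.mem_filter, Finset.mem_range]
      exact ⟨by omega, Or.inl h5⟩
    · refine ⟨b, ?_, hb, hodd, db, dn⟩
      unfold UU
      rw [Finset.mem_filter, Finset.mem_range]
      exact ⟨by omega, Or.inl h5⟩
  by_cases hx2 : x ≤ 2
  · obtain ⟨h5, h6⟩ := h.small hx hx2 hy hz
    exact pick y z (h3.trans h5) (h3.trans h6) dy dz (by omega) (by omega) (by omega)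
  by_cases hy2 : y ≤ 2
  · obtain ⟨-, h6⟩ := h.swap.small hy hy2 hx hz
    have h7 : (∏ k, (![e 0, e 2, e 1, e 3] : Fin 4 → ℕ) k) = ∏ k, e k := by
      rw [Fin.prod_univ_four, Fin.prod_univ_four]
      change e 0 * e 2 * e 1 * e 3 = e 0 * e 1 * e 2 * e 3
      ring
    rw [h7] at h6
    exact pick x z (by omega) (h3.trans h6) dx dz (by omega) (by omega) (by omega)
  · exact pick x y (by omega) (by omega) dx dy (by omega) (by omega) (by omega)

end AA
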