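import Pool.Agent.AA.E2
import Pool.Agent.WD.W12

set_option autoImplicit false

open Finset
open scoped Classical

namespace AA

open WD

/-- the exact power is coprime to the exact power of another prime -/
theorem e3_mp_cop {n p q : ℕ} (hp : p.Prime) (hq : q.Prime) (h : p ≠ q) :
    Nat.Coprime (mp n p) (mp n q) := by
  unfold mp
  exact Nat.coprime_pow_primes _ _ hp hq h

theorem e3_prime {K x y z p : ℕ} (h : p ∈ QK K x y z) : p.Prime := by
  unfold QK at h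
  rw [mem_filter] at h
  exact Nat.prime_of_mem_primeFactors h.1

theorem e3_odd (K x y z i j k : ℕ) : Odd (EB K x y z i j k) := by
  unfold EB
  refine Finset.prod_induction _ Odd (fun a b => Odd.mul) odd_one ?_
  intro p hp
  rw [mem_filter] at hp
  have hpr := e3_prime hp.1
  have h2 : p ≠ 2 := by
    have h3 := hp.1
    unfold QK at h3
    rw [mem_filter] at h3
    exact h3.2.1
  unfold mp
  exact (hpr.odd_of_ne_two h2).pow

theorem e3_cop (K x y z : ℕ) {i j k i' j' k' : ℕ} (h : ¬ (i = i' ∧ j = j' ∧ k = k')) :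
    Nat.Coprime (EB K x y z i j k) (EB K x y z i' j' k') := by
  unfold EB
  refine Nat.Coprime.prod_left fun p hp => Nat.Coprime.prod_right fun q hq => ?_
  rw [mem_filter] at hp hq
  refine e3_mp_cop (e3_prime hp.1) (e3_prime hq.1) ?_
  rintro rfl
  apply h
  obtain ⟨_, h1, h2, h3⟩ := hp
  obtain ⟨_, h4, h5, h6⟩ := hq
  exact ⟨h1.symm.trans h4, h2.symm.trans h5, h3.symm.trans h6⟩

theorem e3_prod_dvd {K x y z i j k a : ℕ}
    (h : ∀ p ∈ QK K x y z, x % mp (x + y + z) p = i → y % mp (x + y + z) p = j →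
      z % mp (x + y + z) p = k → mp (x + y + z) p ∣ a) :
    EB K x y z i j k ∣ a := by
  unfold EB
  refine Finset.prod_dvd_of_isRelPrime ?_ ?_
  · intro p hp q hq hpq
    have hp' := mem_filter.1 (mem_coe.1 hp)
    have hq' := mem_filter.1 (mem_coe.1 hq)
    exact Nat.coprime_iff_isRelPrime.1 (e3_mp_cop (e3_prime hp'.1) (e3_prime hq'.1) hpq)
  · intro p hp
    rw [mem_filter] at hp
    exact h p hp.1 hp.2.1 hp.2.2.1 hp.2.2.2

theorem e3_dvd_x (K x y z i j k : ℕ) : EB K x y z i j k ∣ x - i :=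
  e3_prod_dvd fun p _ h1 _ _ => by
    rw [← h1]
    exact Nat.dvd_sub_mod _

theorem e3_dvd_y (K x y z i j k : ℕ) : EB K x y z i j k ∣ y - j :=
  e3_prod_dvd fun p _ _ h1 _ => by
    rw [← h1]
    exact Nat.dvd_sub_mod _

theorem e3_dvd_z (K x y z i j k : ℕ) : EB K x y z i j k ∣ z - k :=
  e3_prod_dvd fun p _ _ _ h1 => by
    rw [← h1]
    exact Nat.dvd_sub_mod _

/-- [AA-E3] the blocks of levels `0, 1` of a triple are moduli as in `L01`. PROOF. For `p ∈ QK K x y z` put `m = mp n p`, `n = x + y + z`: a power of an odd prime with exponent `≥ 1`. `m ∣ x - i` for `i = x % m`. Products of powers of different primes: `Finset.prod_dvd_of_coprime`/`Finset.prod_dvd_of_isRelPrime`; coprimality of two blocks of different type: no common prime. Compare `WD.exists_str` (W3). -/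
theorem L01_EB {K x y z : ℕ} (hx : 0 < x) (hy : 0 < y) (hz : 0 < z) :
    L01 x y z ![EB K x y z 0 0 0, EB K x y z 1 0 0, EB K x y z 0 1 0, EB K x y z 0 0 1] := by
  refine ⟨?_, ?_, ?_, ?_, ?_, ?_⟩
  · intro k
    fin_cases k
    · exact e3_odd K x y z 0 0 0
    · exact e3_odd K x y z 1 0 0
    · exact e3_odd K x y z 0 1 0
    · exact e3_odd K x y z 0 0 1
  · intro k l hkl
    fin_cases k <;> fin_cases l <;> first
      | exact absurd rfl hkl
      | exact e3_cop K x y z (by omega)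
  · exact ⟨e3_dvd_x K x y z 0 0 0, e3_dvd_y K x y z 0 0 0, e3_dvd_z K x y z 0 0 0⟩
  · exact ⟨e3_dvd_x K x y z 1 0 0, e3_dvd_y K x y z 1 0 0, e3_dvd_z K x y z 1 0 0⟩
  · exact ⟨e3_dvd_x K x y z 0 1 0, e3_dvd_y K x y z 0 1 0, e3_dvd_z K x y z 0 1 0⟩
  · exact ⟨e3_dvd_x K x y z 0 0 1, e3_dvd_y K x y z 0 0 1, e3_dvd_z K x y z 0 0 1⟩

/-- [AA-E3] PROOF. By `L01.exists` with `e` of `L01_EB` (`∏ e = D01 ≥ w ≥ 3`): `XE K N w ⊆ UU N ∪ A'`, where `A'` is the image of `A = {(v, n, n)}` (`v ∈ UU N`, `3 ≤ v`, `3 ≤ n ≤ N`, some odd `W ≥ w` divides `ff v` and `ff n`) under the second coordinate. `WD.first` with `𝓤 = (UU N).filter (3 ≤ ·)`. -/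
theorem XE_card {K N : ℕ} {w B : ℝ} (hw : 3 ≤ w) (hB : DB B N) :
    ((XE K N w).card : ℝ) ≤ (UU N).card + (UU N).card * (B * (B ^ 3 * (N / w + 1)) ^ 2) := by
  set 𝓤 : Finset ℕ := (UU N).filter (fun u => 3 ≤ u) with h𝓤
  set A : Finset (ℕ × ℕ × ℕ) := ((𝓤 ×ˢ ((range (N + 1)) ×ˢ (range (N + 1)))).filter
    (fun t => ∃ W : ℕ, Odd W ∧ w ≤ W ∧ W ∣ ff t.1 ∧ W ∣ ff t.2.1 ∧ W ∣ ff t.2.2)) with hA
  have hUN : ∀ u ∈ UU N, u ≤ N := by
    intro u hu
    unfold UU at hu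
    rw [mem_filter, mem_range] at hu
    omega
  have h1 : (A.card : ℝ) ≤ 𝓤.card * (B * (B ^ 3 * (N / w + 1)) ^ 2) := by
    refine first (by linarith) hB 𝓤 ?_ A ?_
    · intro u hu
      rw [h𝓤, mem_filter] at hu
      exact ⟨hu.2, hUN u hu.1⟩
    · intro t ht
      rw [hA, mem_filter, mem_product, mem_product, mem_range, mem_range] at ht
      obtain ⟨⟨h2, h3, h4⟩, h5⟩ := ht
      exact ⟨h2, by omega, by omega, h5⟩
  have h2 : XE K N w ⊆ UU N ∪ A.image (fun t => t.2.1) := by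
    intro n hn
    unfold XE at hn
    rw [mem_filter, mem_Icc] at hn
    obtain ⟨⟨hn3, hnN⟩, x, y, z, hx, hy, hz, hsum, hcov, hw'⟩ := hn
    have hL := L01_EB (K := K) hx hy hz
    have hprod : (∏ k, ![EB K x y z 0 0 0, EB K x y z 1 0 0, EB K x y z 0 1 0,
        EB K x y z 0 0 1] k) = D01 K x y z := by
      rw [Fin.prod_univ_four]
      rfl
    have h3 : 3 ≤ D01 K x y z := by
      have : (3 : ℝ) ≤ (D01 K x y z : ℝ) := hw.trans hw'
      exact_mod_cast this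
    have h4 := L01.exists (N := N) hL hx hy hz (by omega) hcov (by rw [hprod]; exact h3)
    rw [hprod, hsum] at h4
    rw [mem_union]
    rcases h4 with h4 | ⟨v, hv, hv3, hodd, hdv, hdn⟩
    · exact Or.inl h4
    · refine Or.inr ?_
      rw [mem_image]
      refine ⟨(v, n, n), ?_, rfl⟩
      rw [hA, mem_filter, mem_product, mem_product, mem_range]
      refine ⟨⟨?_, ?_, ?_⟩, D01 K x y z, hodd, hw', hdv, hdn, hdn⟩
      · rw [h𝓤, mem_filter]
        exact ⟨hv, hv3⟩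
      · change n < N + 1
        omega
      · change n < N + 1
        omega
  have h3 : ((XE K N w).card : ℝ) ≤ (UU N).card + A.card := by
    have h4 := card_le_card h2
    have h5 := card_union_le (UU N) (A.image (fun t => t.2.1))
    have h6 : (A.image (fun t => t.2.1)).card ≤ A.card := card_image_le
    have h7 : (XE K N w).card ≤ (UU N).card + A.card := by omega
    exact_mod_cast h7
  have h4 : (𝓤.card : ℝ) ≤ (UU N).card := by
    have : 𝓤.card ≤ (UU N).card := card_le_card (filter_subset _ _)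
    exact_mod_cast this
  have h5 : 0 ≤ B * (B ^ 3 * (N / w + 1)) ^ 2 := by
    have := hB.1
    positivity
  calc ((XE K N w).card : ℝ) ≤ (UU N).card + A.card := h3
    _ ≤ (UU N).card + 𝓤.card * (B * (B ^ 3 * (N / w + 1)) ^ 2) := by linarith
    _ ≤ (UU N).card + (UU N).card * (B * (B ^ 3 * (N / w + 1)) ^ 2) := by
        have := mul_le_mul_of_nonneg_right h4 h5
        linarith

/-- [AA-E3] PROOF. `UU_card`, `B = C N^(1/1000)` (`WD.exists_DB`), `w = N^(99/100)`: `B^3 (N/w + 1) ≤ 2 C^3 N^(3/1000 + 1/100)`; total `≤ C' N^(93/100 + 2/100 + 7/1000) = C' N^(0.957)`; `WD.w_small`. -/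
theorem XE_small (K : ℕ) {ε : ℝ} (hε : 0 < ε) :
    ∃ N₀ : ℕ, ∀ N : ℕ, N₀ ≤ N → ((XE K N ((N : ℝ) ^ (99 / 100 : ℝ))).card : ℝ) ≤ ε * N := by
  obtain ⟨C, hC1, hC⟩ := exists_DB (ε := 1 / 1000) (by norm_num) (by norm_num)
  have hC0 : (0 : ℝ) < C := by linarith
  have ht1 : Filter.Tendsto (fun N : ℕ => (N : ℝ) ^ (99 / 100 : ℝ)) Filter.atTop Filter.atTop :=
    (tendsto_rpow_atTop (by norm_num)).comp tendsto_natCast_atTop_atTop
  have ht2 : Filter.Tendsto (fun N : ℕ => (N : ℝ) ^ (43 / 1000 : ℝ)) Filter.atTop Filter.atTop :=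
    (tendsto_rpow_atTop (by norm_num)).comp tendsto_natCast_atTop_atTop
  have hev := (((ht1.eventually_ge_atTop 3).and
    (ht2.eventually_ge_atTop (20 * C ^ 7 / ε))).and (Filter.eventually_ge_atTop 1))
  obtain ⟨N₀, hN₀⟩ := Filter.eventually_atTop.1 hev
  refine ⟨N₀, fun N hN => ?_⟩
  obtain ⟨⟨hw3, hbig⟩, hN1⟩ := hN₀ N hN
  have hN1' : (1 : ℝ) ≤ N := by exact_mod_cast hN1
  have hN0 : (0 : ℝ) < N := by linarith
  have hB := hC N hN1
  have h1 := XE_card (K := K) hw3 hB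
  have hU := UU_card hN1
  -- `N / w = N ^ (1/100)`
  have hNw : (N : ℝ) / (N : ℝ) ^ (99 / 100 : ℝ) = (N : ℝ) ^ (1 / 100 : ℝ) := by
    have h2 : (N : ℝ) ^ (1 / 100 : ℝ) * (N : ℝ) ^ (99 / 100 : ℝ) = N := by
      rw [← Real.rpow_add hN0]
      norm_num
    rw [div_eq_iff (Real.rpow_pos_of_pos hN0 _).ne']
    exact h2.symm
  have hge1 : (1 : ℝ) ≤ (N : ℝ) ^ (1 / 100 : ℝ) := Real.one_le_rpow hN1' (by norm_num)
  set a : ℝ := (N : ℝ) ^ (1 / 1000 : ℝ) with ha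
  have ha1 : (1 : ℝ) ≤ a := Real.one_le_rpow hN1' (by norm_num)
  have ha0 : (0 : ℝ) < a := by linarith
  have hpow : ∀ k : ℕ, a ^ k = (N : ℝ) ^ ((k : ℝ) / 1000) := by
    intro k
    rw [ha, ← Real.rpow_natCast, ← Real.rpow_mul hN0.le]
    congr 1
    ring
  have e1 : (N : ℝ) ^ (1 / 100 : ℝ) = a ^ 10 := by
    rw [hpow]
    norm_num
  have e2 : (N : ℝ) ^ (93 / 100 : ℝ) = a ^ 930 := by
    rw [hpow]
    norm_num
  have e3 : (N : ℝ) ^ (43 / 1000 : ℝ) = a ^ 43 := by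
    rw [hpow]
    norm_num
  have e4 : (N : ℝ) = a ^ 1000 := by
    rw [hpow]
    norm_num
  rw [hNw, e1] at h1
  rw [e2] at hU
  rw [e3, div_le_iff₀ hε] at hbig
  rw [e1] at hge1
  have h5 : C * a * ((C * a) ^ 3 * (a ^ 10 + 1)) ^ 2 ≤ 4 * C ^ 7 * a ^ 27 := by
    have h6 : (C * a) ^ 3 * (a ^ 10 + 1) ≤ 2 * C ^ 3 * a ^ 13 := by
      have h7 : a ^ 10 + 1 ≤ 2 * a ^ 10 := by linarith
      calc (C * a) ^ 3 * (a ^ 10 + 1) ≤ (C * a) ^ 3 * (2 * a ^ 10) :=
            mul_le_mul_of_nonneg_left h7 (by positivity)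
        _ = 2 * C ^ 3 * a ^ 13 := by ring
    have h8 : ((C * a) ^ 3 * (a ^ 10 + 1)) ^ 2 ≤ (2 * C ^ 3 * a ^ 13) ^ 2 :=
      pow_le_pow_left₀ (by positivity) h6 2
    calc C * a * ((C * a) ^ 3 * (a ^ 10 + 1)) ^ 2 ≤ C * a * (2 * C ^ 3 * a ^ 13) ^ 2 :=
          mul_le_mul_of_nonneg_left h8 (by positivity)
      _ = 4 * C ^ 7 * a ^ 27 := by ring
  have h9 : (1 : ℝ) ≤ C ^ 7 * a ^ 27 := by
    have h10 : (1 : ℝ) ≤ C ^ 7 := one_le_pow₀ hC1
    have h11 : (1 : ℝ) ≤ a ^ 27 := one_le_pow₀ ha1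
    nlinarith
  have h12 : ((XE K N ((N : ℝ) ^ (99 / 100 : ℝ))).card : ℝ) ≤ 4 * a ^ 930 * (5 * (C ^ 7 * a ^ 27)) := by
    calc ((XE K N ((N : ℝ) ^ (99 / 100 : ℝ))).card : ℝ)
        ≤ (UU N).card * (1 + C * a * ((C * a) ^ 3 * (a ^ 10 + 1)) ^ 2) := by linarith
      _ ≤ (UU N).card * (5 * (C ^ 7 * a ^ 27)) :=
          mul_le_mul_of_nonneg_left (by linarith) (Nat.cast_nonneg _)
      _ ≤ 4 * a ^ 930 * (5 * (C ^ 7 * a ^ 27)) :=
          mul_le_mul_of_nonneg_right hU (by positivity)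
  calc ((XE K N ((N : ℝ) ^ (99 / 100 : ℝ))).card : ℝ) ≤ 4 * a ^ 930 * (5 * (C ^ 7 * a ^ 27)) := h12
    _ = 20 * C ^ 7 * a ^ 957 := by ring
    _ ≤ a ^ 43 * ε * a ^ 957 := mul_le_mul_of_nonneg_right hbig (by positivity)
    _ = ε * N := by
        rw [e4]
        ring

end AA
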