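import Pool.Agent.AA.D0

set_option autoImplicit false

open Finset
open scoped Classical

namespace AA

open WD

/-- the data of a degenerate triple `(x, x, z)` with three large moduli -/
structure Deg (r : ℝ) (x z d a f : ℕ) : Prop where
  hx : 0 < x
  hz : 0 < z
  dx : (d : ℤ) ∣ x
  dz : (d : ℤ) ∣ z
  ax : (a : ℤ) ∣ x
  az : (a : ℤ) ∣ (z : ℤ) - 1
  fx : (f : ℤ) ∣ (x : ℤ) - 1
  fz : (f : ℤ) ∣ z
  da : Nat.Coprime d a
  df : Nat.Coprime d f
  af : Nat.Coprime a f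
  hd : r < d
  ha : r < a
  hf : r < f

/-- [AA-F] the exceptional set of degenerate triples -/
noncomputable def XF (N : ℕ) (r : ℝ) : Finset ℕ :=
  (Icc 3 N).filter (fun n => ∃ x z d a f : ℕ, 2 * x + z = n ∧ Deg r x z d a f)

/-- [AA-F1a] PROOF. `d a ∣ x` and `d f ∣ z` (coprime), `a f ∣ x + z - 1 ≥ 1` (`a ∣ x`, `a ∣ z - 1`; `f ∣ x - 1`, `f ∣ z`), so `x = d a x'`, `z = d f z'`, `x + z - 1 = a f e` with positive `x', z', e`; `d (a x' + f z') = 1 + e a f`; multiply by `e`: `(e a - d z') (e f - d x') = d² x' z' - e`. -/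
theorem Deg.eqn {r : ℝ} {x z d a f : ℕ} (h : Deg r x z d a f) :
    ∃ x' z' e : ℕ, 0 < x' ∧ 0 < z' ∧ 0 < e ∧ x = d * a * x' ∧ z = d * f * z' ∧
      x + z = a * f * e + 1 ∧
      ((e : ℤ) * a - d * z') * ((e : ℤ) * f - d * x') = (d : ℤ) ^ 2 * x' * z' - e := by
  have hx := h.hx
  have hz := h.hz
  have dx : d ∣ x := Int.natCast_dvd_natCast.mp h.dx
  have dz : d ∣ z := Int.natCast_dvd_natCast.mp h.dz
  have ax : a ∣ x := Int.natCast_dvd_natCast.mp h.ax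
  have fz : f ∣ z := Int.natCast_dvd_natCast.mp h.fz
  obtain ⟨x', hx'⟩ := Nat.Coprime.mul_dvd_of_dvd_of_dvd h.da dx ax
  obtain ⟨z', hz'⟩ := Nat.Coprime.mul_dvd_of_dvd_of_dvd h.df dz fz
  have ha1 : (a : ℤ) ∣ ((x + z - 1 : ℕ) : ℤ) := by
    have h1 : ((x + z - 1 : ℕ) : ℤ) = (x : ℤ) + ((z : ℤ) - 1) := by omega
    rw [h1]
    exact dvd_add h.ax h.az
  have hf1 : (f : ℤ) ∣ ((x + z - 1 : ℕ) : ℤ) := by
    have h1 : ((x + z - 1 : ℕ) : ℤ) = ((x : ℤ) - 1) + (z : ℤ) := by omega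
    rw [h1]
    exact dvd_add h.fx h.fz
  obtain ⟨e, he⟩ := Nat.Coprime.mul_dvd_of_dvd_of_dvd h.af (Int.natCast_dvd_natCast.mp ha1)
    (Int.natCast_dvd_natCast.mp hf1)
  have hx0 : 0 < x' := by
    rcases Nat.eq_zero_or_pos x' with h0 | h0
    · rw [h0, Nat.mul_zero] at hx'
      omega
    · exact h0
  have hz0 : 0 < z' := by
    rcases Nat.eq_zero_or_pos z' with h0 | h0
    · rw [h0, Nat.mul_zero] at hz'
      omega
    · exact h0
  have he0 : 0 < e := by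
    rcases Nat.eq_zero_or_pos e with h0 | h0
    · rw [h0, Nat.mul_zero] at he
      omega
    · exact h0
  have hsum : x + z = a * f * e + 1 := by omega
  refine ⟨x', z', e, hx0, hz0, he0, hx', hz', hsum, ?_⟩
  have hk : ((d * a * x' + d * f * z' : ℕ) : ℤ) = ((a * f * e + 1 : ℕ) : ℤ) := by
    rw [← hx', ← hz', hsum]
  push_cast at hk
  linear_combination (-(e : ℤ)) * hk

end AA
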