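import Pool.Agent.AA.D0

set_option autoImplicit false

open Finset
open scoped Classical

namespace AA

open WD

/-- [AA-F1b] for fixed `x', z', e, d` (positive, `d² x' z' - e = g > 0`, `g ≤ 4 N³`) there are at most `2 B` pairs `(a, f)` with `(e a - d z') (e f - d x') = g`.
PROOF. `e a - d z'` is a (positive or negative) divisor of `g`: at most `2 * g.divisors.card ≤ 2 B` values (`g.natAbs.divisors` and sign), each determines `a` (`e > 0`) and then `f` (the first factor is not zero). -/
theorem card_af {N : ℕ} {B : ℝ} (hB : DB B N) {x' z' e d g : ℕ} (he : 0 < e) (hg : 0 < g)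
    (hgN : g ≤ 4 * N ^ 3) (S : Finset (ℕ × ℕ))
    (hS : ∀ p ∈ S, ((e : ℤ) * p.1 - d * z') * ((e : ℤ) * p.2 - d * x') = g) :
    (S.card : ℝ) ≤ 2 * B := by
  have he' : (0 : ℤ) < e := by exact_mod_cast he
  have hg' : (g : ℤ) ≠ 0 := by exact_mod_cast hg.ne'
  have h1 : S.card ≤ (g.divisors ×ˢ (Finset.univ : Finset Bool)).card := by
    refine Finset.card_le_card_of_injOn
      (fun p => (((e : ℤ) * p.1 - d * z').natAbs, decide (0 ≤ (e : ℤ) * p.1 - d * z'))) ?_ ?_
    · intro p hp
      have hp' := hS p hp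
      refine Finset.mem_coe.2 (Finset.mem_product.2 ⟨?_, Finset.mem_univ _⟩)
      rw [Nat.mem_divisors]
      refine ⟨?_, hg.ne'⟩
      have h2 : ((e : ℤ) * p.1 - d * z') ∣ (g : ℤ) := ⟨_, hp'.symm⟩
      exact Int.natCast_dvd_natCast.1 (Int.natAbs_dvd.2 h2)
    · intro p hp q hq hpq
      have hp' := hS p hp
      have hq' := hS q hq
      have h2 := congrArg Prod.fst hpq
      have h3 := congrArg Prod.snd hpq
      simp only at h2 h3
      have h4 : (e : ℤ) * p.1 - d * z' = (e : ℤ) * q.1 - d * z' := by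
        have h5 : (0 ≤ (e : ℤ) * p.1 - d * z') ↔ (0 ≤ (e : ℤ) * q.1 - d * z') := by
          simpa using h3
        generalize (e : ℤ) * p.1 - d * z' = u at h2 h5
        generalize (e : ℤ) * q.1 - d * z' = v at h2 h5
        omega
      have h6 : (p.1 : ℤ) = q.1 := by
        have h7 : (e : ℤ) * p.1 = e * q.1 := by linarith
        exact mul_left_cancel₀ he'.ne' h7
      have hu : (e : ℤ) * p.1 - d * z' ≠ 0 := by
        intro h
        rw [h, zero_mul] at hp'
        exact hg' hp'.symm
      have h8 : (e : ℤ) * p.2 - d * x' = (e : ℤ) * q.2 - d * x' := by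
        refine mul_left_cancel₀ hu ?_
        rw [hp', h4, hq']
      have h9 : (p.2 : ℤ) = q.2 := by
        have h7 : (e : ℤ) * p.2 = e * q.2 := by linarith
        exact mul_left_cancel₀ he'.ne' h7
      exact Prod.ext (by exact_mod_cast h6) (by exact_mod_cast h9)
  have h2 : (g.divisors ×ˢ (Finset.univ : Finset Bool)).card = g.divisors.card * 2 := by
    rw [Finset.card_product, Finset.card_univ, Fintype.card_bool]
  have h3 := hB.2 g hg hgN
  calc (S.card : ℝ) ≤ ((g.divisors.card * 2 : ℕ) : ℝ) := by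
        exact_mod_cast h1.trans h2.le
    _ = 2 * (g.divisors.card : ℝ) := by push_cast; ring
    _ ≤ 2 * B := by linarith

end AA
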