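import Pool.Agent.AA.F1
import Pool.Agent.AA.F2

set_option autoImplicit false

open Finset
open scoped Classical

namespace AA

open WD

/-- the pairs `(a, f)` of `card_af` with `a, f ≤ N` -/
noncomputable def f3_P (N x' z' e d : ℕ) : Finset (ℕ × ℕ) :=
  (range (N + 1) ×ˢ range (N + 1)).filter (fun p =>
    0 < e ∧ 0 < d ^ 2 * x' * z' - e ∧ d ^ 2 * x' * z' - e ≤ 4 * N ^ 3 ∧
      ((e : ℤ) * p.1 - d * z') * ((e : ℤ) * p.2 - d * x') = ((d ^ 2 * x' * z' - e : ℕ) : ℤ))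

theorem f3_card {N : ℕ} {B : ℝ} (hB : DB B N) (x' z' e d : ℕ) :
    ((f3_P N x' z' e d).card : ℝ) ≤ 2 * B := by
  by_cases h : 0 < e ∧ 0 < d ^ 2 * x' * z' - e ∧ d ^ 2 * x' * z' - e ≤ 4 * N ^ 3
  · obtain ⟨h1, h2, h3⟩ := h
    exact card_af (x' := x') (z' := z') (d := d) hB h1 h2 h3 _ fun p hp =>
      (mem_filter.1 hp).2.2.2.2
  · have : f3_P N x' z' e d = ∅ := by
      refine filter_eq_empty_iff.2 fun p _ hp => h ⟨hp.1, hp.2.1, hp.2.2.1⟩
    rw [this, card_empty]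
    have := hB.1
    push_cast
    linarith

theorem f3_floor {t : ℝ} {m : ℕ} (h0 : 0 < m) (h : (m : ℝ) < t) : m ∈ Icc 1 ⌊t⌋₊ :=
  mem_Icc.2 ⟨h0, Nat.le_floor h.le⟩

theorem f3_cardI {t : ℝ} (h : 0 ≤ t) : ((Icc 1 ⌊t⌋₊).card : ℝ) ≤ t := by
  rw [Nat.card_Icc, Nat.add_sub_cancel]
  exact Nat.floor_le h

/-- `m * c * y ≤ N`, `r < m`, `r < c` give `y < N / r ^ 2` -/
theorem f3_lt {N m c y : ℕ} {r : ℝ} (hr : 1 ≤ r) (hm : r < m) (hc : r < c) (hy : 0 < y)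
    (h : m * c * y ≤ N) : (y : ℝ) < (N : ℝ) / r ^ 2 := by
  have hr0 : 0 < r := by linarith
  have hy' : (0 : ℝ) < y := by exact_mod_cast hy
  rw [lt_div_iff₀ (by positivity)]
  have h1 : ((m : ℝ) * c * y) ≤ N := by exact_mod_cast h
  have h2 : r ^ 2 < (m : ℝ) * c := by
    rw [pow_two]
    exact mul_lt_mul'' hm hc hr0.le hr0.le
  nlinarith

/-- [AA-F1c] PROOF. For `n ∈ XF` choose the data. `r < d, a, f`, so `x' < N/r²` (`x ≤ N`), `z' < N/r²`, `e < 2N/r²` (`a f e ≤ x + z ≤ N` even gives `e < N/r²`), `d ≤ x/a < N/r`. `g = d² x' z' - e > 0`: `d² x' z' ≥ d² > r²` and `e < N/r² ≤ r²` by `hr`. `g ≤ d² x' z' ≤ (d a x')(d f z') ≤ N²` `≤ 4 N³`. `n = 2 x + z` is determined by `(x', z', e, d, a, f)`. So `card ≤ (N/r²)³ (N/r) (2 B)` (number of positive integers `< t` is at most `t`). -/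
theorem XF_card {N : ℕ} (hN : 1 ≤ N) {r B : ℝ} (hr1 : 1 ≤ r) (hr : (N : ℝ) ≤ r ^ 4) (hB : DB B N) :
    ((XF N r).card : ℝ) ≤ ((N : ℝ) / r ^ 2) ^ 3 * ((N : ℝ) / r) * (2 * B) := by
  have hr0 : 0 < r := by linarith
  set A : Finset ℕ := Icc 1 ⌊(N : ℝ) / r ^ 2⌋₊ with hA
  set D : Finset ℕ := Icc 1 ⌊(N : ℝ) / r⌋₊ with hD
  set S : Finset (ℕ × ℕ × ℕ × ℕ) := A ×ˢ A ×ˢ A ×ˢ D with hS
  have hT : (0 : ℝ) ≤ (N : ℝ) / r ^ 2 := by positivity
  have hT' : (0 : ℝ) ≤ (N : ℝ) / r := by positivity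
  have hcA : (A.card : ℝ) ≤ (N : ℝ) / r ^ 2 := f3_cardI hT
  have hcD : (D.card : ℝ) ≤ (N : ℝ) / r := f3_cardI hT'
  have hsub : XF N r ⊆ S.biUnion (fun s => (f3_P N s.1 s.2.1 s.2.2.1 s.2.2.2).image
      (fun p => 2 * (s.2.2.2 * p.1 * s.1) + s.2.2.2 * p.2 * s.2.1)) := by
    intro n hn
    obtain ⟨hn1, x, z, d, a, f, hnxz, hdeg⟩ := mem_filter.1 hn
    obtain ⟨h3, hnN⟩ := mem_Icc.1 hn1
    obtain ⟨x', z', e, hx', hz', he, hx, hz, hxz, heq⟩ := hdeg.eqn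
    have hd := hdeg.hd
    have ha := hdeg.ha
    have hf := hdeg.hf
    have hx0 := hdeg.hx
    have hz0 := hdeg.hz
    have pos : ∀ m : ℕ, r < m → 0 < m := by
      intro m hm
      have : (0 : ℝ) < m := by linarith
      exact_mod_cast this
    have hd0 := pos d hd
    have ha0 := pos a ha
    have hf0 := pos f hf
    have hxN : x ≤ N := by omega
    have hzN : z ≤ N := by omega
    have b1 : (x' : ℝ) < (N : ℝ) / r ^ 2 := f3_lt hr1 hd ha hx' (by rw [← hx]; exact hxN)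
    have b2 : (z' : ℝ) < (N : ℝ) / r ^ 2 := f3_lt hr1 hd hf hz' (by rw [← hz]; exact hzN)
    have b3 : (e : ℝ) < (N : ℝ) / r ^ 2 := f3_lt hr1 ha hf he (by omega)
    have b4 : (d : ℝ) < (N : ℝ) / r := by
      rw [lt_div_iff₀ hr0]
      have h1 : d * a ≤ N := le_trans (Nat.le_mul_of_pos_right _ hx') (by rw [← hx]; exact hxN)
      have h2 : (d : ℝ) * a ≤ N := by exact_mod_cast h1
      have h4 : (0 : ℝ) < d := by exact_mod_cast hd0
      nlinarith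
    -- `e < r ^ 2 < d ^ 2`
    have b5 : e < d ^ 2 := by
      have h1 : (N : ℝ) / r ^ 2 ≤ r ^ 2 := by
        rw [div_le_iff₀ (by positivity)]
        calc (N : ℝ) ≤ r ^ 4 := hr
          _ = r ^ 2 * r ^ 2 := by ring
      have h2 : r ^ 2 < (d : ℝ) ^ 2 := pow_lt_pow_left₀ hd hr0.le (by norm_num)
      have h4 : (e : ℝ) < (d : ℝ) ^ 2 := by linarith
      exact_mod_cast h4
    have b6 : d ^ 2 ≤ d ^ 2 * x' * z' := by
      rw [mul_assoc]
      exact Nat.le_mul_of_pos_right _ (Nat.mul_pos hx' hz')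
    have b7 : d ^ 2 * x' * z' ≤ 4 * N ^ 3 := by
      calc d ^ 2 * x' * z' ≤ (d ^ 2 * x' * z') * (a * f) :=
            Nat.le_mul_of_pos_right _ (Nat.mul_pos ha0 hf0)
        _ = (d * a * x') * (d * f * z') := by ring
        _ = x * z := by rw [← hx, ← hz]
        _ ≤ N * N := Nat.mul_le_mul hxN hzN
        _ ≤ 4 * N ^ 3 := by nlinarith [Nat.mul_le_mul hN hN, Nat.mul_le_mul (Nat.mul_le_mul hN (le_refl N)) (le_refl N)]
    have b8 : a ≤ N := by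
      calc a ≤ a * (d * x') := Nat.le_mul_of_pos_right _ (Nat.mul_pos hd0 hx')
        _ = d * a * x' := by ring
        _ = x := hx.symm
        _ ≤ N := hxN
    have b9 : f ≤ N := by
      calc f ≤ f * (d * z') := Nat.le_mul_of_pos_right _ (Nat.mul_pos hd0 hz')
        _ = d * f * z' := by ring
        _ = z := hz.symm
        _ ≤ N := hzN
    refine mem_biUnion.2 ⟨(x', z', e, d), ?_, ?_⟩
    · exact mem_product.2 ⟨f3_floor hx' b1, mem_product.2 ⟨f3_floor hz' b2,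
        mem_product.2 ⟨f3_floor he b3, f3_floor hd0 b4⟩⟩⟩
    · have c1 : 0 < d ^ 2 * x' * z' - e := by omega
      have c2 : d ^ 2 * x' * z' - e ≤ 4 * N ^ 3 := by omega
      refine mem_image.2 ⟨(a, f), mem_filter.2 ⟨mem_product.2 ⟨mem_range.2 (by omega),
        mem_range.2 (by omega)⟩, he, c1, c2, ?_⟩, ?_⟩
      · simp only
        rw [heq, Nat.cast_sub (by omega)]
        push_cast
        ring
      · simp only
        rw [← hx, ← hz, hnxz]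
  calc ((XF N r).card : ℝ) ≤ ((S.biUnion (fun s => (f3_P N s.1 s.2.1 s.2.2.1 s.2.2.2).image
      (fun p => 2 * (s.2.2.2 * p.1 * s.1) + s.2.2.2 * p.2 * s.2.1))).card : ℝ) := by
        exact_mod_cast card_le_card hsub
    _ ≤ ((∑ s ∈ S, ((f3_P N s.1 s.2.1 s.2.2.1 s.2.2.2).image
      (fun p => 2 * (s.2.2.2 * p.1 * s.1) + s.2.2.2 * p.2 * s.2.1)).card : ℕ) : ℝ) := by
        exact_mod_cast card_biUnion_le
    _ = ∑ s ∈ S, (((f3_P N s.1 s.2.1 s.2.2.1 s.2.2.2).image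
      (fun p => 2 * (s.2.2.2 * p.1 * s.1) + s.2.2.2 * p.2 * s.2.1)).card : ℝ) := by push_cast; rfl
    _ ≤ ∑ _s ∈ S, (2 * B) := by
        refine sum_le_sum fun s _ => ?_
        refine le_trans ?_ (f3_card hB s.1 s.2.1 s.2.2.1 s.2.2.2)
        exact_mod_cast card_image_le
    _ = (A.card : ℝ) * ((A.card : ℝ) * ((A.card : ℝ) * D.card)) * (2 * B) := by
        rw [sum_const, nsmul_eq_mul, hS, card_product, card_product, card_product]
        push_cast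
        ring
    _ ≤ ((N : ℝ) / r ^ 2) * (((N : ℝ) / r ^ 2) * (((N : ℝ) / r ^ 2) * ((N : ℝ) / r))) * (2 * B) := by
        have hB1 := hB.1
        gcongr
    _ = ((N : ℝ) / r ^ 2) ^ 3 * ((N : ℝ) / r) * (2 * B) := by ring

end AA
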