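import Pool.Agent.AA.F3

set_option autoImplicit false

open Finset
open scoped Classical

namespace AA

open WD

/-- [AA-F1d] PROOF. `r = N^(9/20)`: `N/r² = N^(1/10)`, `N/r = N^(11/20)`, product `N^(17/20)`, `B = C N^(1/100)`; `WD.w_small`. -/
theorem XF_small {ε : ℝ} (hε : 0 < ε) :
    ∃ N₀ : ℕ, ∀ N : ℕ, N₀ ≤ N → ((XF N ((N : ℝ) ^ (9 / 20 : ℝ))).card : ℝ) ≤ ε * N := by
  obtain ⟨C, hC1, hC⟩ := exists_DB (ε := 1 / 100) (by norm_num) (by norm_num)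
  have hC0 : (0 : ℝ) < C := by linarith
  have ht : Filter.Tendsto (fun N : ℕ => (N : ℝ) ^ (14 / 100 : ℝ)) Filter.atTop Filter.atTop :=
    (tendsto_rpow_atTop (by norm_num)).comp tendsto_natCast_atTop_atTop
  have hev := (ht.eventually_ge_atTop (2 * C / ε)).and (Filter.eventually_ge_atTop 1)
  obtain ⟨N₀, hN₀⟩ := Filter.eventually_atTop.1 hev
  refine ⟨N₀, fun N hN => ?_⟩
  obtain ⟨hbig, hN1⟩ := hN₀ N hN
  have hN1' : (1 : ℝ) ≤ N := by exact_mod_cast hN1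
  have hN0 : (0 : ℝ) < N := by linarith
  have hB := hC N hN1
  set a : ℝ := (N : ℝ) ^ (1 / 100 : ℝ) with ha
  have ha1 : (1 : ℝ) ≤ a := Real.one_le_rpow hN1' (by norm_num)
  have ha0 : (0 : ℝ) < a := by linarith
  have hpow : ∀ k : ℕ, a ^ k = (N : ℝ) ^ ((k : ℝ) / 100) := by
    intro k
    rw [ha, ← Real.rpow_natCast, ← Real.rpow_mul hN0.le]
    congr 1
    ring
  have e1 : (N : ℝ) ^ (9 / 20 : ℝ) = a ^ 45 := by
    rw [hpow]
    norm_num
  have e3 : (N : ℝ) ^ (14 / 100 : ℝ) = a ^ 14 := by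
    rw [hpow]
    norm_num
  have e4 : (N : ℝ) = a ^ 100 := by
    rw [hpow]
    norm_num
  have hr1 : (1 : ℝ) ≤ a ^ 45 := one_le_pow₀ ha1
  have hr : (N : ℝ) ≤ (a ^ 45) ^ 4 := by
    rw [← pow_mul]
    conv_lhs => rw [e4]
    exact pow_le_pow_right₀ ha1 (by norm_num)
  have h1 := XF_card hN1 hr1 hr hB
  rw [e3, div_le_iff₀ hε] at hbig
  rw [e1]
  refine h1.trans ?_
  have e5 : (N : ℝ) / (a ^ 45) ^ 2 = a ^ 10 := by
    rw [div_eq_iff (by positivity)]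
    conv_lhs => rw [e4]
    ring
  have e6 : (N : ℝ) / a ^ 45 = a ^ 55 := by
    rw [div_eq_iff (by positivity)]
    conv_lhs => rw [e4]
    ring
  rw [e5, e6]
  calc (a ^ 10) ^ 3 * a ^ 55 * (2 * (C * a)) = 2 * C * a ^ 86 := by ring
    _ ≤ a ^ 14 * ε * a ^ 86 := mul_le_mul_of_nonneg_right hbig (by positivity)
    _ = ε * a ^ 100 := by ring
    _ = ε * N := by rw [← e4]

end AA
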