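import Pool.Agent.AA.C1

set_option autoImplicit false

open Finset
open scoped Classical

namespace AA

open WD

/-- four moduli attached to a triple of positive numbers: `(1 - n, x, y, z)` (sum `1`) is `≡` the
`i`-th unit vector modulo the `i`-th modulus -/
structure S4 (x y z d0 d1 d2 d3 : ℕ) : Prop where
  hx : 0 < x
  hy : 0 < y
  hz : 0 < z
  x0 : (d0 : ℤ) ∣ x
  y0 : (d0 : ℤ) ∣ y
  z0 : (d0 : ℤ) ∣ z
  x1 : (d1 : ℤ) ∣ (x : ℤ) - 1
  y1 : (d1 : ℤ) ∣ y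
  z1 : (d1 : ℤ) ∣ z
  x2 : (d2 : ℤ) ∣ x
  y2 : (d2 : ℤ) ∣ (y : ℤ) - 1
  z2 : (d2 : ℤ) ∣ z
  x3 : (d3 : ℤ) ∣ x
  y3 : (d3 : ℤ) ∣ y
  z3 : (d3 : ℤ) ∣ (z : ℤ) - 1

/-- [AA-G1a] PROOF. `EB_dvd_x`, `EB_dvd_y`, `EB_dvd_z`. -/
theorem S4_of_EB {K x y z : ℕ} (hx : 0 < x) (hy : 0 < y) (hz : 0 < z) :
    S4 x y z (EB K x y z 0 0 0) (EB K x y z 1 0 0) (EB K x y z 0 1 0) (EB K x y z 0 0 1) := by
  have hX := fun i j k => EB_dvd_x K x y z i j k
  have hY := fun i j k => EB_dvd_y K x y z i j k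
  have hZ := fun i j k => EB_dvd_z K x y z i j k
  exact
    { hx := hx
      hy := hy
      hz := hz
      x0 := by simpa using hX 0 0 0
      y0 := by simpa using hY 0 0 0
      z0 := by simpa using hZ 0 0 0
      x1 := by simpa using hX 1 0 0
      y1 := by simpa using hY 1 0 0
      z1 := by simpa using hZ 1 0 0
      x2 := by simpa using hX 0 1 0
      y2 := by simpa using hY 0 1 0
      z2 := by simpa using hZ 0 1 0
      x3 := by simpa using hX 0 0 1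
      y3 := by simpa using hY 0 0 1
      z3 := by simpa using hZ 0 0 1 }

theorem g1_cop {a b : ℕ} {w : ℤ} (h1 : (a : ℤ) ∣ w) (h2 : (b : ℤ) ∣ w - 1) :
    Nat.Coprime a b := by
  rw [← Nat.isCoprime_iff_coprime]
  obtain ⟨s, hs⟩ := h1
  obtain ⟨t, ht⟩ := h2
  exact ⟨s, -t, by linear_combination ht - hs⟩

/-- [AA-G1b] the moduli are pairwise coprime (a common divisor of `d0` and `d1` divides `x` and `x - 1`, of `d1` and `d2` divides `x - 1` and `x`, ..). -/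
theorem S4.cop {x y z d0 d1 d2 d3 : ℕ} (h : S4 x y z d0 d1 d2 d3) :
    Nat.Coprime d0 d1 ∧ Nat.Coprime d0 d2 ∧ Nat.Coprime d0 d3 ∧ Nat.Coprime d1 d2 ∧
      Nat.Coprime d1 d3 ∧ Nat.Coprime d2 d3 :=
  ⟨g1_cop h.x0 h.x1, g1_cop h.y0 h.y2, g1_cop h.z0 h.z3, g1_cop h.y1 h.y2,
    g1_cop h.z1 h.z3, g1_cop h.z2 h.z3⟩

/-- the data of a pair `(H P, H Q)` with `u v` the complementary moduli, `ε = 1` or `ε = -1` -/
structure Tup (ε : ℤ) (P Q u v H : ℕ) : Prop where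
  hP : 0 < P
  hQ : 0 < Q
  hH : 0 < H
  hu : u ∣ Q
  hv : v ∣ P
  cop : Nat.Coprime u v
  e1 : (u : ℤ) ∣ (H : ℤ) * P - ε
  e2 : (v : ℤ) ∣ (H : ℤ) * Q - 1

/-- [AA-G1c] type I: the pair `(y, z)` and `H = d0 d1`.
PROOF. `d0, d1 ∣ y`, coprime, so `H ∣ y`, `y = H P`; similarly `z = H Q`. `d3 ∣ y` and `d3` is coprime to `H`, so `d3 ∣ P`; `d2 ∣ z`, so `d2 ∣ Q`. `d2 ∣ y - 1`, `d3 ∣ z - 1`. Everything is positive since `y, z > 0`. -/
theorem S4.typeI {x y z d0 d1 d2 d3 : ℕ} (h : S4 x y z d0 d1 d2 d3) :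
    ∃ P Q : ℕ, y = d0 * d1 * P ∧ z = d0 * d1 * Q ∧ Tup 1 P Q d2 d3 (d0 * d1) := by
  obtain ⟨c01, c02, c03, c12, c13, c23⟩ := h.cop
  have hy := h.hy
  have hz := h.hz
  obtain ⟨P, hP⟩ : d0 * d1 ∣ y := c01.mul_dvd_of_dvd_of_dvd
    (Int.natCast_dvd_natCast.mp h.y0) (Int.natCast_dvd_natCast.mp h.y1)
  obtain ⟨Q, hQ⟩ : d0 * d1 ∣ z := c01.mul_dvd_of_dvd_of_dvd
    (Int.natCast_dvd_natCast.mp h.z0) (Int.natCast_dvd_natCast.mp h.z1)
  refine ⟨P, Q, hP, hQ, ?_⟩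
  have hHP : 0 < d0 * d1 * P := by rw [← hP]; exact hy
  have hHQ : 0 < d0 * d1 * Q := by rw [← hQ]; exact hz
  exact
    { hP := Nat.pos_of_mul_pos_left hHP
      hQ := Nat.pos_of_mul_pos_left hHQ
      hH := Nat.pos_of_mul_pos_right hHP
      hu := by
        have h1 : d2 ∣ d0 * d1 * Q := by rw [← hQ]; exact Int.natCast_dvd_natCast.mp h.z2
        exact (Nat.Coprime.mul_right c02.symm c12.symm).dvd_of_dvd_mul_left h1
      hv := by
        have h1 : d3 ∣ d0 * d1 * P := by rw [← hP]; exact Int.natCast_dvd_natCast.mp h.y3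
        exact (Nat.Coprime.mul_right c03.symm c13.symm).dvd_of_dvd_mul_left h1
      cop := c23
      e1 := by
        have h1 := h.y2
        rw [hP] at h1
        push_cast at h1 ⊢
        exact h1
      e2 := by
        have h1 := h.z3
        rw [hQ] at h1
        push_cast at h1 ⊢
        exact h1 }

/-- [AA-G1d] type II: the pair `(n - 1, x)` and `H = d2 d3`.
PROOF. `d1, d2, d3` divide `n - 1 = (x - 1) + y + z` (and its permutations), pairwise coprime; so `n - 1 = d2 d3 P` with `d1 ∣ P`; `x = d2 d3 Q`, `d0 ∣ x` so `d0 ∣ Q`; `d0 ∣ n = H P + 1`; `d1 ∣ x - 1`. -/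
theorem S4.typeII {x y z d0 d1 d2 d3 : ℕ} (h : S4 x y z d0 d1 d2 d3) :
    ∃ P Q : ℕ, x + y + z = d2 * d3 * P + 1 ∧ x = d2 * d3 * Q ∧ Tup (-1) P Q d0 d1 (d2 * d3) := by
  obtain ⟨c01, c02, c03, c12, c13, c23⟩ := h.cop
  have hx := h.hx
  have hy := h.hy
  have hz := h.hz
  have hn : ((x + y + z - 1 : ℕ) : ℤ) = (x : ℤ) + y + z - 1 := by
    rw [Nat.cast_sub (by omega)]; push_cast; ring
  have n1 : d1 ∣ x + y + z - 1 := by
    rw [← Int.natCast_dvd_natCast, hn]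
    have h1 := dvd_add (dvd_add h.x1 h.y1) h.z1
    have h2 : (x : ℤ) - 1 + y + z = (x : ℤ) + y + z - 1 := by ring
    rwa [h2] at h1
  have n2 : d2 ∣ x + y + z - 1 := by
    rw [← Int.natCast_dvd_natCast, hn]
    have h1 := dvd_add (dvd_add h.x2 h.y2) h.z2
    have h2 : (x : ℤ) + (y - 1) + z = (x : ℤ) + y + z - 1 := by ring
    rwa [h2] at h1
  have n3 : d3 ∣ x + y + z - 1 := by
    rw [← Int.natCast_dvd_natCast, hn]
    have h1 := dvd_add (dvd_add h.x3 h.y3) h.z3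
    have h2 : (x : ℤ) + y + (z - 1) = (x : ℤ) + y + z - 1 := by ring
    rwa [h2] at h1
  obtain ⟨P, hP⟩ : d2 * d3 ∣ x + y + z - 1 := c23.mul_dvd_of_dvd_of_dvd n2 n3
  obtain ⟨Q, hQ⟩ : d2 * d3 ∣ x := c23.mul_dvd_of_dvd_of_dvd
    (Int.natCast_dvd_natCast.mp h.x2) (Int.natCast_dvd_natCast.mp h.x3)
  have hP' : x + y + z = d2 * d3 * P + 1 := by omega
  refine ⟨P, Q, hP', hQ, ?_⟩
  have hHP : 0 < d2 * d3 * P := by omega
  have hHQ : 0 < d2 * d3 * Q := by rw [← hQ]; exact hx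
  exact
    { hP := Nat.pos_of_mul_pos_left hHP
      hQ := Nat.pos_of_mul_pos_left hHQ
      hH := Nat.pos_of_mul_pos_right hHP
      hu := by
        have h1 : d0 ∣ d2 * d3 * Q := by rw [← hQ]; exact Int.natCast_dvd_natCast.mp h.x0
        exact (Nat.Coprime.mul_right c02 c03).dvd_of_dvd_mul_left h1
      hv := by
        have h1 : d1 ∣ d2 * d3 * P := by rw [← hP]; exact n1
        exact (Nat.Coprime.mul_right c12 c13).dvd_of_dvd_mul_left h1
      cop := c01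
      e1 := by
        have h1 := dvd_add (dvd_add h.x0 h.y0) h.z0
        have h2 : (x : ℤ) + y + z = ((d2 * d3 : ℕ) : ℤ) * P - -1 := by
          have h3 : ((x + y + z : ℕ) : ℤ) = ((d2 * d3 * P + 1 : ℕ) : ℤ) := by rw [hP']
          push_cast at h3 ⊢
          linarith
        rwa [h2] at h1
      e2 := by
        have h1 := h.x1
        rw [hQ] at h1
        push_cast at h1 ⊢
        exact h1 }

end AA
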