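import Pool.Agent.AA.G5

set_option autoImplicit false

open Finset
open scoped Classical

namespace AA

open WD

/-- the tuples `(P, Q, u, v, H)` with `H P, H Q ≤ N`, `u v ≤ H` and `w < H u v` -/
noncomputable def TT (ε : ℤ) (N : ℕ) (w : ℝ) : Finset (ℕ × ℕ × ℕ × ℕ × ℕ) :=
  ((range (N + 1)) ×ˢ ((range (N + 1)) ×ˢ ((range (N + 1)) ×ˢ ((range (N + 1)) ×ˢ
    (range (N + 1)))))).filter (fun t => Tup ε t.1 t.2.1 t.2.2.1 t.2.2.2.1 t.2.2.2.2 ∧
      t.2.2.2.2 * t.1 ≤ N ∧ t.2.2.2.2 * t.2.1 ≤ N ∧ t.2.2.1 * t.2.2.2.1 ≤ t.2.2.2.2 ∧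
      w < ((t.2.2.2.2 * (t.2.2.1 * t.2.2.2.1) : ℕ) : ℝ))

/-- [AA-G2a] for fixed `P, Q, u, v` (all positive), `m = max P Q`.
PROOF. Let `S` be the finset. If it is empty there is nothing to do. Otherwise some `H₀ ∈ S`, `w < H₀ u v ≤ (N/m) u v`, so `(N/m)/(u v) ≤ N²/(w m²)`. All elements are in one class modulo `u v` (`Tup.congr`) and `≤ N/m`; `WD.card_class` with `L = N/m` gives `card ≤ (N/m)/(u v) + 1`. -/
theorem card_H {ε : ℤ} (hε : ε = 1 ∨ ε = -1) {N : ℕ} {w : ℝ} (hw : 0 < w) (P Q u v : ℕ)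
    (hP : 0 < P) (hQ : 0 < Q) :
    (((range (N + 1)).filter (fun H => (P, Q, u, v, H) ∈ TT ε N w)).card : ℝ) ≤
      (N : ℝ) ^ 2 / (w * ((max P Q : ℕ) : ℝ) ^ 2) + 1 := by
  set S := (range (N + 1)).filter (fun H => (P, Q, u, v, H) ∈ TT ε N w) with hS
  set m := max P Q with hm
  have hmpos : 0 < m := lt_of_lt_of_le hP (le_max_left _ _)
  have hmR : (0 : ℝ) < (m : ℝ) := by exact_mod_cast hmpos
  have hmem : ∀ H ∈ S, Tup ε P Q u v H ∧ H * m ≤ N ∧ w < ((H * (u * v) : ℕ) : ℝ) := by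
    intro H hH
    rw [hS, mem_filter] at hH
    obtain ⟨-, h⟩ := hH
    rw [TT, mem_filter] at h
    obtain ⟨-, h1, h2, h3, -, h4⟩ := h
    refine ⟨h1, ?_, h4⟩
    rcases le_total P Q with h5 | h5
    · rw [hm, max_eq_right h5]
      exact h3
    · rw [hm, max_eq_left h5]
      exact h2
  rcases S.eq_empty_or_nonempty with h0 | ⟨H0, hH0⟩
  · rw [h0, card_empty, Nat.cast_zero]
    positivity
  · obtain ⟨t0, b0, c0⟩ := hmem H0 hH0
    have huv : 0 < u * v := by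
      rcases Nat.eq_zero_or_pos (u * v) with h | h
      · rw [h, mul_zero, Nat.cast_zero] at c0
        exact absurd c0 (not_lt.2 hw.le)
      · exact h
    have huvR : (0 : ℝ) < ((u * v : ℕ) : ℝ) := by exact_mod_cast huv
    have hL0 : (0 : ℝ) ≤ (N : ℝ) / m := by positivity
    have hL : ∀ H ∈ S, (H : ℝ) ≤ (N : ℝ) / m := by
      intro H hH
      rw [le_div_iff₀ hmR]
      exact_mod_cast (hmem H hH).2.1
    have h1 := card_class huv hL0 hL (fun a ha b hb => by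
      have h2 := Tup.congr hε (hmem b hb).1 (hmem a ha).1
      exact (Nat.modEq_iff_dvd).1 h2)
    refine h1.trans (add_le_add ?_ le_rfl)
    have h3 : w ≤ (N : ℝ) / m * ((u * v : ℕ) : ℝ) := by
      refine c0.le.trans ?_
      rw [Nat.cast_mul]
      exact mul_le_mul_of_nonneg_right (hL H0 hH0) huvR.le
    have h4 : (N : ℝ) ^ 2 / (w * (m : ℝ) ^ 2) = ((N : ℝ) / m) * ((N : ℝ) / m) / w := by
      field_simp
    rw [h4, div_le_div_iff₀ huvR hw, mul_assoc]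
    exact mul_le_mul_of_nonneg_left h3 hL0

end AA
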