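import Pool.Agent.AA.G7

set_option autoImplicit false

open Finset
open scoped Classical

namespace AA

open WD

/-- [AA-G] the exceptional set of Lemma G -/
noncomputable def XG (N : ℕ) (w : ℝ) : Finset ℕ :=
  (Icc 3 N).filter (fun n => ∃ x y z d0 d1 d2 d3 : ℕ, x + y + z = n ∧ S4 x y z d0 d1 d2 d3 ∧
    w < ((d0 * d1 * d2 * d3 : ℕ) : ℝ))

/-- membership in `TT` -/
theorem g3_mem {ε : ℤ} {N : ℕ} {w : ℝ} {P Q u v H : ℕ} (h : Tup ε P Q u v H) (hP : H * P ≤ N)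
    (hQ : H * Q ≤ N) (huv : u * v ≤ H) (hw : w < ((H * (u * v) : ℕ) : ℝ)) :
    (P, Q, u, v, H) ∈ TT ε N w := by
  have hH1 : 1 ≤ H := h.hH
  have hP1 : 1 ≤ P := h.hP
  have hQ1 : 1 ≤ Q := h.hQ
  have h1 : P ≤ N := (Nat.le_mul_of_pos_left P h.hH).trans hP
  have h2 : Q ≤ N := (Nat.le_mul_of_pos_left Q h.hH).trans hQ
  have h3 : H ≤ N := (Nat.le_mul_of_pos_right H h.hP).trans hP
  have h4 : u ≤ N := (Nat.le_of_dvd h.hQ h.hu).trans h2
  have h5 : v ≤ N := (Nat.le_of_dvd h.hP h.hv).trans h1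
  unfold TT
  rw [Finset.mem_filter]
  refine ⟨?_, h, hP, hQ, huv, hw⟩
  simp only [Finset.mem_product, Finset.mem_range]
  omega

/-- the relation between `n` and the pair (tuple, `d0`) in type I -/
def g3_R (N : ℕ) (w : ℝ) (n : ℕ) (s : (_ : ℕ × ℕ × ℕ × ℕ × ℕ) × ℕ) : Prop :=
  s.1 ∈ TT 1 N w ∧ s.2 ∈ s.1.2.2.2.2.divisors ∧ n ≤ N ∧ ∃ x y z d1 : ℕ, x + y + z = n ∧
    S4 x y z s.2 d1 s.1.2.2.1 s.1.2.2.2.1 ∧ s.2 * d1 = s.1.2.2.2.2

theorem g3_unique {N : ℕ} {w : ℝ} (hw : (N : ℝ) ≤ w) {n n' : ℕ}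
    {s : (_ : ℕ × ℕ × ℕ × ℕ × ℕ) × ℕ} (h : g3_R N w n s) (h' : g3_R N w n' s) : n = n' := by
  obtain ⟨⟨P, Q, u, v, H⟩, d0⟩ := s
  obtain ⟨ht, hd, hn, x, y, z, d1, hs, h4, he⟩ := h
  obtain ⟨-, -, hn', x', y', z', d1', hs', h4', he'⟩ := h'
  simp only at ht hd hn hs h4 he hn' hs' h4' he'
  unfold TT at ht
  rw [Finset.mem_filter] at ht
  obtain ⟨-, hT, -, -, -, hwH⟩ := ht
  simp only at hT hwH
  have hH : 0 < H := hT.hH
  have hd0 : 0 < d0 := by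
    rcases Nat.eq_zero_or_pos d0 with h0 | h0
    · rw [h0, zero_mul] at he
      omega
    · exact h0
  have hd1 : d1 = d1' := by
    apply Nat.eq_of_mul_eq_mul_left hd0
    rw [he, he']
  subst hd1
  have hprod : N < d0 * d1 * u * v := by
    have h1 : ((N : ℕ) : ℝ) < ((H * (u * v) : ℕ) : ℝ) := lt_of_le_of_lt hw hwH
    have h2 : N < H * (u * v) := by exact_mod_cast h1
    rw [he, mul_assoc]
    exact h2
  rw [← hs, ← hs']
  exact S4.unique h4 h4' (by rw [hs]; omega) (by rw [hs']; omega)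

theorem g3_typeI {N n : ℕ} {w : ℝ} (hn : n ≤ N) {x y z d0 d1 d2 d3 : ℕ} (hs : x + y + z = n)
    (h : S4 x y z d0 d1 d2 d3) (hle : d2 * d3 ≤ d0 * d1)
    (hw : w < ((d0 * d1 * d2 * d3 : ℕ) : ℝ)) : ∃ s, g3_R N w n s := by
  obtain ⟨P, Q, hy, hz, hT⟩ := h.typeI
  refine ⟨⟨(P, Q, d2, d3, d0 * d1), d0⟩, ?_, ?_, hn, x, y, z, d1, hs, h, rfl⟩
  · apply g3_mem hT
    · rw [← hy]; omega
    · rw [← hz]; omega
    · exact hle
    · rw [← mul_assoc]
      exact hw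
  · rw [Nat.mem_divisors]
    exact ⟨Dvd.intro _ rfl, hT.hH.ne'⟩

theorem g3_typeII {N n : ℕ} {w : ℝ} (hn : n ≤ N) {x y z d0 d1 d2 d3 : ℕ} (hs : x + y + z = n)
    (h : S4 x y z d0 d1 d2 d3) (hle : d0 * d1 < d2 * d3)
    (hw : w < ((d0 * d1 * d2 * d3 : ℕ) : ℝ)) :
    n ∈ (TT (-1) N w).image (fun t => t.2.2.2.2 * t.1 + 1) := by
  obtain ⟨P, Q, hy, hz, hT⟩ := h.typeII
  rw [Finset.mem_image]
  refine ⟨(P, Q, d0, d1, d2 * d3), ?_, ?_⟩
  · apply g3_mem hT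
    · omega
    · rw [← hz]; omega
    · exact hle.le
    · have h1 : d2 * d3 * (d0 * d1) = d0 * d1 * d2 * d3 := by ring
      rw [h1]
      exact hw
  · rw [← hs]
    exact hy.symm

theorem g3_sub (N : ℕ) (w : ℝ) : XG N w ⊆
    (XG N w).filter (fun n => ∃ s, g3_R N w n s) ∪
      (TT (-1) N w).image (fun t => t.2.2.2.2 * t.1 + 1) := by
  intro n hn
  have hn' := hn
  unfold XG at hn'
  rw [Finset.mem_filter, Finset.mem_Icc] at hn'
  obtain ⟨⟨-, hnN⟩, x, y, z, d0, d1, d2, d3, hs, h, hw⟩ := hn'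
  rw [Finset.mem_union]
  rcases le_or_gt (d2 * d3) (d0 * d1) with hle | hle
  · left
    rw [Finset.mem_filter]
    exact ⟨hn, g3_typeI hnN hs h hle hw⟩
  · right
    exact g3_typeII hnN hs h hle hw

theorem g3_card1 {N : ℕ} (hN : 1 ≤ N) {w B : ℝ} (hw : (N : ℝ) ≤ w) (hB : DB B N) :
    (((XG N w).filter (fun n => ∃ s, g3_R N w n s)).card : ℝ) ≤ B * ((TT 1 N w).card : ℝ) := by
  have h1 : (XG N w).filter (fun n => ∃ s, g3_R N w n s) ⊆
      ((TT 1 N w).sigma (fun t => t.2.2.2.2.divisors)).image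
        (fun s => if h : ∃ n, g3_R N w n s then h.choose else 0) := by
    intro n hn
    rw [Finset.mem_filter] at hn
    obtain ⟨-, s, hs⟩ := hn
    rw [Finset.mem_image]
    refine ⟨s, ?_, ?_⟩
    · rw [Finset.mem_sigma]
      exact ⟨hs.1, hs.2.1⟩
    · have hex : ∃ n, g3_R N w n s := ⟨n, hs⟩
      rw [dif_pos hex]
      exact g3_unique hw hex.choose_spec hs
  have h2 := (Finset.card_le_card h1).trans Finset.card_image_le
  rw [Finset.card_sigma] at h2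
  have h3 : ((∑ t ∈ TT 1 N w, t.2.2.2.2.divisors.card : ℕ) : ℝ) ≤ ∑ _t ∈ TT 1 N w, B := by
    push_cast
    apply Finset.sum_le_sum
    intro t ht
    unfold TT at ht
    rw [Finset.mem_filter] at ht
    obtain ⟨hr, hT, -⟩ := ht
    simp only [Finset.mem_product, Finset.mem_range] at hr
    apply hB.2 _ hT.hH
    have h4 : N ≤ N ^ 3 := Nat.le_self_pow (by norm_num) N
    omega
  rw [Finset.sum_const, nsmul_eq_mul] at h3
  calc _ ≤ ((∑ t ∈ TT 1 N w, t.2.2.2.2.divisors.card : ℕ) : ℝ) := by exact_mod_cast h2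
    _ ≤ _ := h3
    _ = _ := mul_comm _ _

/-- [AA-G3] PROOF. Let `n ∈ XG` with `x, y, z, d0, .., d3` (choose them for every `n`).
Case `d2 d3 ≤ d0 d1`: type I (`S4.typeI`): `(P, Q, d2, d3, d0 d1) ∈ TT 1 N w` (`H P = y ≤ N`, `H Q = z ≤ N`; `d2 ≤ Q ≤ N`, `d3 ≤ P ≤ N`); the number `n` is determined by this tuple and `d0 ∣ H` (`d1 = H/d0`, `S4.unique`, `n ≤ N ≤ w < d0 d1 d2 d3`), `d0 ∈ H.divisors`, at most `B` values (`H ≤ N`). So these `n` are at most `(TT 1 N w).card * B`: the map `n ↦ (tuple, d0)` is injective into a `Finset.sigma`, or use `card_le_card_of_injOn` into `(TT 1 N w).biUnion ..`.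
Case `d0 d1 < d2 d3`: type II (`S4.typeII`): `(P, Q, d0, d1, d2 d3) ∈ TT (-1) N w` and `n = H P + 1`: at most `(TT (-1) N w).card`. Then `card_TT`. -/
theorem XG_card {N : ℕ} (hN : 1 ≤ N) {w B : ℝ} (hw : (N : ℝ) ≤ w) (hB : DB B N) :
    ((XG N w).card : ℝ) ≤ (B + 1) * (B ^ 2 * ((N : ℝ) ^ 2 / w * (3 + 2 * Real.log N))) := by
  have hw1 : 1 ≤ w := le_trans (by exact_mod_cast hN) hw
  have h1 := Finset.card_le_card (g3_sub N w)
  have h2 := h1.trans (Finset.card_union_le _ _)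
  have h3 := g3_card1 hN hw hB
  have h4 : (((TT (-1) N w).image (fun t => t.2.2.2.2 * t.1 + 1)).card : ℝ) ≤
      ((TT (-1) N w).card : ℝ) := by exact_mod_cast Finset.card_image_le
  have h5 := card_TT (ε := 1) (Or.inl rfl) hN hw1 hB
  have h6 := card_TT (ε := -1) (Or.inr rfl) hN hw1 hB
  have h7 : ((XG N w).card : ℝ) ≤ (((XG N w).filter (fun n => ∃ s, g3_R N w n s)).card : ℝ) +
      (((TT (-1) N w).image (fun t => t.2.2.2.2 * t.1 + 1)).card : ℝ) := by exact_mod_cast h2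
  have hB0 : 0 ≤ B := le_trans zero_le_one hB.1
  have h8 := mul_le_mul_of_nonneg_left h5 hB0
  linarith

end AA
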