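import Pool.Agent.AA.G3

set_option autoImplicit false

open Finset
open scoped Classical

namespace AA

open WD

theorem g4_small (K : ℝ) {δ ε : ℝ} (hδ : 0 < δ) (hε : 0 < ε) :
    ∃ N₀ : ℕ, ∀ N : ℕ, N₀ ≤ N → K * (N : ℝ) ^ (1 - δ) ≤ ε * N := by
  have h1 : Filter.Tendsto (fun N : ℕ => K * (N : ℝ) ^ (-δ)) Filter.atTop (nhds (K * 0)) :=
    ((tendsto_rpow_neg_atTop hδ).comp tendsto_natCast_atTop_atTop).const_mul K
  rw [mul_zero] at h1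
  have h2 := (h1.eventually (gt_mem_nhds hε)).and (Filter.eventually_ge_atTop 1)
  obtain ⟨N₀, hN₀⟩ := Filter.eventually_atTop.mp h2
  refine ⟨N₀, ?_⟩
  intro N hN
  obtain ⟨h3, h4⟩ := hN₀ N hN
  have hx : (1 : ℝ) ≤ N := by exact_mod_cast h4
  have hx0 : (0 : ℝ) < N := by linarith
  have h5 : (N : ℝ) ^ (1 - δ) = (N : ℝ) ^ (-δ) * N := by
    conv_rhs => rw [← Real.rpow_one (N : ℝ)]
    rw [← Real.rpow_mul hx0.le, ← Real.rpow_add hx0]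
    congr 1
    ring
  rw [h5, ← mul_assoc]
  exact mul_le_mul_of_nonneg_right h3.le hx0.le

theorem g4_log {N : ℕ} (hN : 1 ≤ N) {t : ℝ} (ht : 0 < t) :
    1 + Real.log N ≤ (1 + 1 / t) * (N : ℝ) ^ t := by
  have hx : (1 : ℝ) ≤ N := by exact_mod_cast hN
  have h1 := Real.log_le_rpow_div (x := (N : ℝ)) (by linarith) ht
  have h2 := Real.one_le_rpow hx ht.le
  have h3 : (1 + 1 / t) * (N : ℝ) ^ t = (N : ℝ) ^ t + (N : ℝ) ^ t / t := by ring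
  rw [h3]
  linarith

/-- [AA-G4] PROOF. `w = N^(1+ρ)`, `B = C N^(ρ/10)` (`WD.exists_DB`), `(B+1) B² ≤ 2 B³`, `3 + 2 log N ≤ 3 (1 + log N) ≤ C' N^(ρ/10)` (`WD.w_log`), `N²/N^(1+ρ) = N^(1-ρ)`: at most `C'' N^(1 - ρ/2)`, `WD.w_small`. Compare the proof of `WD.E1_small`. -/
theorem XG_small {ρ : ℝ} (hρ : 0 < ρ) (hρ1 : ρ ≤ 1) {ε : ℝ} (hε : 0 < ε) :
    ∃ N₀ : ℕ, ∀ N : ℕ, N₀ ≤ N → ((XG N ((N : ℝ) ^ (1 + ρ))).card : ℝ) ≤ ε * N := by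
  obtain ⟨C, hC, hDB⟩ := exists_DB (ε := ρ / 10) (by positivity) (by linarith)
  obtain ⟨N₁, hN₁⟩ := g4_small (6 * C ^ 3 * (1 + 1 / (ρ / 10))) (δ := 6 / 10 * ρ) (ε := ε)
    (by positivity) hε
  refine ⟨max N₁ 1, ?_⟩
  intro N hN
  have hN1 : 1 ≤ N := le_trans (le_max_right _ _) hN
  have hx1 : (1 : ℝ) ≤ N := by exact_mod_cast hN1
  have hx0 : (0 : ℝ) < N := by linarith
  have hw1 : (N : ℝ) ≤ (N : ℝ) ^ (1 + ρ) := by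
    conv_lhs => rw [← Real.rpow_one (N : ℝ)]
    exact Real.rpow_le_rpow_of_exponent_le hx1 (by linarith)
  have hB := hDB N hN1
  have hcard := XG_card hN1 hw1 hB
  refine hcard.trans ?_
  refine le_trans ?_ (hN₁ N (le_trans (le_max_left _ _) hN))
  have e1 : (N : ℝ) ^ 2 / (N : ℝ) ^ (1 + ρ) = (N : ℝ) ^ (1 - ρ) := by
    rw [← Real.rpow_natCast, ← Real.rpow_sub hx0]
    congr 1
    push_cast
    ring
  have hlog := g4_log hN1 (t := ρ / 10) (by positivity)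
  have hl0 : 0 ≤ Real.log N := Real.log_nonneg hx1
  rw [e1]
  set B := C * (N : ℝ) ^ (ρ / 10) with hBdef
  have hB1 : 1 ≤ B := hB.1
  have hB0 : 0 ≤ B := by linarith
  have hB3 : B ^ 3 = C ^ 3 * (N : ℝ) ^ (3 / 10 * ρ) := by
    rw [hBdef, mul_pow, ← Real.rpow_natCast ((N : ℝ) ^ (ρ / 10)), ← Real.rpow_mul hx0.le]
    congr 2
    push_cast
    ring
  have g1 : (B + 1) * B ^ 2 ≤ 2 * B ^ 3 := by
    have h2 : 0 ≤ B ^ 2 := by positivity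
    have h3 : (B + 1) * B ^ 2 ≤ (2 * B) * B ^ 2 := mul_le_mul_of_nonneg_right (by linarith) h2
    calc (B + 1) * B ^ 2 ≤ (2 * B) * B ^ 2 := h3
      _ = 2 * B ^ 3 := by ring
  have g2 : 3 + 2 * Real.log N ≤ 3 * ((1 + 1 / (ρ / 10)) * (N : ℝ) ^ (ρ / 10)) := by linarith
  have g3 : (N : ℝ) ^ (1 - 6 / 10 * ρ) =
      (N : ℝ) ^ (3 / 10 * ρ) * ((N : ℝ) ^ (1 - ρ) * (N : ℝ) ^ (ρ / 10)) := by
    rw [← Real.rpow_add hx0, ← Real.rpow_add hx0]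
    congr 1
    ring
  have hp0 : 0 ≤ (N : ℝ) ^ (1 - ρ) := by positivity
  calc (B + 1) * (B ^ 2 * ((N : ℝ) ^ (1 - ρ) * (3 + 2 * Real.log N)))
      = ((B + 1) * B ^ 2) * ((N : ℝ) ^ (1 - ρ) * (3 + 2 * Real.log N)) := by ring
    _ ≤ (2 * B ^ 3) * ((N : ℝ) ^ (1 - ρ) * (3 * ((1 + 1 / (ρ / 10)) * (N : ℝ) ^ (ρ / 10)))) := by
        apply mul_le_mul g1 (mul_le_mul_of_nonneg_left g2 hp0) (by positivity) (by positivity)
    _ = 6 * C ^ 3 * (1 + 1 / (ρ / 10)) *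
        ((N : ℝ) ^ (3 / 10 * ρ) * ((N : ℝ) ^ (1 - ρ) * (N : ℝ) ^ (ρ / 10))) := by
        rw [hB3]
        ring
    _ = 6 * C ^ 3 * (1 + 1 / (ρ / 10)) * (N : ℝ) ^ (1 - 6 / 10 * ρ) := by rw [g3]

end AA
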