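import Pool.Agent.AA.G1

set_option autoImplicit false

open Finset
open scoped Classical

namespace AA

open WD

/-- [AA-G1e] for fixed `P, Q, u, v` all `H` are in one class modulo `u v`.
PROOF. `u ∣ (H - H') P` and `P` is a unit modulo `u` (`e1`, `ε = ±1`), `v ∣ (H - H') Q`, `Q` is a unit modulo `v`, `u, v` coprime. -/
theorem Tup.congr {ε : ℤ} (hε : ε = 1 ∨ ε = -1) {P Q u v H H' : ℕ} (h : Tup ε P Q u v H)
    (h' : Tup ε P Q u v H') : H % (u * v) = H' % (u * v) := by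
  have a1 : (u : ℤ) ∣ ((H : ℤ) - H') * P := by
    have := dvd_sub h.e1 h'.e1
    have e : (H : ℤ) * P - ε - ((H' : ℤ) * P - ε) = ((H : ℤ) - H') * P := by ring
    rwa [e] at this
  have a2 : (v : ℤ) ∣ ((H : ℤ) - H') * Q := by
    have := dvd_sub h.e2 h'.e2
    have e : (H : ℤ) * Q - 1 - ((H' : ℤ) * Q - 1) = ((H : ℤ) - H') * Q := by ring
    rwa [e] at this
  have c1 : IsCoprime (u : ℤ) (P : ℤ) := by
    obtain ⟨k, hk⟩ := h.e1
    rcases hε with rfl | rfl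
    · exact ⟨-k, H, by linear_combination hk⟩
    · exact ⟨k, -H, by linear_combination -hk⟩
  have c2 : IsCoprime (v : ℤ) (Q : ℤ) := by
    obtain ⟨k, hk⟩ := h.e2
    exact ⟨-k, H, by linear_combination hk⟩
  have b1 : (u : ℤ) ∣ (H : ℤ) - H' := c1.dvd_of_dvd_mul_right a1
  have b2 : (v : ℤ) ∣ (H : ℤ) - H' := c2.dvd_of_dvd_mul_right a2
  have b3 : ((u : ℤ) * v) ∣ (H : ℤ) - H' :=
    IsCoprime.mul_dvd (Nat.isCoprime_iff_coprime.mpr h.cop) b1 b2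
  have b4 : H' ≡ H [MOD u * v] := by
    rw [Nat.modEq_iff_dvd]
    push_cast
    exact b3
  exact b4.symm

/-- [AA-G1f] the integer `n` is determined by `H = d0 d1`, `d0`, `d2`, `d3` if `n < d0 d1 d2 d3`.
PROOF. `n ≡ 0 mod d0`, `n ≡ 1 mod d1, d2, d3` (as in `typeII`), pairwise coprime (`S4.cop`), so the two numbers are congruent modulo the product, which is larger than both. -/
theorem S4.unique {x y z x' y' z' d0 d1 d2 d3 : ℕ} (h : S4 x y z d0 d1 d2 d3)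
    (h' : S4 x' y' z' d0 d1 d2 d3) (hn : x + y + z < d0 * d1 * d2 * d3)
    (hn' : x' + y' + z' < d0 * d1 * d2 * d3) : x + y + z = x' + y' + z' := by
  obtain ⟨c01, c02, c03, c12, c13, c23⟩ := h.cop
  have k0 : (d0 : ℤ) ∣ ((x : ℤ) + y + z) - ((x' : ℤ) + y' + z') :=
    dvd_sub (dvd_add (dvd_add h.x0 h.y0) h.z0) (dvd_add (dvd_add h'.x0 h'.y0) h'.z0)
  have k1 : (d1 : ℤ) ∣ ((x : ℤ) + y + z) - ((x' : ℤ) + y' + z') := by
    have := dvd_sub (dvd_add (dvd_add h.x1 h.y1) h.z1) (dvd_add (dvd_add h'.x1 h'.y1) h'.z1)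
    have e : ((x : ℤ) - 1 + y + z) - ((x' : ℤ) - 1 + y' + z') =
      ((x : ℤ) + y + z) - ((x' : ℤ) + y' + z') := by ring
    rwa [e] at this
  have k2 : (d2 : ℤ) ∣ ((x : ℤ) + y + z) - ((x' : ℤ) + y' + z') := by
    have := dvd_sub (dvd_add (dvd_add h.x2 h.y2) h.z2) (dvd_add (dvd_add h'.x2 h'.y2) h'.z2)
    have e : ((x : ℤ) + ((y : ℤ) - 1) + z) - ((x' : ℤ) + ((y' : ℤ) - 1) + z') =
      ((x : ℤ) + y + z) - ((x' : ℤ) + y' + z') := by ring
    rwa [e] at this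
  have k3 : (d3 : ℤ) ∣ ((x : ℤ) + y + z) - ((x' : ℤ) + y' + z') := by
    have := dvd_sub (dvd_add (dvd_add h.x3 h.y3) h.z3) (dvd_add (dvd_add h'.x3 h'.y3) h'.z3)
    have e : ((x : ℤ) + y + ((z : ℤ) - 1)) - ((x' : ℤ) + y' + ((z' : ℤ) - 1)) =
      ((x : ℤ) + y + z) - ((x' : ℤ) + y' + z') := by ring
    rwa [e] at this
  have m01 : ((d0 : ℤ) * d1) ∣ ((x : ℤ) + y + z) - ((x' : ℤ) + y' + z') :=
    IsCoprime.mul_dvd (Nat.isCoprime_iff_coprime.mpr c01) k0 k1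
  have m012 : ((d0 : ℤ) * d1 * d2) ∣ ((x : ℤ) + y + z) - ((x' : ℤ) + y' + z') :=
    IsCoprime.mul_dvd (IsCoprime.mul_left (Nat.isCoprime_iff_coprime.mpr c02)
      (Nat.isCoprime_iff_coprime.mpr c12)) m01 k2
  have m0123 : ((d0 : ℤ) * d1 * d2 * d3) ∣ ((x : ℤ) + y + z) - ((x' : ℤ) + y' + z') :=
    IsCoprime.mul_dvd (IsCoprime.mul_left (IsCoprime.mul_left (Nat.isCoprime_iff_coprime.mpr c03)
      (Nat.isCoprime_iff_coprime.mpr c13)) (Nat.isCoprime_iff_coprime.mpr c23)) m012 k3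
  have b4 : x' + y' + z' ≡ x + y + z [MOD d0 * d1 * d2 * d3] := by
    rw [Nat.modEq_iff_dvd]
    push_cast
    exact m0123
  exact (Nat.ModEq.eq_of_lt_of_lt b4 hn' hn).symm

end AA
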