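import Pool.Agent.AA.D0

set_option autoImplicit false

open Finset
open scoped Classical

namespace AA

open WD

theorem g6_sum (M : ℕ) :
    ∑ p ∈ Icc 1 M ×ˢ Icc 1 M, (1 : ℝ) / ((max p.1 p.2 : ℕ) : ℝ) ^ 2 ≤ 2 * ((harmonic M : ℚ) : ℝ) := by
  induction M with
  | zero => simp
  | succ M ih =>
    rw [Finset.sum_product] at ih ⊢
    have hpos : (0 : ℝ) < (M : ℝ) + 1 := by positivity
    have h1 : ∀ a ∈ Icc 1 M, ∑ b ∈ Icc 1 (M + 1), (1 : ℝ) / ((max a b : ℕ) : ℝ) ^ 2 =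
        ∑ b ∈ Icc 1 M, (1 : ℝ) / ((max a b : ℕ) : ℝ) ^ 2 + 1 / ((M : ℝ) + 1) ^ 2 := by
      intro a ha
      rw [Finset.mem_Icc] at ha
      rw [Finset.sum_Icc_succ_top (by omega), max_eq_right (by omega : a ≤ M + 1)]
      push_cast
      rfl
    have h2 : ∑ b ∈ Icc 1 (M + 1), (1 : ℝ) / ((max (M + 1) b : ℕ) : ℝ) ^ 2 = 1 / ((M : ℝ) + 1) := by
      have h3 : ∀ b ∈ Icc 1 (M + 1), (1 : ℝ) / ((max (M + 1) b : ℕ) : ℝ) ^ 2 =
          1 / ((M : ℝ) + 1) ^ 2 := by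
        intro b hb
        rw [Finset.mem_Icc] at hb
        rw [max_eq_left (by omega : b ≤ M + 1)]
        push_cast
        rfl
      rw [Finset.sum_congr rfl h3, Finset.sum_const, Nat.card_Icc, nsmul_eq_mul]
      push_cast
      field_simp
    rw [Finset.sum_Icc_succ_top (by omega), h2, Finset.sum_congr rfl h1, Finset.sum_add_distrib,
      Finset.sum_const, Nat.card_Icc, nsmul_eq_mul, harmonic_succ]
    push_cast at ih ⊢
    have h4 : (M : ℝ) * (1 / ((M : ℝ) + 1) ^ 2) ≤ 1 / ((M : ℝ) + 1) := by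
      rw [mul_one_div, div_le_div_iff₀ (by positivity) hpos]
      nlinarith
    have h5 : ((M : ℝ) + 1)⁻¹ = 1 / ((M : ℝ) + 1) := by rw [one_div]
    rw [h5]
    linarith

/-- [AA-G2b] `Σ_{P, Q ≤ M} 1/max(P,Q)² ≤ 2 (1 + log N)` for `M ≤ N`.
PROOF. There are at most `2 m` pairs with maximum `m`, `Σ_{m ≤ M} 2/m ≤ 2 (1 + log M)` (`harmonic_le_one_add_log`, compare `WD.w_harm`). By induction on `M`: the new pairs `(M+1, Q), (P, M+1)` contribute at most `2 (M+1)/(M+1)²`. -/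
theorem sum_max {N M : ℕ} (hN : 1 ≤ N) (hM : M ≤ N) :
    ∑ p ∈ Icc 1 M ×ˢ Icc 1 M, (1 : ℝ) / ((max p.1 p.2 : ℕ) : ℝ) ^ 2 ≤ 2 * (1 + Real.log N) := by
  refine (g6_sum M).trans ?_
  have h1 := harmonic_le_one_add_log M
  have h2 : Real.log M ≤ Real.log N := by
    rcases Nat.eq_zero_or_pos M with h | h
    · rw [h, Nat.cast_zero, Real.log_zero]
      exact Real.log_nonneg (by exact_mod_cast hN)
    · exact Real.log_le_log (by exact_mod_cast h) (by exact_mod_cast hM)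
  linarith

end AA
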