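import Pool.Agent.AA.G2
import Pool.Agent.AA.G6

set_option autoImplicit false

open Finset
open scoped Classical

namespace AA

open WD

/-- [AA-G2c] PROOF. For `(P, Q, u, v, H) ∈ TT`: `H² ≥ H u v > w`, so `H > √w` and `max P Q ≤ N/H < N/√w`: with `M = ⌊N/√w⌋₊` (`≤ N` as `w ≥ 1`) `P, Q ∈ Icc 1 M`. `u ∈ Q.divisors`, `v ∈ P.divisors`: at most `B` values each (`DB`, `P, Q ≤ N ≤ 4 N³`). So `TT` is contained in a `biUnion` over `(P, Q)`, `u`, `v` of the images of the sets of `card_H`; the sum is at most `Σ_{P,Q ≤ M} B² (N²/(w max²) + 1) ≤ B² (N²/w · 2 (1 + log N) + M²)` (`sum_max`) and `M² ≤ N²/w`. -/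
theorem card_TT {ε : ℤ} (hε : ε = 1 ∨ ε = -1) {N : ℕ} (hN : 1 ≤ N) {w B : ℝ} (hw : 1 ≤ w)
    (hB : DB B N) :
    ((TT ε N w).card : ℝ) ≤ B ^ 2 * ((N : ℝ) ^ 2 / w * (3 + 2 * Real.log N)) := by
  obtain ⟨hB1, hB2⟩ := hB
  have hw0 : 0 < w := by linarith
  have hB0 : 0 ≤ B := by linarith
  have hs1 : 1 ≤ Real.sqrt w := Real.one_le_sqrt.2 hw
  have hs0 : 0 < Real.sqrt w := by linarith
  have hN0 : (0 : ℝ) ≤ N := Nat.cast_nonneg _
  have hss : Real.sqrt w * Real.sqrt w = w := Real.mul_self_sqrt hw0.le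
  obtain ⟨M, hM⟩ : ∃ M, M = ⌊(N : ℝ) / Real.sqrt w⌋₊ := ⟨_, rfl⟩
  have hM1 : (M : ℝ) ≤ N / Real.sqrt w := by
    rw [hM]
    exact Nat.floor_le (by positivity)
  have hMN : M ≤ N := by
    have h1 : (N : ℝ) / Real.sqrt w ≤ N := div_le_self hN0 hs1
    exact_mod_cast hM1.trans h1
  have hMM : (M : ℝ) * M ≤ N ^ 2 / w := by
    calc (M : ℝ) * M ≤ (N / Real.sqrt w) * (N / Real.sqrt w) :=
          mul_le_mul hM1 hM1 (Nat.cast_nonneg _) (by positivity)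
      _ = N ^ 2 / w := by
          rw [div_mul_div_comm, hss, pow_two]
  have hN3 : N ≤ 4 * N ^ 3 := by
    have h1 : N ≤ N ^ 3 := by
      calc N = N ^ 1 := (pow_one N).symm
        _ ≤ N ^ 3 := Nat.pow_le_pow_right hN (by norm_num)
    omega
  have hdiv : ∀ m : ℕ, m ∈ Icc 1 M → (m.divisors.card : ℝ) ≤ B := by
    intro m hm
    rw [mem_Icc] at hm
    exact hB2 m hm.1 (by omega)
  obtain ⟨F, hF⟩ : ∃ F : ℕ → ℕ → ℕ → ℕ → Finset ℕ, F = fun P Q u v =>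
    (range (N + 1)).filter (fun H => (P, Q, u, v, H) ∈ TT ε N w) := ⟨_, rfl⟩
  have hsub : TT ε N w ⊆ (Icc 1 M ×ˢ Icc 1 M).biUnion (fun p =>
      (p.2.divisors ×ˢ p.1.divisors).biUnion (fun q =>
        (F p.1 p.2 q.1 q.2).image (fun H => (p.1, p.2, q.1, q.2, H)))) := by
    rintro ⟨P, Q, u, v, H⟩ ht
    have ht' := ht
    rw [TT, mem_filter] at ht
    obtain ⟨hr, hT, h1, h2, h3, h4⟩ := ht
    simp only at hT h1 h2 h3 h4
    have hH : Real.sqrt w < H := by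
      have h5 : ((H * (u * v) : ℕ) : ℝ) ≤ (H : ℝ) * H := by
        rw [← Nat.cast_mul]
        exact_mod_cast Nat.mul_le_mul_left H h3
      have h6 : w < (H : ℝ) ^ 2 := by
        rw [pow_two]
        exact lt_of_lt_of_le h4 h5
      exact (Real.sqrt_lt' (by exact_mod_cast hT.hH)).2 h6
    have hle : ∀ X : ℕ, H * X ≤ N → X ≤ M := by
      intro X hX
      rw [hM]
      apply Nat.le_floor
      rw [le_div_iff₀ hs0]
      have h5 : (H : ℝ) * X ≤ N := by exact_mod_cast hX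
      have h6 : (X : ℝ) * Real.sqrt w ≤ X * H :=
        mul_le_mul_of_nonneg_left hH.le (Nat.cast_nonneg _)
      linarith
    rw [mem_biUnion]
    refine ⟨(P, Q), ?_, ?_⟩
    · rw [mem_product, mem_Icc, mem_Icc]
      exact ⟨⟨hT.hP, hle P h1⟩, ⟨hT.hQ, hle Q h2⟩⟩
    · rw [mem_biUnion]
      refine ⟨(u, v), ?_, ?_⟩
      · rw [mem_product, Nat.mem_divisors, Nat.mem_divisors]
        exact ⟨⟨hT.hu, hT.hQ.ne'⟩, ⟨hT.hv, hT.hP.ne'⟩⟩
      · rw [mem_image]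
        refine ⟨H, ?_, rfl⟩
        rw [hF]
        simp only [mem_filter]
        refine ⟨?_, ht'⟩
        simp only [mem_product] at hr
        exact hr.2.2.2.2
  have hnat : (TT ε N w).card ≤ ∑ p ∈ Icc 1 M ×ˢ Icc 1 M,
      ∑ q ∈ p.2.divisors ×ˢ p.1.divisors, (F p.1 p.2 q.1 q.2).card := by
    refine (card_le_card hsub).trans (card_biUnion_le.trans ?_)
    apply sum_le_sum
    intro p _
    refine card_biUnion_le.trans ?_
    apply sum_le_sum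
    intro q _
    exact card_image_le
  have hreal : ((TT ε N w).card : ℝ) ≤ ∑ p ∈ Icc 1 M ×ˢ Icc 1 M,
      ∑ q ∈ p.2.divisors ×ˢ p.1.divisors, ((F p.1 p.2 q.1 q.2).card : ℝ) := by
    exact_mod_cast hnat
  have hin : ∀ p ∈ Icc 1 M ×ˢ Icc 1 M,
      ∑ q ∈ p.2.divisors ×ˢ p.1.divisors, ((F p.1 p.2 q.1 q.2).card : ℝ) ≤
      B ^ 2 * ((N : ℝ) ^ 2 / w * (1 / ((max p.1 p.2 : ℕ) : ℝ) ^ 2) + 1) := by
    intro p hp
    rw [mem_product] at hp
    have hp1 := (mem_Icc.1 hp.1).1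
    have hp2 := (mem_Icc.1 hp.2).1
    have h1 : ∑ q ∈ p.2.divisors ×ˢ p.1.divisors, ((F p.1 p.2 q.1 q.2).card : ℝ) ≤
        ∑ _q ∈ p.2.divisors ×ˢ p.1.divisors,
          ((N : ℝ) ^ 2 / (w * ((max p.1 p.2 : ℕ) : ℝ) ^ 2) + 1) := by
      apply sum_le_sum
      intro q _
      have := card_H hε (N := N) hw0 p.1 p.2 q.1 q.2 (by omega) (by omega)
      rw [hF]
      exact this
    refine h1.trans ?_
    rw [sum_const, nsmul_eq_mul, card_product, Nat.cast_mul]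
    have h2 : (N : ℝ) ^ 2 / (w * ((max p.1 p.2 : ℕ) : ℝ) ^ 2) =
        (N : ℝ) ^ 2 / w * (1 / ((max p.1 p.2 : ℕ) : ℝ) ^ 2) := by
      rw [div_mul_div_comm, mul_one]
    rw [h2]
    apply mul_le_mul_of_nonneg_right _ (by positivity)
    rw [pow_two]
    exact mul_le_mul (hdiv _ hp.2) (hdiv _ hp.1) (Nat.cast_nonneg _) hB0
  refine hreal.trans ((sum_le_sum hin).trans ?_)
  rw [← mul_sum]
  apply mul_le_mul_of_nonneg_left _ (by positivity)
  rw [sum_add_distrib, ← mul_sum, sum_const, nsmul_eq_mul, card_product, Nat.card_Icc,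
    Nat.add_sub_cancel, mul_one, Nat.cast_mul]
  have h1 := mul_le_mul_of_nonneg_left (sum_max hN hMN) (by positivity : 0 ≤ (N : ℝ) ^ 2 / w)
  have h2 : (N : ℝ) ^ 2 / w * (3 + 2 * Real.log N) =
      (N : ℝ) ^ 2 / w * (2 * (1 + Real.log N)) + (N : ℝ) ^ 2 / w := by ring
  rw [h2]
  exact add_le_add h1 hMM

end AA
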