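import Mathlib

set_option autoImplicit false

namespace AA

/-- the linear inequalities satisfied by the exponents of the blocks of one triple -/
structure Ex (t : ℝ) (e : ℕ → ℕ → ℕ → ℝ) : Prop where
  nn : ∀ i j k, 0 ≤ e i j k
  g : e 0 0 0 + e 1 0 0 + e 0 1 0 + e 0 0 1 ≤ 1 + t
  px : e 0 0 0 + e 0 1 0 + e 0 0 1 + e 0 2 0 + e 0 0 2 + e 0 1 1 ≤ 1
  py : e 0 0 0 + e 1 0 0 + e 0 0 1 + e 2 0 0 + e 0 0 2 + e 1 0 1 ≤ 1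
  pz : e 0 0 0 + e 1 0 0 + e 0 1 0 + e 2 0 0 + e 0 2 0 + e 1 1 0 ≤ 1
  qxy : e 1 0 0 + e 0 1 0 + e 1 0 1 + e 0 1 1 ≤ 1
  qxz : e 1 0 0 + e 0 0 1 + e 1 1 0 + e 0 1 1 ≤ 1
  qyz : e 0 1 0 + e 0 0 1 + e 1 1 0 + e 1 0 1 ≤ 1
  wxy : e 0 0 0 + e 0 0 1 + e 0 0 2 ≤ 1 / 2 + t ∨
    e 0 0 0 + e 1 0 0 + e 0 1 0 + e 0 0 1 + (e 2 0 0 + e 0 2 0 + e 0 0 2 +
      (e 1 1 0 + e 1 0 1 + e 0 1 1)) ≤ 1 + t ∨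
    (e 1 0 0 = 0 ∧ e 0 1 0 = 0 ∧ e 2 0 0 = 0 ∧ e 0 2 0 = 0 ∧ e 1 0 1 = 0 ∧ e 0 1 1 = 0 ∧
      (e 0 0 0 ≤ 9 / 20 ∨ e 0 0 1 ≤ 9 / 20 ∨ e 1 1 0 ≤ 9 / 20))
  wxz : e 0 0 0 + e 0 1 0 + e 0 2 0 ≤ 1 / 2 + t ∨
    e 0 0 0 + e 1 0 0 + e 0 1 0 + e 0 0 1 + (e 2 0 0 + e 0 2 0 + e 0 0 2 +
      (e 1 1 0 + e 1 0 1 + e 0 1 1)) ≤ 1 + t ∨
    (e 1 0 0 = 0 ∧ e 0 0 1 = 0 ∧ e 2 0 0 = 0 ∧ e 0 0 2 = 0 ∧ e 1 1 0 = 0 ∧ e 0 1 1 = 0 ∧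
      (e 0 0 0 ≤ 9 / 20 ∨ e 0 1 0 ≤ 9 / 20 ∨ e 1 0 1 ≤ 9 / 20))
  wyz : e 0 0 0 + e 1 0 0 + e 2 0 0 ≤ 1 / 2 + t ∨
    e 0 0 0 + e 1 0 0 + e 0 1 0 + e 0 0 1 + (e 2 0 0 + e 0 2 0 + e 0 0 2 +
      (e 1 1 0 + e 1 0 1 + e 0 1 1)) ≤ 1 + t ∨
    (e 0 1 0 = 0 ∧ e 0 0 1 = 0 ∧ e 0 2 0 = 0 ∧ e 0 0 2 = 0 ∧ e 1 1 0 = 0 ∧ e 1 0 1 = 0 ∧
      (e 0 0 0 ≤ 9 / 20 ∨ e 1 0 0 ≤ 9 / 20 ∨ e 0 1 1 ≤ 9 / 20))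

theorem Ex.le_half {t : ℝ} {e : ℕ → ℕ → ℕ → ℝ} (h : Ex t e) (ht : 0 ≤ t)
    (htot : 1 + t < e 0 0 0 + e 1 0 0 + e 0 1 0 + e 0 0 1 + (e 2 0 0 + e 0 2 0 + e 0 0 2 +
      (e 1 1 0 + e 1 0 1 + e 0 1 1))) : e 0 0 0 ≤ 1 / 2 + t := by
  have n1 := h.nn 0 0 1
  have n2 := h.nn 0 0 2
  have n3 := h.nn 0 1 0
  have n4 := h.nn 0 2 0
  have p := h.px
  rcases h.wxy with h1 | h1 | ⟨a1, a2, a3, a4, a5, a6, -⟩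
  · linarith
  · linarith
  · rcases h.wxz with h2 | h2 | ⟨b1, b2, b3, b4, b5, b6, -⟩
    · linarith
    · linarith
    · exfalso
      linarith

theorem Ex.two {t : ℝ} {e : ℕ → ℕ → ℕ → ℝ} (h : Ex t e) (ht : 0 ≤ t) (ht1 : t ≤ 1 / 1000)
    (h0 : 1 / 2 - 2 * t ≤ e 0 0 0) (h0' : e 0 0 0 ≤ 1 / 2 + t)
    (h1 : 1 - 3 * t ≤ e 0 0 0 + e 1 0 0 + e 0 1 0 + e 0 0 1)
    (h2 : 1 / 2 - t ≤ e 2 0 0 + e 0 2 0 + e 0 0 2 + (e 1 1 0 + e 1 0 1 + e 0 1 1)) : False := by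
  have n100 := h.nn 1 0 0
  have n010 := h.nn 0 1 0
  have n001 := h.nn 0 0 1
  have n200 := h.nn 2 0 0
  have n020 := h.nn 0 2 0
  have n002 := h.nn 0 0 2
  have n110 := h.nn 1 1 0
  have n101 := h.nn 1 0 1
  have n011 := h.nn 0 1 1
  have px := h.px
  have py := h.py
  have pz := h.pz
  rcases h.wxy with hxy | hxy | ⟨a1, a2, a3, a4, a5, a6, a7⟩
  · rcases h.wxz with hxz | hxz | ⟨b1, b2, b3, b4, b5, b6, b7⟩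
    · rcases h.wyz with hyz | hyz | ⟨c1, c2, c3, c4, c5, c6, c7⟩
      · linarith
      · linarith
      · rcases c7 with c7 | c7 | c7 <;> linarith
    · linarith
    · rcases b7 with b7 | b7 | b7 <;> linarith
  · linarith
  · rcases a7 with a7 | a7 | a7 <;> linarith

theorem Ex.main {t : ℝ} {e e' : ℕ → ℕ → ℕ → ℝ} (h : Ex t e) (h' : Ex t e') (ht : 0 ≤ t)
    (ht1 : t ≤ 1 / 1000) (l0 : 1 - t ≤ e 0 0 0 + e' 0 0 0)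
    (l1 : 1 - t ≤ (e 1 0 0 + e 0 1 0 + e 0 0 1) + (e' 1 0 0 + e' 0 1 0 + e' 0 0 1))
    (l2 : 1 - t ≤ (e 2 0 0 + e 0 2 0 + e 0 0 2 + (e 1 1 0 + e 1 0 1 + e 0 1 1)) +
      (e' 2 0 0 + e' 0 2 0 + e' 0 0 2 + (e' 1 1 0 + e' 1 0 1 + e' 0 1 1)))
    (hw : e' 2 0 0 + e' 0 2 0 + e' 0 0 2 + (e' 1 1 0 + e' 1 0 1 + e' 0 1 1) ≤
      e 2 0 0 + e 0 2 0 + e 0 0 2 + (e 1 1 0 + e 1 0 1 + e 0 1 1)) : False := by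
  have g := h.g
  have g' := h'.g
  have hd : 1 - 3 * t ≤ e 0 0 0 + e 1 0 0 + e 0 1 0 + e 0 0 1 := by linarith
  have hd' : 1 - 3 * t ≤ e' 0 0 0 + e' 1 0 0 + e' 0 1 0 + e' 0 0 1 := by linarith
  have hw2 : 1 / 2 - t ≤ e 2 0 0 + e 0 2 0 + e 0 0 2 + (e 1 1 0 + e 1 0 1 + e 0 1 1) := by
    linarith
  have hhalf := h.le_half ht (by linarith)
  rcases le_or_gt (e' 0 0 0 + e' 1 0 0 + e' 0 1 0 + e' 0 0 1 + (e' 2 0 0 + e' 0 2 0 + e' 0 0 2 +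
      (e' 1 1 0 + e' 1 0 1 + e' 0 1 1))) (1 + t) with hc | hc
  · have px := h.px
    have py := h.py
    have pz := h.pz
    have qxy := h.qxy
    have qxz := h.qxz
    have qyz := h.qyz
    linarith
  · have hhalf' := h'.le_half ht hc
    exact h.two ht ht1 (by linarith) hhalf hd hw2

/-- [AA-L] the exponents of two triples covering the levels `0, 1, 2` are contradictory -/
theorem Ex.false {t : ℝ} {e e' : ℕ → ℕ → ℕ → ℝ} (h : Ex t e) (h' : Ex t e') (ht : 0 ≤ t)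
    (ht1 : t ≤ 1 / 1000) (l0 : 1 - t ≤ e 0 0 0 + e' 0 0 0)
    (l1 : 1 - t ≤ (e 1 0 0 + e 0 1 0 + e 0 0 1) + (e' 1 0 0 + e' 0 1 0 + e' 0 0 1))
    (l2 : 1 - t ≤ (e 2 0 0 + e 0 2 0 + e 0 0 2 + (e 1 1 0 + e 1 0 1 + e 0 1 1)) +
      (e' 2 0 0 + e' 0 2 0 + e' 0 0 2 + (e' 1 1 0 + e' 1 0 1 + e' 0 1 1))) : False := by
  rcases le_total (e' 2 0 0 + e' 0 2 0 + e' 0 0 2 + (e' 1 1 0 + e' 1 0 1 + e' 0 1 1))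
      (e 2 0 0 + e 0 2 0 + e 0 0 2 + (e 1 1 0 + e 1 0 1 + e 0 1 1)) with hw | hw
  · exact h.main h' ht ht1 l0 l1 l2 hw
  · exact h'.main h ht ht1 (by linarith) (by linarith) (by linarith) hw

end AA
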