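import Pool.Agent.AA.C1

set_option autoImplicit false

open Finset
open scoped Classical

namespace AA

open WD

/-- the exponents of the blocks -/
noncomputable def ex (N K x y z i j k : ℕ) : ℝ := Real.log (EB K x y z i j k) / Real.log N

/-- [AA-M1a] a product of blocks dividing a positive integer `≤ N`.
PROOF. `Real.log` of the product is the sum of the logarithms (all `EB ≥ 1`), `≤ log N`, `log N > 0`. (`m ≤ N` real.) -/
theorem ex_sum_le {N K x y z : ℕ} (hN : 2 ≤ N) (S : Finset (ℕ × ℕ × ℕ)) {m u : ℝ}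
    (hm : ((∏ s ∈ S, EB K x y z s.1 s.2.1 s.2.2 : ℕ) : ℝ) ≤ m) (hmN : m ≤ (N : ℝ) ^ u) :
    ∑ s ∈ S, ex N K x y z s.1 s.2.1 s.2.2 ≤ u := by
  have hN1 : (1 : ℝ) < N := by exact_mod_cast (show 1 < N by omega)
  have hlN : 0 < Real.log N := Real.log_pos hN1
  have hpos : ∀ s ∈ S, 0 < ((EB K x y z s.1 s.2.1 s.2.2 : ℕ) : ℝ) := by
    intro s _
    exact_mod_cast EB_pos K x y z s.1 s.2.1 s.2.2
  have hprod : 0 < ∏ s ∈ S, ((EB K x y z s.1 s.2.1 s.2.2 : ℕ) : ℝ) := prod_pos hpos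
  have h1 : ∑ s ∈ S, ex N K x y z s.1 s.2.1 s.2.2 =
      Real.log (∏ s ∈ S, ((EB K x y z s.1 s.2.1 s.2.2 : ℕ) : ℝ)) / Real.log N := by
    unfold ex
    rw [← sum_div, Real.log_prod (fun s hs => (hpos s hs).ne')]
  rw [h1, div_le_iff₀ hlN]
  push_cast at hm
  calc Real.log (∏ s ∈ S, ((EB K x y z s.1 s.2.1 s.2.2 : ℕ) : ℝ))
      ≤ Real.log ((N : ℝ) ^ u) := Real.log_le_log hprod (hm.trans hmN)
    _ = u * Real.log N := Real.log_rpow (by linarith) u

end AA
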