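import Pool.Agent.AA.M0
import Pool.Agent.AA.G3

set_option autoImplicit false

open Finset
open scoped Classical

namespace AA

open WD

theorem m1_nn (N K x y z i j k : ℕ) : 0 ≤ ex N K x y z i j k := by
  unfold ex
  apply div_nonneg
  · apply Real.log_nonneg
    exact_mod_cast EB_pos K x y z i j k
  · exact Real.log_natCast_nonneg N

/-- a product of different blocks, all dividing `w` -/
theorem m1_prod_dvd (K x y z : ℕ) (S : Finset (ℕ × ℕ × ℕ)) (w : ℕ)
    (h : ∀ s ∈ S, EB K x y z s.1 s.2.1 s.2.2 ∣ w) :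
    ∏ s ∈ S, EB K x y z s.1 s.2.1 s.2.2 ∣ w := by
  apply Finset.prod_dvd_of_isRelPrime _ h
  intro s _ s' _ hne
  refine Nat.coprime_iff_isRelPrime.1 (EB_coprime ?_)
  by_contra hc
  push Not at hc
  apply hne
  obtain ⟨a, b, c⟩ := s
  obtain ⟨a', b', c'⟩ := s'
  simp only at hc
  rw [hc.1, hc.2.1, hc.2.2]

theorem m1_sum {N K x y z : ℕ} (hN : 2 ≤ N) (S : Finset (ℕ × ℕ × ℕ)) (w : ℕ) (hw : 0 < w)
    (hwN : w ≤ N) (h : ∀ s ∈ S, EB K x y z s.1 s.2.1 s.2.2 ∣ w) :
    ∑ s ∈ S, ex N K x y z s.1 s.2.1 s.2.2 ≤ 1 := by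
  apply ex_sum_le hN S (m := (N : ℝ))
  · exact_mod_cast (Nat.le_of_dvd hw (m1_prod_dvd K x y z S w h)).trans hwN
  · rw [Real.rpow_one]

theorem m1_x (K x y z j k : ℕ) : EB K x y z 0 j k ∣ x := by
  have h := EB_dvd_x K x y z 0 j k
  rw [Nat.cast_zero, sub_zero] at h
  exact_mod_cast h

theorem m1_xy1 (K x y z i j k : ℕ) (hxy : 1 ≤ x + y) (hij : i + j = 1) :
    EB K x y z i j k ∣ x + y - 1 := by
  have h1 := EB_dvd_x K x y z i j k
  have h2 := EB_dvd_y K x y z i j k
  have h3 := dvd_add h1 h2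
  have h4 : ((x + y - 1 : ℕ) : ℤ) = (x : ℤ) - i + ((y : ℤ) - j) := by
    rw [Nat.cast_sub hxy]
    have h5 : ((i : ℤ) + j) = 1 := by exact_mod_cast hij
    push_cast
    linarith
  rw [← h4] at h3
  exact_mod_cast h3

/-- [AA-M1c] PROOF. `nn`: `EB ≥ 1`. `g`: `S4_of_EB` and `n ∉ XG`, so the product of the four blocks is `≤ N^(1+t)` (`ex_sum_le`, `Finset.sum` over the explicit set of four types, `simp`). `px`: the blocks `000, 010, 001, 020, 002, 011` divide `x` (`EB_dvd_x` with `i = 0`), are pairwise coprime (`EB_coprime`), so their product divides `x`, `0 < x ≤ N`; `py`, `pz` similarly. `qxy`: `100, 010, 101, 011` divide `x + y - 1 > 0`; etc. -/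
theorem ex_basic {N K n x y z : ℕ} {t : ℝ} (hN : 2 ≤ N) (hn3 : 3 ≤ n) (hnN : n ≤ N) (hx : 0 < x)
    (hy : 0 < y) (hz : 0 < z) (h : x + y + z = n) (hG : n ∉ XG N ((N : ℝ) ^ (1 + t))) :
    (∀ i j k, 0 ≤ ex N K x y z i j k) ∧
    ex N K x y z 0 0 0 + ex N K x y z 1 0 0 + ex N K x y z 0 1 0 + ex N K x y z 0 0 1 ≤ 1 + t ∧
    ex N K x y z 0 0 0 + ex N K x y z 0 1 0 + ex N K x y z 0 0 1 + ex N K x y z 0 2 0 +
      ex N K x y z 0 0 2 + ex N K x y z 0 1 1 ≤ 1 ∧
    ex N K x y z 1 0 0 + ex N K x y z 0 1 0 + ex N K x y z 1 0 1 + ex N K x y z 0 1 1 ≤ 1 := by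
  refine ⟨fun i j k => m1_nn N K x y z i j k, ?_, ?_, ?_⟩
  · have h1 := ex_sum_le (K := K) (x := x) (y := y) (z := z) hN
      {(0, 0, 0), (1, 0, 0), (0, 1, 0), (0, 0, 1)} (m := (N : ℝ) ^ (1 + t)) (u := 1 + t) ?_ le_rfl
    · rw [Finset.sum_insert (by decide), Finset.sum_insert (by decide),
        Finset.sum_insert (by decide), Finset.sum_singleton] at h1
      simp only at h1
      linarith
    · by_contra hc
      push Not at hc
      apply hG
      unfold XG
      rw [Finset.mem_filter, Finset.mem_Icc]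
      refine ⟨⟨hn3, hnN⟩, x, y, z, _, _, _, _, h, S4_of_EB (K := K) hx hy hz, ?_⟩
      rw [Finset.prod_insert (by decide), Finset.prod_insert (by decide),
        Finset.prod_insert (by decide), Finset.prod_singleton] at hc
      simp only at hc
      refine lt_of_lt_of_eq hc ?_
      congr 1
      ring
  · have h1 := m1_sum (K := K) (x := x) (y := y) (z := z) hN
      {(0, 0, 0), (0, 1, 0), (0, 0, 1), (0, 2, 0), (0, 0, 2), (0, 1, 1)} x hx (by omega) ?_
    · rw [Finset.sum_insert (by decide), Finset.sum_insert (by decide),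
        Finset.sum_insert (by decide), Finset.sum_insert (by decide),
        Finset.sum_insert (by decide), Finset.sum_singleton] at h1
      simp only at h1
      linarith
    · intro s hs
      simp only [Finset.mem_insert, Finset.mem_singleton] at hs
      rcases hs with rfl | rfl | rfl | rfl | rfl | rfl <;> exact m1_x K x y z _ _
  · have h1 := m1_sum (K := K) (x := x) (y := y) (z := z) hN
      {(1, 0, 0), (0, 1, 0), (1, 0, 1), (0, 1, 1)} (x + y - 1) (by omega) (by omega) ?_
    · rw [Finset.sum_insert (by decide), Finset.sum_insert (by decide),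
        Finset.sum_insert (by decide), Finset.sum_singleton] at h1
      simp only at h1
      linarith
    · intro s hs
      simp only [Finset.mem_insert, Finset.mem_singleton] at hs
      rcases hs with rfl | rfl | rfl | rfl <;> exact m1_xy1 K x y z _ _ _ (by omega) rfl

end AA
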