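import Pool.Agent.AA.C4

set_option autoImplicit false

open Finset
open scoped Classical

namespace AA

open WD

theorem m5_LP_pos (K x y z s : ℕ) : 0 < LP K x y z s := by
  rw [LP]
  refine Finset.prod_pos fun p hp => ?_
  rw [mem_filter, QK, mem_filter] at hp
  exact lt_of_le_of_lt (Nat.zero_le K) hp.1.2.2.1

theorem m5_dvd {n s : ℕ} (hs : s ≤ 2) : n - s ∣ ff n := by
  unfold ff
  interval_cases s
  · exact (Dvd.intro _ rfl).mul_right _
  · exact (dvd_mul_left _ _).mul_right _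
  · exact dvd_mul_left _ _

/-- [AA-M2a] PROOF. `m = n - s`. `level_le`: `n - s ≤ 2^v K^K LP LP'`, `v = m.factorization 2 ≤ (ff n).factorization 2` (`m ∣ ff n ≠ 0`, `Nat.factorization_le_iff_dvd`), so `2^v ≤ N^(t/4)`, `K^K ≤ N^(t/4)`, `N^(1-t/4) ≤ n - 2 ≤ n - s`. Hence `N^(1-t) ≤ N^(1 - 3t/4) ≤ LP LP'`; take logarithms. -/
theorem level_log {N K n s : ℕ} {t : ℝ} (hN : 2 ≤ N) (ht : 0 < t) (hK : 2 ≤ K)
    (hKN : ((K ^ K : ℕ) : ℝ) ≤ (N : ℝ) ^ (t / 4)) (hn3 : 3 ≤ n) (hnN : n ≤ N) (hs : s ≤ 2)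
    (hn : ¬ (((n : ℝ) - 2 < (N : ℝ) ^ (1 - t / 4)) ∨
      (N : ℝ) ^ (t / 4) < 2 ^ (ff n).factorization 2))
    {x y z x' y' z' : ℕ} (h : x + y + z = n) (h' : x' + y' + z' = n)
    (hc : ∀ p : ℕ, p.Prime → p ≠ 2 → p ∣ n - s → K < mp n p → Cov p x y z ∨ Cov p x' y' z') :
    (1 - t) * Real.log N ≤ Real.log (LP K x y z s) + Real.log (LP K x' y' z' s) := by
  push Not at hn
  obtain ⟨g1, g2⟩ := hn
  have hN1 : (1 : ℝ) ≤ N := by exact_mod_cast (by omega : 1 ≤ N)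
  have hN0 : (0 : ℝ) < N := lt_of_lt_of_le one_pos hN1
  have hlog : 0 ≤ Real.log N := Real.log_nonneg hN1
  have hff : ff n ≠ 0 := by
    unfold ff
    have h1 : 0 < n := by omega
    have h2 : 0 < n - 1 := by omega
    have h3 : 0 < n - 2 := by omega
    positivity
  have hns : n - s ≠ 0 := by omega
  have hv : (n - s).factorization 2 ≤ (ff n).factorization 2 :=
    (Nat.factorization_le_iff_dvd hns hff).2 (m5_dvd hs) 2
  have h2v : ((2 ^ (n - s).factorization 2 : ℕ) : ℝ) ≤ (N : ℝ) ^ (t / 4) := by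
    refine le_trans ?_ g2
    push_cast
    exact pow_le_pow_right₀ (by norm_num) hv
  have hlev := level_le hK hn3 hs h h' hc
  have hlevR : ((n - s : ℕ) : ℝ) ≤ ((2 ^ (n - s).factorization 2 : ℕ) : ℝ) * ((K ^ K : ℕ) : ℝ) *
      ((LP K x y z s : ℝ) * (LP K x' y' z' s : ℝ)) := by
    exact_mod_cast hlev
  have hns2 : (n : ℝ) - 2 ≤ ((n - s : ℕ) : ℝ) := by
    have h1 : n ≤ (n - s) + 2 := by omega
    have h2 : (n : ℝ) ≤ ((n - s : ℕ) : ℝ) + 2 := by exact_mod_cast h1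
    linarith
  have hA : (0 : ℝ) < (LP K x y z s : ℝ) := by exact_mod_cast m5_LP_pos K x y z s
  have hB : (0 : ℝ) < (LP K x' y' z' s : ℝ) := by exact_mod_cast m5_LP_pos K x' y' z' s
  have hT : (0 : ℝ) < (N : ℝ) ^ (t / 4) := Real.rpow_pos_of_pos hN0 _
  have key : (N : ℝ) ^ (1 - t / 4) ≤ (N : ℝ) ^ (t / 4) * (N : ℝ) ^ (t / 4) *
      ((LP K x y z s : ℝ) * (LP K x' y' z' s : ℝ)) := by
    refine g1.trans (hns2.trans (hlevR.trans ?_))
    refine mul_le_mul_of_nonneg_right ?_ (mul_pos hA hB).le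
    exact mul_le_mul h2v hKN (by positivity) hT.le
  have hl := Real.log_le_log (Real.rpow_pos_of_pos hN0 _) key
  rw [Real.log_mul (mul_pos hT hT).ne' (mul_pos hA hB).ne', Real.log_mul hT.ne' hT.ne',
    Real.log_mul hA.ne' hB.ne', Real.log_rpow hN0, Real.log_rpow hN0] at hl
  have h5 : 0 ≤ t * Real.log N := mul_nonneg ht.le hlog
  linarith

end AA
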