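import Pool.Agent.AA.M4
import Pool.Agent.AA.M5

set_option autoImplicit false

open Finset
open scoped Classical

namespace AA

open WD

/-- the logarithms of the levels in terms of the exponents -/
theorem log_LP {N K x y z : ℕ} (hN : 2 ≤ N) :
    Real.log (LP K x y z 0) = ex N K x y z 0 0 0 * Real.log N ∧
    Real.log (LP K x y z 1) = (ex N K x y z 1 0 0 + ex N K x y z 0 1 0 + ex N K x y z 0 0 1) *
      Real.log N ∧
    Real.log (LP K x y z 2) = (ex N K x y z 2 0 0 + ex N K x y z 0 2 0 + ex N K x y z 0 0 2 +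
      (ex N K x y z 1 1 0 + ex N K x y z 1 0 1 + ex N K x y z 0 1 1)) * Real.log N := by
  have hlog : 0 < Real.log N := Real.log_pos (by exact_mod_cast (by omega : 1 < N))
  have hne : ∀ i j k, ((EB K x y z i j k : ℕ) : ℝ) ≠ 0 := fun i j k => by
    exact_mod_cast (EB_pos K x y z i j k).ne'
  have he : ∀ i j k, ex N K x y z i j k * Real.log N = Real.log (EB K x y z i j k) := fun i j k => by
    unfold ex; field_simp
  obtain ⟨h0, h1, h2⟩ := LP_eq K x y z
  rw [h0, h1, h2]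
  unfold L0 L1 L2
  push_cast
  refine ⟨(he 0 0 0).symm, ?_, ?_⟩
  · rw [Real.log_mul (mul_ne_zero (hne _ _ _) (hne _ _ _)) (hne _ _ _),
      Real.log_mul (hne _ _ _) (hne _ _ _), add_mul, add_mul, he, he, he]
  · rw [Real.log_mul (mul_ne_zero (mul_ne_zero (hne _ _ _) (hne _ _ _)) (hne _ _ _))
        (mul_ne_zero (mul_ne_zero (hne _ _ _) (hne _ _ _)) (hne _ _ _)),
      Real.log_mul (mul_ne_zero (hne _ _ _) (hne _ _ _)) (hne _ _ _),
      Real.log_mul (hne _ _ _) (hne _ _ _),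
      Real.log_mul (mul_ne_zero (hne _ _ _) (hne _ _ _)) (hne _ _ _),
      Real.log_mul (hne _ _ _) (hne _ _ _)]
    rw [← he, ← he, ← he, ← he, ← he, ← he]
    ring

/-- the conditions on `n` -/
structure Good (N K n : ℕ) (t : ℝ) : Prop where
  n3 : 3 ≤ n
  nN : n ≤ N
  K2 : 2 ≤ K
  KN : ((K ^ K : ℕ) : ℝ) ≤ (N : ℝ) ^ (t / 4)
  sm : ¬ (((n : ℝ) - 2 < (N : ℝ) ^ (1 - t / 4)) ∨
      (N : ℝ) ^ (t / 4) < 2 ^ (ff n).factorization 2)
  hG : n ∉ XG N ((N : ℝ) ^ (1 + t))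
  hW : n ∉ XW N t
  hF : n ∉ XF N ((N : ℝ) ^ (9 / 20 : ℝ))
  hE : n ∉ XE K N ((N : ℝ) ^ (99 / 100 : ℝ))

theorem Good.N2 {N K n : ℕ} {t : ℝ} (h : Good N K n t) : 2 ≤ N := by
  have := h.n3
  have := h.nN
  omega

/-- [AA] the levels `0, 1, 2` cannot be covered by two triples -/
theorem Good.three {N K n : ℕ} {t : ℝ} (g : Good N K n t) (ht : 0 < t) (ht1 : t ≤ 1 / 1000)
    {x y z x' y' z' : ℕ} (hx : 0 < x) (hy : 0 < y) (hz : 0 < z) (h : x + y + z = n)
    (hx' : 0 < x') (hy' : 0 < y') (hz' : 0 < z') (h' : x' + y' + z' = n)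
    (hc : ∀ s ≤ 2, ∀ p : ℕ, p.Prime → p ≠ 2 → p ∣ n - s → K < mp n p →
      Cov p x y z ∨ Cov p x' y' z') : False := by
  have hN := g.N2
  have hlog : 0 < Real.log N := Real.log_pos (by exact_mod_cast (by omega : 1 < N))
  have e1 : Ex t (ex N K x y z) := Ex_of hN ht g.n3 g.nN hx hy hz h g.hG g.hW g.hF
  have e2 : Ex t (ex N K x' y' z') := Ex_of hN ht g.n3 g.nN hx' hy' hz' h' g.hG g.hW g.hF
  have l0 := level_log hN ht g.K2 g.KN g.n3 g.nN (s := 0) (by norm_num) g.sm h h' (hc 0 (by norm_num))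
  have l1 := level_log hN ht g.K2 g.KN g.n3 g.nN (s := 1) (by norm_num) g.sm h h' (hc 1 (by norm_num))
  have l2 := level_log hN ht g.K2 g.KN g.n3 g.nN (s := 2) (by norm_num) g.sm h h' (hc 2 (by norm_num))
  obtain ⟨a0, a1, a2⟩ := log_LP (K := K) (x := x) (y := y) (z := z) hN
  obtain ⟨b0, b1, b2⟩ := log_LP (K := K) (x := x') (y := y') (z := z') hN
  rw [a0, b0, ← add_mul] at l0
  rw [a1, b1, ← add_mul] at l1
  rw [a2, b2, ← add_mul] at l2
  exact e1.false e2 ht.le ht1 (le_of_mul_le_mul_right l0 hlog) (le_of_mul_le_mul_right l1 hlog)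
    (le_of_mul_le_mul_right l2 hlog)

/-- [AA] a triple covering `2` has a small part of levels `0, 1` -/
theorem Good.two_lt {N K n : ℕ} {t : ℝ} (g : Good N K n t) {x y z : ℕ} (hx : 0 < x) (hy : 0 < y)
    (hz : 0 < z) (h : x + y + z = n) (h2 : Cov 2 x y z) :
    ex N K x y z 0 0 0 + ex N K x y z 1 0 0 + ex N K x y z 0 1 0 + ex N K x y z 0 0 1 ≤
      99 / 100 := by
  have hlt : (D01 K x y z : ℝ) < (N : ℝ) ^ (99 / 100 : ℝ) := by
    by_contra hcon
    push Not at hcon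
    apply g.hE
    unfold XE
    rw [Finset.mem_filter, Finset.mem_Icc]
    exact ⟨⟨g.n3, g.nN⟩, x, y, z, hx, hy, hz, h, h2, hcon⟩
  have h3 := ex_sum_le (N := N) (K := K) (x := x) (y := y) (z := z) g.N2
    {(0, 0, 0), (1, 0, 0), (0, 1, 0), (0, 0, 1)} (m := (D01 K x y z : ℝ)) (u := 99 / 100) (by
      unfold D01
      simp
      apply le_of_eq
      ring) hlt.le
  simp at h3
  linarith

/-- [AA] the levels `0, 1` and the prime `2` cannot be covered by two triples -/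
theorem Good.two {N K n : ℕ} {t : ℝ} (g : Good N K n t) (ht : 0 < t) (ht1 : t ≤ 1 / 1000)
    {x y z x' y' z' : ℕ} (hx : 0 < x) (hy : 0 < y) (hz : 0 < z) (h : x + y + z = n)
    (hx' : 0 < x') (hy' : 0 < y') (hz' : 0 < z') (h' : x' + y' + z' = n)
    (hc : ∀ s ≤ 1, ∀ p : ℕ, p.Prime → p ≠ 2 → p ∣ n - s → K < mp n p →
      Cov p x y z ∨ Cov p x' y' z') (h2 : Cov 2 x y z ∨ Cov 2 x' y' z') : False := by
  have hN := g.N2
  have hlog : 0 < Real.log N := Real.log_pos (by exact_mod_cast (by omega : 1 < N))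
  have l0 := level_log hN ht g.K2 g.KN g.n3 g.nN (s := 0) (by norm_num) g.sm h h' (hc 0 (by norm_num))
  have l1 := level_log hN ht g.K2 g.KN g.n3 g.nN (s := 1) (by norm_num) g.sm h h' (hc 1 (by norm_num))
  obtain ⟨a0, a1, -⟩ := log_LP (K := K) (x := x) (y := y) (z := z) hN
  obtain ⟨b0, b1, -⟩ := log_LP (K := K) (x := x') (y := y') (z := z') hN
  rw [a0, b0, ← add_mul] at l0
  rw [a1, b1, ← add_mul] at l1
  have l0' := le_of_mul_le_mul_right l0 hlog
  have l1' := le_of_mul_le_mul_right l1 hlog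
  obtain ⟨-, g1, -⟩ := ex_basic (K := K) hN g.n3 g.nN hx hy hz h g.hG
  obtain ⟨-, g2, -⟩ := ex_basic (K := K) hN g.n3 g.nN hx' hy' hz' h' g.hG
  rcases h2 with h2 | h2
  · have := g.two_lt hx hy hz h h2
    linarith
  · have := g.two_lt hx' hy' hz' h' h2
    linarith

end AA
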