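import Pool.Agent.AA.W0

set_option autoImplicit false

open Finset
open scoped Classical

namespace AA

open WD

/-- the ten types of level at most two -/
def w2_T : Fin 10 → ℕ × ℕ × ℕ :=
  ![(0, 0, 0), (0, 0, 1), (0, 0, 2), (1, 0, 0), (1, 0, 1), (0, 1, 0), (0, 1, 1), (2, 0, 0),
    (0, 2, 0), (1, 1, 0)]

theorem w2_T_le : ∀ t, (w2_T t).1 + (w2_T t).2.1 + (w2_T t).2.2 ≤ 2 := by decide

theorem w2_prod (K x y z : ℕ) : ∏ k, MM K x y z k =
    ∏ t, EB K x y z (w2_T t).1 (w2_T t).2.1 (w2_T t).2.2 := by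
  rw [prod_MM]
  simp only [Fin.prod_univ_succ, Fin.prod_univ_zero]
  simp [w2_T, mul_assoc]

theorem w2_dvd_ff {e z k : ℕ} (h : (e : ℤ) ∣ (z : ℤ) - k) (hk : k ≤ 2) : e ∣ ff z := by
  apply dvd_ff
  have h1 : k ≡ z [MOD e] := (Nat.modEq_iff_dvd).mpr h
  have h2 : z % e = k % e := h1.symm
  rw [h2]
  exact (Nat.mod_le k e).trans hk

theorem w2_prod_dvd {K x y z w : ℕ}
    (h : ∀ t, EB K x y z (w2_T t).1 (w2_T t).2.1 (w2_T t).2.2 ∣ w) :
    (∏ k, MM K x y z k) ∣ w := by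
  rw [w2_prod]
  apply Finset.prod_dvd_of_isRelPrime
  · intro s _ t _ hst
    show IsRelPrime _ _
    rw [← Nat.coprime_iff_isRelPrime]
    apply EB_coprime
    revert hst
    revert s t
    decide
  · intro t _
    exact h t

theorem w2_mul_dvd {a b : ℕ} {n : ℤ} (h : Nat.Coprime a b) (ha : (a : ℤ) ∣ n) (hb : (b : ℤ) ∣ n) :
    ((a * b : ℕ) : ℤ) ∣ n := by
  rw [Nat.cast_mul]
  exact IsCoprime.mul_dvd (Nat.isCoprime_iff_coprime.mpr h) ha hb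

/-- [AA-W1c] PROOF. `Fin` case analysis: `EB_odd`, `EB_coprime` (`Nat.Coprime.mul_left`, ..), `EB_dvd_x`, `EB_dvd_y` (coprime factors, each divides `x - i`; `IsCoprime.mul_dvd`). `ND x y 0`: `0 < x`, `0 < y` and for `k ≠ 0` with `pr k = (p, q)`: `q x ≠ p y`, true as `x, y > 0`, `x ≠ y`. `wz`: `∏ MM ∣ ff z`: each `EB .. i j k` divides `z - k` with `k ≤ 2`, so it divides `ff z` in `ℤ` (`WD.w12_dvd_ff`), pairwise coprime; `wn`: each divides `(x + y + z) - (i + j + k)`, `i + j + k ≤ 2`. -/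
theorem core_of {K x y z : ℕ} {R : ℝ} (hx : 0 < x) (hy : 0 < y) (hz : 0 < z) (hxy : x ≠ y)
    (hR : R < ((EB K x y z 0 0 0 * EB K x y z 0 0 1 * EB K x y z 0 0 2 : ℕ) : ℝ)) :
    Core R 0 x y z (MM K x y z) := by
  have hodd : ∀ k, Odd (MM K x y z k) := by
    intro k
    fin_cases k
    · exact ((EB_odd K x y z 0 0 0).mul (EB_odd K x y z 0 0 1)).mul (EB_odd K x y z 0 0 2)
    · exact (EB_odd K x y z 1 0 0).mul (EB_odd K x y z 1 0 1)
    · exact (EB_odd K x y z 0 1 0).mul (EB_odd K x y z 0 1 1)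
    · exact EB_odd K x y z 2 0 0
    · exact EB_odd K x y z 0 2 0
    · exact EB_odd K x y z 1 1 0
  have hcop : ∀ k l, k ≠ l → Nat.Coprime (MM K x y z k) (MM K x y z l) := by
    intro k l hkl
    fin_cases k <;> fin_cases l <;>
    first
    | exact absurd rfl hkl
    | (show Nat.Coprime _ _
       simp only [MM, Fin.mk_zero, Fin.mk_one, Fin.reduceFinMk, Matrix.cons_val_zero,
         Matrix.cons_val_one, Matrix.cons_val]
       repeat' first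
         | exact EB_coprime (by decide)
         | apply Nat.Coprime.mul_left
         | apply Nat.Coprime.mul_right)
  have hc3 : Nat.Coprime (EB K x y z 0 0 0 * EB K x y z 0 0 1) (EB K x y z 0 0 2) :=
    Nat.Coprime.mul_left (EB_coprime (by decide)) (EB_coprime (by decide))
  refine ⟨⟨hodd, hcop, ?_, ?_⟩, ⟨hx, hy, ?_⟩, hR, hz, ?_, ?_⟩
  · intro k
    fin_cases k
    · exact w2_mul_dvd hc3 (w2_mul_dvd (EB_coprime (by decide)) (EB_dvd_x K x y z 0 0 0)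
        (EB_dvd_x K x y z 0 0 1)) (EB_dvd_x K x y z 0 0 2)
    · exact w2_mul_dvd (EB_coprime (by decide)) (EB_dvd_x K x y z 1 0 0) (EB_dvd_x K x y z 1 0 1)
    · exact w2_mul_dvd (EB_coprime (by decide)) (EB_dvd_x K x y z 0 1 0) (EB_dvd_x K x y z 0 1 1)
    · exact EB_dvd_x K x y z 2 0 0
    · exact EB_dvd_x K x y z 0 2 0
    · exact EB_dvd_x K x y z 1 1 0
  · intro k
    fin_cases k
    · exact w2_mul_dvd hc3 (w2_mul_dvd (EB_coprime (by decide)) (EB_dvd_y K x y z 0 0 0)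
        (EB_dvd_y K x y z 0 0 1)) (EB_dvd_y K x y z 0 0 2)
    · exact w2_mul_dvd (EB_coprime (by decide)) (EB_dvd_y K x y z 1 0 0) (EB_dvd_y K x y z 1 0 1)
    · exact w2_mul_dvd (EB_coprime (by decide)) (EB_dvd_y K x y z 0 1 0) (EB_dvd_y K x y z 0 1 1)
    · exact EB_dvd_y K x y z 2 0 0
    · exact EB_dvd_y K x y z 0 2 0
    · exact EB_dvd_y K x y z 1 1 0
  · intro k hk
    fin_cases k
    · exact absurd rfl hk
    · show ((0 : ℕ) - (0 : ℕ) : ℤ) * ((x : ℤ) - (0 : ℕ)) ≠ ((1 : ℕ) - (0 : ℕ) : ℤ) * ((y : ℤ) - (0 : ℕ))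
      push_cast
      omega
    · show ((1 : ℕ) - (0 : ℕ) : ℤ) * ((x : ℤ) - (0 : ℕ)) ≠ ((0 : ℕ) - (0 : ℕ) : ℤ) * ((y : ℤ) - (0 : ℕ))
      push_cast
      omega
    · show ((0 : ℕ) - (0 : ℕ) : ℤ) * ((x : ℤ) - (0 : ℕ)) ≠ ((2 : ℕ) - (0 : ℕ) : ℤ) * ((y : ℤ) - (0 : ℕ))
      push_cast
      omega
    · show ((2 : ℕ) - (0 : ℕ) : ℤ) * ((x : ℤ) - (0 : ℕ)) ≠ ((0 : ℕ) - (0 : ℕ) : ℤ) * ((y : ℤ) - (0 : ℕ))
      push_cast
      omega
    · show ((1 : ℕ) - (0 : ℕ) : ℤ) * ((x : ℤ) - (0 : ℕ)) ≠ ((1 : ℕ) - (0 : ℕ) : ℤ) * ((y : ℤ) - (0 : ℕ))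
      push_cast
      omega
  · apply w2_prod_dvd
    intro t
    refine w2_dvd_ff (EB_dvd_z K x y z _ _ _) ?_
    revert t
    decide
  · apply w2_prod_dvd
    intro t
    have h1 := EB_dvd_x K x y z (w2_T t).1 (w2_T t).2.1 (w2_T t).2.2
    have h2 := EB_dvd_y K x y z (w2_T t).1 (w2_T t).2.1 (w2_T t).2.2
    have h3 := EB_dvd_z K x y z (w2_T t).1 (w2_T t).2.1 (w2_T t).2.2
    refine w2_dvd_ff (k := (w2_T t).1 + (w2_T t).2.1 + (w2_T t).2.2) ?_ ?_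
    · have h4 := dvd_add (dvd_add h1 h2) h3
      have e : (x : ℤ) - ((w2_T t).1 : ℕ) + ((y : ℤ) - ((w2_T t).2.1 : ℕ)) +
          ((z : ℤ) - ((w2_T t).2.2 : ℕ)) =
          ((x + y + z : ℕ) : ℤ) - (((w2_T t).1 + (w2_T t).2.1 + (w2_T t).2.2 : ℕ) : ℤ) := by
        push_cast
        ring
      rw [e] at h4
      exact h4
    · exact w2_T_le t

end AA
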