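import Pool.Agent.AA.M0
import Pool.Agent.AA.F1
import Pool.Agent.AA.W2

set_option autoImplicit false

open Finset
open scoped Classical

namespace AA

open WD

theorem m3_pow_lt {N E : ℕ} (hN : 2 ≤ N) {u : ℝ} (h : u < Real.log E / Real.log N) (hE : 0 < E) :
    (N : ℝ) ^ u < (E : ℝ) := by
  have hN1 : (1 : ℝ) < N := by exact_mod_cast (lt_of_lt_of_le one_lt_two hN)
  have hN0 : (0 : ℝ) < N := by linarith
  have hE0 : (0 : ℝ) < E := by exact_mod_cast hE
  have hlog : 0 < Real.log N := Real.log_pos hN1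
  rw [lt_div_iff₀ hlog] at h
  rw [← Real.log_lt_log_iff (Real.rpow_pos_of_pos hN0 u) hE0, Real.log_rpow hN0]
  exact h

theorem m3_ex_zero {N K x y z i j k : ℕ} (h : EB K x y z i j k = 1) : ex N K x y z i j k = 0 := by
  unfold ex
  rw [h, Nat.cast_one, Real.log_one, zero_div]

theorem m3_three {N K x y z : ℕ} (hN : 2 ≤ N) {u : ℝ}
    (h : ((EB K x y z 0 0 0 * EB K x y z 0 0 1 * EB K x y z 0 0 2 : ℕ) : ℝ) ≤ (N : ℝ) ^ u) :
    ex N K x y z 0 0 0 + ex N K x y z 0 0 1 + ex N K x y z 0 0 2 ≤ u := by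
  have h1 := ex_sum_le (K := K) (x := x) (y := y) (z := z) hN
    ({(0, 0, 0), (0, 0, 1), (0, 0, 2)} : Finset (ℕ × ℕ × ℕ)) (m := (N : ℝ) ^ u) (u := u) ?_ le_rfl
  · rw [Finset.sum_insert (by decide), Finset.sum_insert (by decide), Finset.sum_singleton] at h1
    linarith
  · rw [Finset.prod_insert (by decide), Finset.prod_insert (by decide), Finset.prod_singleton]
    refine le_trans (le_of_eq ?_) h
    congr 1
    ring

theorem m3_ten {N K x y z : ℕ} (hN : 2 ≤ N) {u : ℝ}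
    (h : ((∏ k, MM K x y z k : ℕ) : ℝ) ≤ (N : ℝ) ^ u) :
    ex N K x y z 0 0 0 + ex N K x y z 1 0 0 + ex N K x y z 0 1 0 + ex N K x y z 0 0 1 +
      (ex N K x y z 2 0 0 + ex N K x y z 0 2 0 + ex N K x y z 0 0 2 +
      (ex N K x y z 1 1 0 + ex N K x y z 1 0 1 + ex N K x y z 0 1 1)) ≤ u := by
  have h1 := ex_sum_le (K := K) (x := x) (y := y) (z := z) hN
    ({(0, 0, 0), (0, 0, 1), (0, 0, 2), (1, 0, 0), (1, 0, 1), (0, 1, 0), (0, 1, 1), (2, 0, 0), (0, 2, 0),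
      (1, 1, 0)} : Finset (ℕ × ℕ × ℕ)) (m := (N : ℝ) ^ u) (u := u) ?_ le_rfl
  · rw [Finset.sum_insert (by decide), Finset.sum_insert (by decide), Finset.sum_insert (by decide),
      Finset.sum_insert (by decide), Finset.sum_insert (by decide), Finset.sum_insert (by decide),
      Finset.sum_insert (by decide), Finset.sum_insert (by decide), Finset.sum_insert (by decide),
      Finset.sum_singleton] at h1
    linarith
  · rw [Finset.prod_insert (by decide), Finset.prod_insert (by decide), Finset.prod_insert (by decide),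
      Finset.prod_insert (by decide), Finset.prod_insert (by decide), Finset.prod_insert (by decide),
      Finset.prod_insert (by decide), Finset.prod_insert (by decide), Finset.prod_insert (by decide),
      Finset.prod_singleton]
    refine le_trans (le_of_eq ?_) h
    rw [prod_MM]
    congr 1
    ring

/-- the degenerate case -/
theorem m3_eq {N K n x z : ℕ} (hN : 2 ≤ N) (hn3 : 3 ≤ n) (hnN : n ≤ N) (hx : 0 < x) (hz : 0 < z)
    (h : x + x + z = n) (hF : n ∉ XF N ((N : ℝ) ^ (9 / 20 : ℝ))) :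
    ex N K x x z 0 0 0 ≤ 9 / 20 ∨ ex N K x x z 0 0 1 ≤ 9 / 20 ∨ ex N K x x z 1 1 0 ≤ 9 / 20 := by
  by_contra hcon
  push Not at hcon
  obtain ⟨h1, h2, h3⟩ := hcon
  apply hF
  have e1 : (x : ℤ) - (0 : ℕ) = x := by simp
  have e2 : (z : ℤ) - (0 : ℕ) = z := by simp
  have e3 : (z : ℤ) - (1 : ℕ) = z - 1 := by simp
  have e4 : (x : ℤ) - (1 : ℕ) = x - 1 := by simp
  unfold XF
  rw [Finset.mem_filter, Finset.mem_Icc]
  refine ⟨⟨hn3, hnN⟩, x, z, EB K x x z 0 0 0, EB K x x z 0 0 1, EB K x x z 1 1 0, by omega, ?_⟩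
  refine ⟨hx, hz, ?_, ?_, ?_, ?_, ?_, ?_, ?_, ?_, ?_, ?_, ?_, ?_⟩
  · have := EB_dvd_x K x x z 0 0 0
    rwa [e1] at this
  · have := EB_dvd_z K x x z 0 0 0
    rwa [e2] at this
  · have := EB_dvd_x K x x z 0 0 1
    rwa [e1] at this
  · have := EB_dvd_z K x x z 0 0 1
    rwa [e3] at this
  · have := EB_dvd_x K x x z 1 1 0
    rwa [e4] at this
  · have := EB_dvd_z K x x z 1 1 0
    rwa [e2] at this
  · exact EB_coprime (Or.inr (Or.inr (by norm_num)))
  · exact EB_coprime (Or.inl (by norm_num))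
  · exact EB_coprime (Or.inl (by norm_num))
  · exact m3_pow_lt hN h1 (EB_pos _ _ _ _ _ _ _)
  · exact m3_pow_lt hN h2 (EB_pos _ _ _ _ _ _ _)
  · exact m3_pow_lt hN h3 (EB_pos _ _ _ _ _ _ _)

/-- [AA-M1d] PROOF. If `x ≠ y`: if the product of the blocks `000, 001, 002` is `≤ N^(1/2+t)` take the first alternative (`ex_sum_le`); otherwise `core_of` and `prod_MM`, `n ∉ XW N t` give `∏ all ten blocks < N^(1+t/100) ≤ N^(1+t)`: second alternative. If `x = y`: the six blocks with `i ≠ j` are `1` (`EB_eq_one_of_eq`), `ex = 0`; if the three exponents were all `> 9/20`, the blocks `d = 000`, `a = 001`, `f = 110` are `> N^(9/20)` and form a `Deg` (`EB_dvd_x`, `EB_dvd_z`, `EB_coprime`), `n = 2 x + z ∈ XF`, contradiction. -/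
theorem ex_w {N K n x y z : ℕ} {t : ℝ} (hN : 2 ≤ N) (ht : 0 < t) (hn3 : 3 ≤ n) (hnN : n ≤ N)
    (hx : 0 < x) (hy : 0 < y) (hz : 0 < z) (h : x + y + z = n) (hW : n ∉ XW N t)
    (hF : n ∉ XF N ((N : ℝ) ^ (9 / 20 : ℝ))) :
    ex N K x y z 0 0 0 + ex N K x y z 0 0 1 + ex N K x y z 0 0 2 ≤ 1 / 2 + t ∨
    ex N K x y z 0 0 0 + ex N K x y z 1 0 0 + ex N K x y z 0 1 0 + ex N K x y z 0 0 1 +
      (ex N K x y z 2 0 0 + ex N K x y z 0 2 0 + ex N K x y z 0 0 2 +
      (ex N K x y z 1 1 0 + ex N K x y z 1 0 1 + ex N K x y z 0 1 1)) ≤ 1 + t ∨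
    (ex N K x y z 1 0 0 = 0 ∧ ex N K x y z 0 1 0 = 0 ∧ ex N K x y z 2 0 0 = 0 ∧
      ex N K x y z 0 2 0 = 0 ∧ ex N K x y z 1 0 1 = 0 ∧ ex N K x y z 0 1 1 = 0 ∧
      (ex N K x y z 0 0 0 ≤ 9 / 20 ∨ ex N K x y z 0 0 1 ≤ 9 / 20 ∨
        ex N K x y z 1 1 0 ≤ 9 / 20)) := by
  by_cases hxy : x = y
  · subst hxy
    exact Or.inr (Or.inr ⟨m3_ex_zero (EB_eq_one_of_eq (by norm_num)), m3_ex_zero (EB_eq_one_of_eq (by norm_num)),
      m3_ex_zero (EB_eq_one_of_eq (by norm_num)), m3_ex_zero (EB_eq_one_of_eq (by norm_num)),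
      m3_ex_zero (EB_eq_one_of_eq (by norm_num)), m3_ex_zero (EB_eq_one_of_eq (by norm_num)),
      m3_eq hN hn3 hnN hx hz h hF⟩)
  · by_cases hR : ((EB K x y z 0 0 0 * EB K x y z 0 0 1 * EB K x y z 0 0 2 : ℕ) : ℝ) ≤ (N : ℝ) ^ (1 / 2 + t)
    · exact Or.inl (m3_three hN hR)
    · refine Or.inr (Or.inl (m3_ten hN ?_))
      have hcore := core_of hx hy hz hxy (not_le.1 hR)
      have h1 : ((∏ k, MM K x y z k : ℕ) : ℝ) < (N : ℝ) ^ (1 + t / 100) := by
        by_contra hcon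
        apply hW
        unfold XW
        rw [Finset.mem_filter, Finset.mem_Icc]
        exact ⟨⟨hn3, hnN⟩, x, y, z, MM K x y z, h, hcore, not_lt.1 hcon⟩
      refine h1.le.trans (Real.rpow_le_rpow_of_exponent_le ?_ ?_)
      · have hN1 : (1 : ℝ) < N := by exact_mod_cast (lt_of_lt_of_le one_lt_two hN)
        exact hN1.le
      · linarith

end AA
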