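import Pool.Agent.AA.M1
import Pool.Agent.AA.M3
import Pool.Agent.AA.L1

set_option autoImplicit false

open Finset
open scoped Classical

namespace AA

open WD

/-- [AA-M1e] symmetry of the exponents: `EB_swap`, `EB_rot`. -/
theorem ex_swap (N K x y z i j k : ℕ) : ex N K x z y i k j = ex N K x y z i j k := by
  unfold ex; rw [EB_swap]

theorem ex_rot (N K x y z i j k : ℕ) : ex N K y z x j k i = ex N K x y z i j k := by
  unfold ex; rw [EB_rot]

/-- [AA-M1f] PROOF. `ex_basic`, `ex_w` for `(x, y, z)` and its permutations (`(x, z, y)`, `(y, z, x)`, `(z, x, y)`, ..) with `ex_swap`, `ex_rot`. -/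
theorem Ex_of {N K n x y z : ℕ} {t : ℝ} (hN : 2 ≤ N) (ht : 0 < t) (hn3 : 3 ≤ n) (hnN : n ≤ N)
    (hx : 0 < x) (hy : 0 < y) (hz : 0 < z) (h : x + y + z = n)
    (hG : n ∉ XG N ((N : ℝ) ^ (1 + t))) (hW : n ∉ XW N t)
    (hF : n ∉ XF N ((N : ℝ) ^ (9 / 20 : ℝ))) : Ex t (ex N K x y z) := by
  have hzxy : z + x + y = n := by omega
  have hyzx : y + z + x = n := by omega
  have hxzy : x + z + y = n := by omega
  have b1 := ex_basic (K := K) hN hn3 hnN hx hy hz h hG
  have b2 := ex_basic (K := K) hN hn3 hnN hy hz hx hyzx hG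
  have b3 := ex_basic (K := K) hN hn3 hnN hz hx hy hzxy hG
  have w1 := ex_w (K := K) hN ht hn3 hnN hx hy hz h hW hF
  have w2 := ex_w (K := K) hN ht hn3 hnN hx hz hy hxzy hW hF
  have w3 := ex_w (K := K) hN ht hn3 hnN hy hz hx hyzx hW hF
  have r3 : ∀ i j k, ex N K z x y k i j = ex N K x y z i j k := fun i j k => by
    rw [← ex_rot N K x y z i j k, ← ex_rot N K y z x j k i]
  simp only [ex_rot, r3, ex_swap] at b2 b3 w2 w3
  obtain ⟨nn, g, px, qxy⟩ := b1
  obtain ⟨-, -, py, qyz⟩ := b2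
  obtain ⟨-, -, pz, qzx⟩ := b3
  refine ⟨nn, g, px, by linarith, by linarith, qxy, by linarith, by linarith, w1, ?_, ?_⟩
  · rcases w2 with w2 | w2 | ⟨a1, a2, a3, a4, a5, a6, a7⟩
    · left; linarith
    · right; left; linarith
    · right; right
      exact ⟨a1, a2, a3, a4, a5, a6, a7⟩
  · rcases w3 with w3 | w3 | ⟨a1, a2, a3, a4, a5, a6, a7⟩
    · left; linarith
    · right; left; linarith
    · right; right
      exact ⟨a1, a2, a3, a4, a5, a6, a7⟩

end AA
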