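import Pool.Agent.AA.C1

set_option autoImplicit false

open Finset
open scoped Classical

namespace AA

open WD

/-- [AA-W] triples whose pair `(x, y)` has a modulus of type `(0, 0)` larger than `N^(1/2+η)` -/
noncomputable def XW (N : ℕ) (η : ℝ) : Finset ℕ :=
  (Icc 3 N).filter (fun n => ∃ (x y z : ℕ) (M : Fin 6 → ℕ), x + y + z = n ∧
    Core ((N : ℝ) ^ (1 / 2 + η)) 0 x y z M ∧ (N : ℝ) ^ (1 + η / 100) ≤ ((∏ k, M k : ℕ) : ℝ))

/-- [AA-W1b] the modulus of the pair `(x, y)` of the type `pr k` -/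
noncomputable def MM (K x y z : ℕ) : Fin 6 → ℕ :=
  ![EB K x y z 0 0 0 * EB K x y z 0 0 1 * EB K x y z 0 0 2,
    EB K x y z 1 0 0 * EB K x y z 1 0 1,
    EB K x y z 0 1 0 * EB K x y z 0 1 1,
    EB K x y z 2 0 0, EB K x y z 0 2 0, EB K x y z 1 1 0]

/-- [AA-W1d] `Fin.prod_univ_six`. -/
theorem prod_MM (K x y z : ℕ) : ∏ k, MM K x y z k =
    EB K x y z 0 0 0 * EB K x y z 0 0 1 * EB K x y z 0 0 2 * (EB K x y z 1 0 0 * EB K x y z 1 0 1) *
      (EB K x y z 0 1 0 * EB K x y z 0 1 1) * EB K x y z 2 0 0 * EB K x y z 0 2 0 *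
      EB K x y z 1 1 0 := by
  rw [Fin.prod_univ_six]
  rfl

end AA
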