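import Pool.Agent.AA.W0

set_option autoImplicit false

open Finset
open scoped Classical

namespace AA

open WD

/-- the triples with a core -/
noncomputable def w1_A (N : ℕ) (Q : ℕ → ℕ → ℕ → Prop) : Finset (ℕ × ℕ × ℕ) :=
  ((range (N + 1)) ×ˢ ((range (N + 1)) ×ˢ (range (N + 1)))).filter
    (fun t => t.1 + t.2.1 + t.2.2 ≤ N ∧ Q t.1 t.2.1 t.2.2)

theorem w1_mem {N : ℕ} {Q : ℕ → ℕ → ℕ → Prop} {u v w : ℕ} (h : u + v + w ≤ N) (hQ : Q u v w) :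
    (u, v, w) ∈ w1_A N Q := by
  unfold w1_A
  rw [Finset.mem_filter, Finset.mem_product, Finset.mem_product]
  refine ⟨⟨?_, ?_, ?_⟩, h, hQ⟩
  · exact Finset.mem_range.2 (by show u < N + 1; omega)
  · exact Finset.mem_range.2 (by show v < N + 1; omega)
  · exact Finset.mem_range.2 (by show w < N + 1; omega)

theorem w1_of {N : ℕ} {Q : ℕ → ℕ → ℕ → Prop} {t : ℕ × ℕ × ℕ} (h : t ∈ w1_A N Q) :
    t.1 + t.2.1 + t.2.2 ≤ N ∧ Q t.1 t.2.1 t.2.2 := (Finset.mem_filter.1 h).2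

theorem w1_card {N : ℕ} {η B : ℝ} (hN : 3 ≤ N) (hR : 1 ≤ (N : ℝ) ^ (1 / 2 + η))
    (hw1 : 0 < (N : ℝ) ^ (1 + η / 100)) (hB : DB B N) : ((XW N η).card : ℝ) ≤
      (∑ c ∈ Icc 1 ⌊(N : ℝ) / (N : ℝ) ^ (1 / 2 + η)⌋₊,
        (c : ℝ) * ((N : ℝ) ^ 2 / ((N : ℝ) ^ (1 + η / 100) * (c : ℝ) ^ 2) + 1)) *
        (B ^ 5 * (B ^ 3 * (N / (N : ℝ) ^ (1 + η / 100) + 1))) := by
  set A := w1_A N (fun u v w => ∃ M : Fin 6 → ℕ, Core ((N : ℝ) ^ (1 / 2 + η)) 0 u v w M ∧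
    (N : ℝ) ^ (1 + η / 100) ≤ ((∏ k, M k : ℕ) : ℝ) ∧ True) with hA
  have h1 : XW N η ⊆ A.image (fun t => t.1 + t.2.1 + t.2.2) := by
    intro n hn
    unfold XW at hn
    obtain ⟨h1, x, y, z, M, e1, e2, e3⟩ := Finset.mem_filter.1 hn
    have hnN : n ≤ N := (Finset.mem_Icc.1 h1).2
    exact Finset.mem_image.2 ⟨(x, y, z), w1_mem (by omega) ⟨M, e2, e3, trivial⟩, e1⟩
  have h2 : (XW N η).card ≤ A.card := (Finset.card_le_card h1).trans Finset.card_image_le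
  have h3 : ((XW N η).card : ℝ) ≤ (A.card : ℝ) := by exact_mod_cast h2
  refine h3.trans ?_
  refine general hN hR hw1 hB 0 (fun _ _ _ => True)
    (fun c => (N : ℝ) ^ 2 / ((N : ℝ) ^ (1 + η / 100) * (c : ℝ) ^ 2) + 1)
    (fun c => by positivity) ?_ _ ?_
  · intro Y Z hY hZ _ M' h1
    exact DS_card_i hw1 hY hZ h1
  · intro t ht
    exact w1_of ht

theorem w1_small (K : ℝ) {δ ε : ℝ} (hδ : 0 < δ) (hε : 0 < ε) :
    ∃ N₀ : ℕ, ∀ N : ℕ, N₀ ≤ N → K * (N : ℝ) ^ (1 - δ) ≤ ε * N := by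
  have h1 : Filter.Tendsto (fun N : ℕ => K * (N : ℝ) ^ (-δ)) Filter.atTop (nhds (K * 0)) :=
    ((tendsto_rpow_neg_atTop hδ).comp tendsto_natCast_atTop_atTop).const_mul K
  rw [mul_zero] at h1
  have h2 := (h1.eventually (gt_mem_nhds hε)).and (Filter.eventually_ge_atTop 1)
  obtain ⟨N₀, hN₀⟩ := Filter.eventually_atTop.mp h2
  refine ⟨N₀, ?_⟩
  intro N hN
  obtain ⟨h3, h4⟩ := hN₀ N hN
  have hx : (1 : ℝ) ≤ N := by exact_mod_cast h4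
  have hx0 : (0 : ℝ) < N := by linarith
  have h5 : (N : ℝ) ^ (1 - δ) = (N : ℝ) ^ (-δ) * N := by
    conv_rhs => rw [← Real.rpow_one (N : ℝ)]
    rw [← Real.rpow_mul hx0.le, ← Real.rpow_add hx0]
    congr 1
    ring
  rw [h5, ← mul_assoc]
  exact mul_le_mul_of_nonneg_right h3.le hx0.le

theorem w1_log {N : ℕ} (hN : 1 ≤ N) {t : ℝ} (ht : 0 < t) :
    1 + Real.log N ≤ (1 + 1 / t) * (N : ℝ) ^ t := by
  have hx : (1 : ℝ) ≤ N := by exact_mod_cast hN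
  have h1 := Real.log_le_rpow_div (x := (N : ℝ)) (by linarith) ht
  have h2 := Real.one_le_rpow hx ht.le
  have h3 : (1 + 1 / t) * (N : ℝ) ^ t = (N : ℝ) ^ t + (N : ℝ) ^ t / t := by ring
  rw [h3]
  linarith

/-- [AA-W1a] PROOF. As `WD.E1_card` + `WD.E1_small` (`Pool/Agent/WD/W13.lean`, `W14.lean`), but simpler: `XW` is contained in the image under `(x, y, z) ↦ x + y + z` of `WD.w13_A N (fun u v w => ∃ M, Core R 0 u v w M ∧ w1 ≤ ∏ M ∧ True)`; `WD.general` with `k0 = 0`, `Pf = fun _ _ _ => True`, `F c = N²/(w1 c²) + 1`, `WD.DS_card_i` (see the end of the proof of `E1_card`); then the same asymptotics as in the proof of `E1_small`. -/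
theorem XW_small {η : ℝ} (hη : 0 < η) (hη1 : η ≤ 1 / 2) {ε : ℝ} (hε : 0 < ε) :
    ∃ N₀ : ℕ, ∀ N : ℕ, N₀ ≤ N → ((XW N η).card : ℝ) ≤ ε * N := by
  set τ := η / 100 with hτ
  have hτ0 : 0 < τ := by positivity
  have hητ : η = 100 * τ := by rw [hτ]; ring
  obtain ⟨C, hC, hDB⟩ := exists_DB (ε := τ / 100) (by positivity) (by linarith)
  obtain ⟨N₁, hN₁⟩ := w1_small (12 * C ^ 8 * (2 + 2 / τ)) (δ := 42 / 100 * τ) (ε := ε)
    (by positivity) hε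
  refine ⟨max N₁ 3, ?_⟩
  intro N hN
  have hN3 : 3 ≤ N := le_trans (le_max_right _ _) hN
  have hx3 : (3 : ℝ) ≤ N := by exact_mod_cast hN3
  have hx1 : (1 : ℝ) ≤ N := by linarith
  have hx0 : (0 : ℝ) < N := by linarith
  have hR : 1 ≤ (N : ℝ) ^ (1 / 2 + η) := Real.one_le_rpow hx1 (by linarith)
  have hR0 : 0 < (N : ℝ) ^ (1 / 2 + η) := by linarith
  have hw1 : (N : ℝ) < (N : ℝ) ^ (1 + τ) := by
    conv_lhs => rw [← Real.rpow_one (N : ℝ)]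
    exact Real.rpow_lt_rpow_of_exponent_lt (by linarith) (by linarith)
  have hw0 : 0 < (N : ℝ) ^ (1 + τ) := by positivity
  have hB := hDB N (by omega)
  have hcard := w1_card (N := N) (η := η) hN3 hR hw0 hB
  rw [← hτ] at hcard
  have hS := sum_i (N := N) (R := (N : ℝ) ^ (1 / 2 + η)) (w := (N : ℝ) ^ (1 + τ)) (by omega) hR hw0
  refine hcard.trans ?_
  refine le_trans ?_ (hN₁ N (le_trans (le_max_left _ _) hN))
  set S := ∑ c ∈ Icc 1 ⌊(N : ℝ) / (N : ℝ) ^ (1 / 2 + η)⌋₊,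
    (c : ℝ) * ((N : ℝ) ^ 2 / ((N : ℝ) ^ (1 + τ) * (c : ℝ) ^ 2) + 1) with hSdef
  have e1 : (N : ℝ) ^ 2 / (N : ℝ) ^ (1 + τ) = (N : ℝ) ^ (1 - τ) := by
    rw [← Real.rpow_natCast, ← Real.rpow_sub hx0]
    congr 1
    push_cast
    ring
  have e2 : ((N : ℝ) / (N : ℝ) ^ (1 / 2 + η)) ^ 2 = (N : ℝ) ^ (1 - 2 * η) := by
    conv_lhs => rw [← Real.rpow_one (N : ℝ)]
    rw [← Real.rpow_mul hx0.le, ← Real.rpow_sub hx0, ← Real.rpow_natCast,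
      ← Real.rpow_mul hx0.le]
    congr 1
    push_cast
    ring
  have e3 : (N : ℝ) / (N : ℝ) ^ (1 + τ) ≤ 1 := by
    rw [div_le_one hw0]; exact hw1.le
  have hlog := w1_log (N := N) (by omega) (t := τ / 2) (by positivity)
  have hS2 : S ≤ (2 + 2 / τ) * (N : ℝ) ^ (1 - τ / 2) := by
    rw [e1, e2] at hS
    have f1 : (N : ℝ) ^ (1 - 2 * η) ≤ (N : ℝ) ^ (1 - τ / 2) :=
      Real.rpow_le_rpow_of_exponent_le hx1 (by linarith)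
    have f2 : (N : ℝ) ^ (1 - τ) * (1 + Real.log N) ≤
        (N : ℝ) ^ (1 - τ) * ((1 + 1 / (τ / 2)) * (N : ℝ) ^ (τ / 2)) :=
      mul_le_mul_of_nonneg_left hlog (by positivity)
    have f3 : (N : ℝ) ^ (1 - τ) * ((1 + 1 / (τ / 2)) * (N : ℝ) ^ (τ / 2)) =
        (1 + 2 / τ) * (N : ℝ) ^ (1 - τ / 2) := by
      have : (N : ℝ) ^ (1 - τ / 2) = (N : ℝ) ^ (1 - τ) * (N : ℝ) ^ (τ / 2) := by
        rw [← Real.rpow_add hx0]
        congr 1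
        ring
      rw [this]
      field_simp
    rw [f3] at f2
    calc S ≤ (N : ℝ) ^ (1 - τ) * (1 + Real.log N) + (N : ℝ) ^ (1 - 2 * η) := hS
      _ ≤ (1 + 2 / τ) * (N : ℝ) ^ (1 - τ / 2) + (N : ℝ) ^ (1 - τ / 2) := add_le_add f2 f1
      _ = (2 + 2 / τ) * (N : ℝ) ^ (1 - τ / 2) := by ring
  set B := C * (N : ℝ) ^ (τ / 100) with hBdef
  have hB0 : 0 ≤ B := by positivity
  have hB8 : B ^ 8 = C ^ 8 * (N : ℝ) ^ (8 / 100 * τ) := by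
    rw [hBdef, mul_pow, ← Real.rpow_natCast ((N : ℝ) ^ (τ / 100)), ← Real.rpow_mul hx0.le]
    congr 2
    push_cast
    ring
  have g1 : B ^ 5 * (B ^ 3 * ((N : ℝ) / (N : ℝ) ^ (1 + τ) + 1)) ≤
      2 * (C ^ 8 * (N : ℝ) ^ (8 / 100 * τ)) := by
    rw [← hB8]
    have : B ^ 5 * (B ^ 3 * ((N : ℝ) / (N : ℝ) ^ (1 + τ) + 1)) =
      ((N : ℝ) / (N : ℝ) ^ (1 + τ) + 1) * B ^ 8 := by ring
    rw [this]
    exact mul_le_mul_of_nonneg_right (by linarith) (by positivity)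
  have g2 : (N : ℝ) ^ (1 - 42 / 100 * τ) = (N : ℝ) ^ (1 - τ / 2) * (N : ℝ) ^ (8 / 100 * τ) := by
    rw [← Real.rpow_add hx0]
    congr 1
    ring
  have g3 : S * (B ^ 5 * (B ^ 3 * ((N : ℝ) / (N : ℝ) ^ (1 + τ) + 1))) ≤
      ((2 + 2 / τ) * (N : ℝ) ^ (1 - τ / 2)) * (2 * (C ^ 8 * (N : ℝ) ^ (8 / 100 * τ))) :=
    mul_le_mul hS2 g1 (by positivity) (by positivity)
  have g4 : 0 ≤ ((2 + 2 / τ) * (N : ℝ) ^ (1 - τ / 2)) *
      (2 * (C ^ 8 * (N : ℝ) ^ (8 / 100 * τ))) := by positivity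
  rw [g2]
  calc S * (B ^ 5 * (B ^ 3 * ((N : ℝ) / (N : ℝ) ^ (1 + τ) + 1)))
      ≤ 6 * (((2 + 2 / τ) * (N : ℝ) ^ (1 - τ / 2)) *
        (2 * (C ^ 8 * (N : ℝ) ^ (8 / 100 * τ)))) := by linarith
    _ = 12 * C ^ 8 * (2 + 2 / τ) * ((N : ℝ) ^ (1 - τ / 2) * (N : ℝ) ^ (8 / 100 * τ)) := by ring

end AA
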