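import Pool.Agent.AA.D0
import Pool.Agent.WD.W16
import Pool.Agent.WD.W17

set_option autoImplicit false

open Finset
open scoped Classical

namespace AA

open WD

theorem z1_tri_pos {a b c : ℕ} :
    0 < (a + b + c).factorial / (a.factorial * b.factorial * c.factorial) := by
  apply Nat.div_pos
  · apply Nat.le_of_dvd (Nat.factorial_pos _)
    have h1 : a.factorial * b.factorial ∣ (a + b).factorial :=
      Nat.factorial_mul_factorial_dvd_factorial_add a b
    have h2 : (a + b).factorial * c.factorial ∣ (a + b + c).factorial :=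
      Nat.factorial_mul_factorial_dvd_factorial_add (a + b) c
    exact (Nat.mul_dvd_mul_right h1 _).trans h2
  · positivity

/-- [AA-Z1] a failure of Q1 gives three covering triples.
PROOF. As the first half of the proof of `WD.good` (`Pool/Agent/WD/W17.lean`): a prime dividing all three trinomial coefficients divides their gcd, which is positive (`WD.w17_tri_pos`) and `≤ 1`; `WD.cov_of_not_dvd`. Put `T = ![![a₁, b₁, c₁], ![a₂, b₂, c₂], ![a₃, b₃, c₃]]`. -/
theorem exists_CE {n : ℕ} (h : ¬ Q1n n) : ∃ T : Fin 3 → Fin 3 → ℕ, CE n T := by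
  unfold Q1n at h
  push Not at h
  obtain ⟨a₁, b₁, c₁, a₂, b₂, c₂, a₃, b₃, c₃, ha₁, hb₁, hc₁, hn₁, ha₂, hb₂, hc₂, hn₂, ha₃, hb₃,
    hc₃, hn₃, hcon⟩ := h
  have hcov : ∀ q : ℕ, q.Prime → Cov q a₁ b₁ c₁ ∨ Cov q a₂ b₂ c₂ ∨ Cov q a₃ b₃ c₃ := by
    intro q hq
    by_contra hno
    push Not at hno
    obtain ⟨hno1, hno2, hno3⟩ := hno
    have d1 : q ∣ n.factorial / (a₁.factorial * b₁.factorial * c₁.factorial) := by
      by_contra hnd
      rw [← hn₁] at hnd
      exact hno1 (cov_of_not_dvd hq hnd)
    have d2 : q ∣ n.factorial / (a₂.factorial * b₂.factorial * c₂.factorial) := by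
      by_contra hnd
      rw [← hn₂] at hnd
      exact hno2 (cov_of_not_dvd hq hnd)
    have d3 : q ∣ n.factorial / (a₃.factorial * b₃.factorial * c₃.factorial) := by
      by_contra hnd
      rw [← hn₃] at hnd
      exact hno3 (cov_of_not_dvd hq hnd)
    have hd := Nat.dvd_gcd (Nat.dvd_gcd d1 d2) d3
    have hpos : 0 < Nat.gcd
        (Nat.gcd (n.factorial / (a₁.factorial * b₁.factorial * c₁.factorial))
                 (n.factorial / (a₂.factorial * b₂.factorial * c₂.factorial)))
        (n.factorial / (a₃.factorial * b₃.factorial * c₃.factorial)) := by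
      apply Nat.gcd_pos_of_pos_right
      rw [← hn₃]
      exact z1_tri_pos
    have := Nat.le_of_dvd hpos hd
    have := hq.two_le
    omega
  refine ⟨![![a₁, b₁, c₁], ![a₂, b₂, c₂], ![a₃, b₃, c₃]], ?_, ?_, ?_⟩
  · intro j c
    fin_cases j <;> fin_cases c <;> simp <;> assumption
  · intro j
    fin_cases j
    · simpa using hn₁
    · simpa using hn₂
    · simpa using hn₃
  · intro q hq
    rcases hcov q hq with h | h | h
    · exact ⟨0, by simpa using h⟩
    · exact ⟨1, by simpa using h⟩
    · exact ⟨2, by simpa using h⟩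

end AA
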