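import Pool.Agent.AA.A8
import Pool.Agent.AA.B1
import Pool.Agent.AA.E3
import Pool.Agent.AA.C3
import Pool.Agent.AA.M2
import Pool.Agent.AA.G4
import Pool.Agent.AA.W1
import Pool.Agent.AA.F4
import Pool.Agent.AA.Z1
import Pool.Agent.WD.W16

set_option autoImplicit false

open Finset
open scoped Classical

namespace AA

open WD

/-- permuting the coordinates: if the coordinate `c` of a triple is `u`, the two others are called `v, w` -/
theorem coord {T : Fin 3 → ℕ} (c : Fin 3) : ∃ v w : ℕ, T c + v + w = T 0 + T 1 + T 2 ∧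
    (∀ p, Cov p (T 0) (T 1) (T 2) → Cov p (T c) v w) ∧
    ((∀ i, 0 < T i) → 0 < T c ∧ 0 < v ∧ 0 < w) := by
  fin_cases c
  · exact ⟨T 1, T 2, rfl, fun p h => h, fun h => ⟨h 0, h 1, h 2⟩⟩
  · refine ⟨T 2, T 0, ?_, fun p h => h.rot, fun h => ⟨h 1, h 2, h 0⟩⟩
    show T 1 + T 2 + T 0 = _
    ring
  · refine ⟨T 0, T 1, ?_, fun p h => h.rot.rot, fun h => ⟨h 2, h 0, h 1⟩⟩
    show T 2 + T 0 + T 1 = _
    ring

/-- the other two triples -/
theorem others (j : Fin 3) : ∃ a b : Fin 3, ∀ i, i = j ∨ i = a ∨ i = b := by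
  fin_cases j
  · exact ⟨1, 2, by decide⟩
  · exact ⟨0, 2, by decide⟩
  · exact ⟨0, 1, by decide⟩

/-- [AA-Z2] the conclusion for one `n` -/
theorem Good.q1 {N R n : ℕ} {t : ℝ} (g : Good N (210 * R) n t) (ht : 0 < t) (ht1 : t ≤ 1 / 1000)
    (hn : 210 * (R + 1) ≤ n) (hX : P2Q R N n) : Q1n n := by
  by_contra hq
  obtain ⟨T, hT⟩ := exists_CE hq
  obtain ⟨j, c, hjc⟩ := partB hn g.nN hX hT
  obtain ⟨a, b, hab⟩ := others j
  obtain ⟨v, w, hs, hcov, hpos⟩ := coord (T := T j) c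
  obtain ⟨hu0, hv0, hw0⟩ := hpos (hT.pos j)
  rw [hT.sum j] at hs
  have hvw : v + w < 210 * R := by omega
  have key : ∀ s ≤ 2, s < v + w → ∀ p : ℕ, p.Prime → p ≠ 2 → p ∣ n - s → 210 * R < mp n p →
      Cov p (T a 0) (T a 1) (T a 2) ∨ Cov p (T b 0) (T b 1) (T b 2) := by
    intro s hs2 hsv p hp hp2 hd hm
    obtain ⟨i, hi⟩ := hT.cov p hp
    rcases hab i with rfl | rfl | rfl
    · exfalso
      exact not_cov g.K2 g.n3 hs hvw hsv hs2 hp hp2 hd hm (hcov p hi)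
    · exact Or.inl hi
    · exact Or.inr hi
  rcases Nat.lt_or_ge 2 (v + w) with h3 | h3
  · exact g.three ht ht1 (hT.pos a 0) (hT.pos a 1) (hT.pos a 2) (hT.sum a) (hT.pos b 0)
      (hT.pos b 1) (hT.pos b 2) (hT.sum b) (fun s hs2 => key s hs2 (by omega))
  · have hv1 : v = 1 := by omega
    have hw1 : w = 1 := by omega
    subst hv1 hw1
    have hu : T j c = n - 2 := by omega
    refine g.two ht ht1 (hT.pos a 0) (hT.pos a 1) (hT.pos a 2) (hT.sum a) (hT.pos b 0)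
      (hT.pos b 1) (hT.pos b 2) (hT.sum b) (fun s hs1 => key s (by omega) (by omega)) ?_
    obtain ⟨i, hi⟩ := hT.cov 2 Nat.prime_two
    rcases hab i with rfl | rfl | rfl
    · exfalso
      have h4 := hcov 2 hi
      rw [hu] at h4
      refine not_cov_two g.n3 Nat.prime_two ?_ h4
      have := g.n3
      omega
    · exact Or.inl hi
    · exact Or.inr hi

/-- [AA-Z3] almost all `n` satisfy Q1 -/
theorem main {ε : ℝ} (hε : 0 < ε) : ∃ N₀ : ℕ, ∀ N : ℕ, N₀ ≤ N →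
    (((Icc 3 N).filter (fun n => ¬ Q1n n)).card : ℝ) ≤ ε * N := by
  have ht : (0 : ℝ) < 1 / 1000 := by norm_num
  obtain ⟨R, hR, N1, h1⟩ := partA (ε := ε / 7) (by positivity)
  obtain ⟨N2, h2⟩ := XG_small (ρ := 1 / 1000) ht (by norm_num) (ε := ε / 7) (by positivity)
  obtain ⟨N3, h3⟩ := XW_small (η := 1 / 1000) ht (by norm_num) (ε := ε / 7) (by positivity)
  obtain ⟨N4, h4⟩ := XF_small (ε := ε / 7) (by positivity)
  obtain ⟨N5, h5⟩ := XE_small (210 * R) (ε := ε / 7) (by positivity)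
  obtain ⟨N6, h6⟩ := small_bad (s := 1 / 1000 / 4) (by norm_num) (by norm_num) (ε := ε / 7)
    (by positivity)
  -- the constant `K^K`
  have hlim1 : ∀ᶠ N : ℕ in Filter.atTop, (((210 * R) ^ (210 * R) : ℕ) : ℝ) ≤
      (N : ℝ) ^ ((1 / 1000 : ℝ) / 4) := by
    have := (tendsto_rpow_atTop (y := (1 / 1000 : ℝ) / 4) (by norm_num)).comp
      tendsto_natCast_atTop_atTop
    exact this.eventually (Filter.eventually_ge_atTop _)
  have hlim2 : ∀ᶠ N : ℕ in Filter.atTop, ((210 * (R + 1) : ℕ) : ℝ) ≤ ε / 7 * N := by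
    have := (tendsto_natCast_atTop_atTop (R := ℝ)).const_mul_atTop (show 0 < ε / 7 by positivity)
    exact this.eventually (Filter.eventually_ge_atTop _)
  obtain ⟨N7, h7⟩ := Filter.eventually_atTop.mp (hlim1.and hlim2)
  refine ⟨N1 + N2 + N3 + N4 + N5 + N6 + N7 + 3, fun N hN => ?_⟩
  have k1 := h1 N (by omega)
  have k2 := h2 N (by omega)
  have k3 := h3 N (by omega)
  have k4 := h4 N (by omega)
  have k5 := h5 N (by omega)
  have k6 := h6 N (by omega)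
  obtain ⟨k7, k8⟩ := h7 N (by omega)
  set SA := (Icc 1 N).filter (fun n => ¬ P2Q R N n) with hSA
  set S6 := (Icc 3 N).filter (fun n : ℕ => ((n : ℝ) - 2 < (N : ℝ) ^ (1 - (1 / 1000 : ℝ) / 4)) ∨
        (N : ℝ) ^ ((1 / 1000 : ℝ) / 4) < 2 ^ (ff n).factorization 2) with hS6
  have hsub : (Icc 3 N).filter (fun n => ¬ Q1n n) ⊆
      range (210 * (R + 1)) ∪ (SA ∪ (XG N ((N : ℝ) ^ (1 + (1 / 1000 : ℝ))) ∪ (XW N (1 / 1000) ∪
        (XF N ((N : ℝ) ^ (9 / 20 : ℝ)) ∪ (XE (210 * R) N ((N : ℝ) ^ (99 / 100 : ℝ)) ∪ S6))))) := by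
    intro n hn
    rw [mem_filter, mem_Icc] at hn
    obtain ⟨⟨hn3, hnN⟩, hq⟩ := hn
    by_contra hcon
    simp only [mem_union, not_or] at hcon
    obtain ⟨c0, c1, c2, c3, c4, c5, c6⟩ := hcon
    apply hq
    have hn2 : 210 * (R + 1) ≤ n := by
      by_contra hlt
      exact c0 (mem_range.2 (by omega))
    have hP : P2Q R N n := by
      by_contra hno
      apply c1
      rw [hSA, mem_filter, mem_Icc]
      exact ⟨⟨by omega, hnN⟩, hno⟩
    have g : Good N (210 * R) n (1 / 1000) := by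
      refine ⟨hn3, hnN, by omega, k7, ?_, c2, c3, c4, c5⟩
      intro hbad
      apply c6
      rw [hS6, mem_filter, mem_Icc]
      exact ⟨⟨hn3, hnN⟩, hbad⟩
    exact g.q1 ht le_rfl hn2 hP
  have hcard : (((Icc 3 N).filter (fun n => ¬ Q1n n)).card : ℝ) ≤
      ((210 * (R + 1) : ℕ) : ℝ) + ((SA.card : ℝ) + (((XG N ((N : ℝ) ^ (1 + (1 / 1000 : ℝ)))).card : ℝ) +
        (((XW N (1 / 1000)).card : ℝ) + (((XF N ((N : ℝ) ^ (9 / 20 : ℝ))).card : ℝ) +
        (((XE (210 * R) N ((N : ℝ) ^ (99 / 100 : ℝ))).card : ℝ) + (S6.card : ℝ)))))) := by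
    have hh := (card_le_card hsub).trans (card_union_le _ _)
    have hh1 := card_union_le SA (XG N ((N : ℝ) ^ (1 + (1 / 1000 : ℝ))) ∪ (XW N (1 / 1000) ∪
        (XF N ((N : ℝ) ^ (9 / 20 : ℝ)) ∪ (XE (210 * R) N ((N : ℝ) ^ (99 / 100 : ℝ)) ∪ S6))))
    have hh2 := card_union_le (XG N ((N : ℝ) ^ (1 + (1 / 1000 : ℝ)))) (XW N (1 / 1000) ∪
        (XF N ((N : ℝ) ^ (9 / 20 : ℝ)) ∪ (XE (210 * R) N ((N : ℝ) ^ (99 / 100 : ℝ)) ∪ S6)))
    have hh3 := card_union_le (XW N (1 / 1000))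
        (XF N ((N : ℝ) ^ (9 / 20 : ℝ)) ∪ (XE (210 * R) N ((N : ℝ) ^ (99 / 100 : ℝ)) ∪ S6))
    have hh4 := card_union_le (XF N ((N : ℝ) ^ (9 / 20 : ℝ)))
      (XE (210 * R) N ((N : ℝ) ^ (99 / 100 : ℝ)) ∪ S6)
    have hh5 := card_union_le (XE (210 * R) N ((N : ℝ) ^ (99 / 100 : ℝ))) S6
    rw [card_range] at hh
    exact_mod_cast (by omega : ((Icc 3 N).filter (fun n => ¬ Q1n n)).card ≤
      (210 * (R + 1)) + (SA.card + ((XG N ((N : ℝ) ^ (1 + (1 / 1000 : ℝ)))).card +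
        ((XW N (1 / 1000)).card + ((XF N ((N : ℝ) ^ (9 / 20 : ℝ))).card +
        ((XE (210 * R) N ((N : ℝ) ^ (99 / 100 : ℝ))).card + S6.card))))))
  linarith

end AA
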