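import Pool.Agent.AA.Z

set_option autoImplicit false

open Finset
open scoped Classical

namespace AA

open WD

/-- density one -/
theorem density : Filter.Tendsto (fun N : ℕ =>
    (((Icc 3 N).filter (fun n => Q1n n)).card : ℝ) / N) Filter.atTop (nhds 1) := by
  rw [Metric.tendsto_atTop]
  intro ε hε
  obtain ⟨N₀, h⟩ := main (ε := ε / 2) (by positivity)
  obtain ⟨N₁, hN₁⟩ := exists_nat_gt (8 / ε)
  refine ⟨max N₀ (max N₁ 3), fun N hN => ?_⟩
  have hN0 : N₀ ≤ N := le_trans (le_max_left _ _) hN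
  have hN1 : N₁ ≤ N := le_trans (le_trans (le_max_left _ _) (le_max_right _ _)) hN
  have hN3 : 3 ≤ N := le_trans (le_trans (le_max_right _ _) (le_max_right _ _)) hN
  have hpos : (0 : ℝ) < N := by exact_mod_cast (by omega : 0 < N)
  have h1 := h N hN0
  have h2 : ((Icc 3 N).filter (fun n => Q1n n)).card +
      ((Icc 3 N).filter (fun n => ¬ Q1n n)).card = (Icc 3 N).card :=
    Finset.card_filter_add_card_filter_not _
  rw [Nat.card_Icc] at h2
  have h3 : (((Icc 3 N).filter (fun n => Q1n n)).card : ℝ) +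
      (((Icc 3 N).filter (fun n => ¬ Q1n n)).card : ℝ) = N - 2 := by
    have h4 : ((Icc 3 N).filter (fun n => Q1n n)).card +
      ((Icc 3 N).filter (fun n => ¬ Q1n n)).card + 2 = N := by omega
    have h5 : ((((Icc 3 N).filter (fun n => Q1n n)).card +
      ((Icc 3 N).filter (fun n => ¬ Q1n n)).card + 2 : ℕ) : ℝ) = N := by exact_mod_cast h4
    push_cast at h5
    linarith
  have h6 : 8 < ε * N := by
    have : (N₁ : ℝ) ≤ N := by exact_mod_cast hN1
    have h7 : 8 / ε < N := lt_of_lt_of_le hN₁ this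
    rw [div_lt_iff₀ hε] at h7
    linarith
  have h0 : (0 : ℝ) ≤ (((Icc 3 N).filter (fun n => ¬ Q1n n)).card : ℝ) := Nat.cast_nonneg _
  rw [Real.dist_eq, abs_lt]
  constructor
  · rw [lt_sub_iff_add_lt, lt_div_iff₀ hpos]
    nlinarith
  · rw [sub_lt_iff_lt_add, div_lt_iff₀ hpos]
    nlinarith

end AA
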